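import Pool.Agent.Run7.h203.SC.MProt
import Pool.Agent.TH815.GR8

set_option autoImplicit false

namespace Run7.h203.SC

open Finset Pool.Agent.H268R2.LB

/-- the bipartite graph of a relation between two sets -/
def bip {V : Type} (R : V → V → Prop) (X Y : Finset V) : SimpleGraph V where
  Adj u v := u ≠ v ∧ ((u ∈ X ∧ v ∈ Y ∧ R u v) ∨ (v ∈ X ∧ u ∈ Y ∧ R v u))
  symm := ⟨fun _ _ h => ⟨h.1.symm, h.2.symm⟩⟩
  loopless := ⟨fun _ h => h.1 rfl⟩

lemma bip_le {V : Type} (G : SimpleGraph V) (R : V → V → Prop) (X Y : Finset V)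
    (h : ∀ u ∈ X, ∀ v ∈ Y, u ≠ v → R u v → G.Adj u v) : bip R X Y ≤ G := by
  intro u v huv
  rcases huv.2 with ⟨h1, h2, h3⟩ | ⟨h1, h2, h3⟩
  · exact h u h1 v h2 huv.1 h3
  · exact (h v h1 u h2 huv.1.symm h3).symm

/-- long cycles are inherited by subgraphs -/
lemma girth_mono {V : Type} {G G' : SimpleGraph V} (h : G' ≤ G) {M : ℕ}
    (hg : ∀ (v : V) (p : G.Walk v v), p.IsCycle → M < p.length) :
    ∀ (v : V) (p : G'.Walk v v), p.IsCycle → M < p.length := by
  intro v p hp
  have := hg v (p.mapLe h) (by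
    rw [SimpleGraph.Walk.isCycle_mapLe]
    exact hp)
  rwa [SimpleGraph.Walk.length_map] at this

/-- two short nonbacktracking walks with the same ends have the same last step -/
lemma nw_unique {V : Type} {G : SimpleGraph V} {M : ℕ}
    (hg : ∀ (v : V) (p : G.Walk v v), p.IsCycle → M < p.length) {v y : V} :
    ∀ {m n : ℕ} {b c b' c' : V}, NW G m v b c y → NW G n v b' c' y → m + n ≤ M →
      m = n ∧ c = c' := by
  intro m
  induction m using Nat.strong_induction_on generalizing y with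
  | _ m ih =>
    intro n b c b' c' h1 h2 hmn
    have hc : c = c' := by
      by_contra hne
      exact no_closed hg (NW.append h1 h2.rev hne) hmn
    refine ⟨?_, hc⟩
    subst hc
    cases h1 with
    | one h =>
      cases h2 with
      | one h' => rfl
      | step h' ha hne => exact (no_closed hg h' (by omega)).elim
    | step h ha hne =>
      cases h2 with
      | one h' => exact (no_closed hg h (by omega)).elim
      | step h' ha' hne' =>
        have := (ih _ (Nat.lt_succ_self _) h h' (by omega)).1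
        omega

lemma nw_last {V : Type} {G : SimpleGraph V} {m : ℕ} {v b c y : V} (h : NW G m v b c y) :
    (m = 1 ∧ c = v) ∨ ∃ m' c0, m = m' + 1 ∧ NW G m' v b c0 c := by
  cases h with
  | one h => exact Or.inl ⟨rfl, rfl⟩
  | step h ha hne => exact Or.inr ⟨_, _, rfl, h⟩

open Classical in
/-- a bipartite relation of girth greater than `2 k` without induced matchings with more than `κ`
edges -/
theorem girth_matching {V : Type} [Fintype V] {k κ d : ℕ} (hk : 2 ≤ k) (hd : 1 ≤ d)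
    (hdκ : κ < d ^ (k - 1)) {R : V → V → Prop} (hR : NoMatching κ R) (X Y : Finset V)
    (hXY : Disjoint X Y)
    (hg : ∀ (v : V) (p : (bip R X Y).Walk v v), p.IsCycle → 2 * k < p.length) :
    ((X ×ˢ Y).filter (fun p => R p.1 p.2)).card ≤ (d + 1) * (X.card + Y.card) := by
  by_contra hcon
  push Not at hcon
  set S := (X ×ˢ Y).filter (fun p => R p.1 p.2) with hS
  have hi1 : S.image Prod.fst ⊆ X := by
    intro x hx
    rw [mem_image] at hx
    obtain ⟨q, hq, rfl⟩ := hx
    exact (mem_product.1 (mem_filter.1 hq).1).1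
  have hi2 : S.image Prod.snd ⊆ Y := by
    intro x hx
    rw [mem_image] at hx
    obtain ⟨q, hq, rfl⟩ := hx
    exact (mem_product.1 (mem_filter.1 hq).1).2
  obtain ⟨S', hS', hne, hrow, hcol⟩ := Pool.TH815.GR.clean S (d + 1 : ℕ) (d + 1 : ℕ)
    (Nat.cast_nonneg _) (Nat.cast_nonneg _) (by
      have h1 : ((d + 1 : ℕ) : ℝ) * ((S.image Prod.fst).card : ℝ) ≤ ((d + 1 : ℕ) : ℝ) * X.card :=
        mul_le_mul_of_nonneg_left (Nat.cast_le.2 (card_le_card hi1)) (Nat.cast_nonneg _)
      have h2 : ((d + 1 : ℕ) : ℝ) * ((S.image Prod.snd).card : ℝ) ≤ ((d + 1 : ℕ) : ℝ) * Y.card :=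
        mul_le_mul_of_nonneg_left (Nat.cast_le.2 (card_le_card hi2)) (Nat.cast_nonneg _)
      have h3 : (((d + 1) * (X.card + Y.card) : ℕ) : ℝ) < S.card := Nat.cast_lt.2 hcon
      push_cast at h1 h2 h3 ⊢
      linarith)
  have hmem : ∀ q ∈ S', q.1 ∈ X ∧ q.2 ∈ Y ∧ R q.1 q.2 := by
    intro q hq
    have h1 := mem_filter.1 (hS' hq)
    have h2 := mem_product.1 h1.1
    exact ⟨h2.1, h2.2, h1.2⟩
  have hXYne : ∀ x ∈ X, ∀ y ∈ Y, x ≠ y := by
    intro x hx y hy h
    exact disjoint_left.1 hXY hx (h ▸ hy)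
  set G := bip R X Y with hG
  have hadj : ∀ q ∈ S', G.Adj q.1 q.2 := by
    intro q hq
    obtain ⟨h1, h2, h3⟩ := hmem q hq
    exact ⟨hXYne _ h1 _ h2, Or.inl ⟨h1, h2, h3⟩⟩
  set par : ℕ → Prop := fun i => Even (i + (k - 1)) with hpar
  have hpar1 : ∀ i, par (i + 1) ↔ ¬ par i := by
    intro i
    simp only [hpar]
    rw [show i + 1 + (k - 1) = (i + (k - 1)) + 1 by ring, Nat.even_add_one]
  set W : ℕ → Finset V := fun i => if par i then S'.image Prod.fst else S'.image Prod.snd with hW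
  set T : ℕ → V → Finset V := fun i y => if par i then (S'.filter (fun q => q.1 = y)).image Prod.snd
    else (S'.filter (fun q => q.2 = y)).image Prod.fst with hT
  have hTW : ∀ i, ∀ y ∈ W i, ∀ z ∈ T i y, z ∈ W (i + 1) ∧ G.Adj y z := by
    intro i y hy z hz
    simp only [hW, hT] at hy hz ⊢
    by_cases hp : par i
    · have hp' : ¬ par (i + 1) := by rw [hpar1]; exact not_not.2 hp
      rw [if_pos hp] at hz
      rw [if_neg hp']
      rw [mem_image] at hz
      obtain ⟨q, hq, rfl⟩ := hz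
      rw [mem_filter] at hq
      obtain ⟨hq1, rfl⟩ := hq
      exact ⟨mem_image_of_mem _ hq1, hadj q hq1⟩
    · have hp' : par (i + 1) := by rw [hpar1]; exact hp
      rw [if_neg hp] at hz
      rw [if_pos hp']
      rw [mem_image] at hz
      obtain ⟨q, hq, rfl⟩ := hz
      rw [mem_filter] at hq
      obtain ⟨hq1, rfl⟩ := hq
      exact ⟨mem_image_of_mem _ hq1, (hadj q hq1).symm⟩
  have hδ : ∀ i, ∀ y ∈ W i, d + 1 ≤ (T i y).card := by
    intro i y hy
    simp only [hW, hT] at hy ⊢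
    by_cases hp : par i
    · rw [if_pos hp] at hy ⊢
      rw [mem_image] at hy
      obtain ⟨q, hq, rfl⟩ := hy
      rw [card_image_of_injOn]
      · exact_mod_cast hrow q hq
      · intro q1 h1 q2 h2 h12
        rw [mem_coe, mem_filter] at h1 h2
        exact Prod.ext (h1.2.trans h2.2.symm) h12
    · rw [if_neg hp] at hy ⊢
      rw [mem_image] at hy
      obtain ⟨q, hq, rfl⟩ := hy
      rw [card_image_of_injOn]
      · exact_mod_cast hcol q hq
      · intro q1 h1 q2 h2 h12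
        rw [mem_coe, mem_filter] at h1 h2
        exact Prod.ext h12 (h1.2.trans h2.2.symm)
  obtain ⟨q0, hq0⟩ := hne
  obtain ⟨v, hv⟩ : ∃ v, v ∈ W 0 := by
    by_cases hp : par 0
    · exact ⟨q0.1, by simp only [hW]; rw [if_pos hp]; exact mem_image_of_mem _ hq0⟩
    · exact ⟨q0.2, by simp only [hW]; rw [if_neg hp]; exact mem_image_of_mem _ hq0⟩
  obtain ⟨E, hE, hE'⟩ := Pool.TH815.GR.growthT hg W T (fun _ => d + 1) hTW hδ hv (k - 1) (by omega)
  rw [prod_const, card_range, Nat.add_sub_cancel] at hE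
  have hparE : par (k - 1) := by
    simp only [hpar]
    exact ⟨k - 1, rfl⟩
  have hch : ∀ y ∈ E, ∃ b c, NW G (k - 1) v b c y := by
    intro y hy
    rcases (hE' y hy).2 with ⟨h, _⟩ | h
    · omega
    · exact h
  choose! b c hbc using hch
  have hz : ∀ y ∈ E, ∃ z, z ∈ T (k - 1) y ∧ c y ≠ z := by
    intro y hy
    have h1 := hδ (k - 1) y (hE' y hy).1
    have h2 : 1 < (T (k - 1) y).card := by omega
    obtain ⟨z, hz1, hz2⟩ := exists_mem_ne h2 (c y)
    exact ⟨z, hz1, hz2.symm⟩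
  choose! z hz using hz
  have hzT : ∀ y ∈ E, (y, z y) ∈ S' := by
    intro y hy
    have h1 := (hz y hy).1
    simp only [hT] at h1
    rw [if_pos hparE, mem_image] at h1
    obtain ⟨q, hq, hq2⟩ := h1
    rw [mem_filter] at hq
    have : q = (y, z y) := Prod.ext hq.2 hq2
    rw [← this]
    exact hq.1
  have hkey : ∀ y ∈ E, ∀ y' ∈ E, R y' (z y) → y' = y := by
    intro y hy y' hy' hR'
    by_contra hne
    have m1 := hmem _ (hzT y hy)
    have m2 := hmem _ (hzT y' hy')
    have hadj' : G.Adj y' (z y) :=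
      ⟨hXYne _ m2.1 _ m1.2.1, Or.inl ⟨m2.1, m1.2.1, hR'⟩⟩
    have w1 := NW.step (hbc y hy) (hadj _ (hzT y hy)) (hz y hy).2
    by_cases hc : c y' = z y
    · have h2 := hbc y' hy'
      rw [hc] at h2
      rcases nw_last h2 with ⟨-, h3⟩ | ⟨m', c0, h3, h4⟩
      · rw [h3] at w1
        exact no_closed hg w1 (by omega)
      · have := (nw_unique hg w1 h4 (by omega)).1
        omega
    · have w2 := NW.step (hbc y' hy') hadj' hc
      exact hne (nw_unique hg w1 w2 (by omega)).2.symm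
  obtain ⟨e⟩ : Nonempty (Fin (κ + 1) ↪ E) :=
    Function.Embedding.nonempty_of_card_le (by rw [Fintype.card_fin, Fintype.card_coe]; omega)
  refine hR (fun i => (e i).1) (fun i => z (e i).1) ?_
  intro i j
  constructor
  · intro h
    have := hkey (e j).1 (e j).2 (e i).1 (e i).2 h
    exact e.injective (Subtype.ext this)
  · rintro rfl
    exact (hmem _ (hzT (e i).1 (e i).2)).2.2

/-- the bound for the leaves -/
noncomputable def lam (k κ : ℕ) : ℕ :=
  if κ = 0 then 0 else ⌊(κ : ℝ) ^ (1 / ((k : ℝ) - 1))⌋₊ + 2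

lemma lam_le {k : ℕ} (hk : 2 ≤ k) (κ : ℕ) : (lam k κ : ℝ) ≤ 3 * (κ : ℝ) ^ (1 / ((k : ℝ) - 1)) := by
  have hk1 : (0 : ℝ) < (k : ℝ) - 1 := by
    have : (2 : ℝ) ≤ k := by exact_mod_cast hk
    linarith
  unfold lam
  split_ifs with h
  · subst h
    simp only [Nat.cast_zero]
    positivity
  · have h1 : (1 : ℝ) ≤ κ := by
      have : 1 ≤ κ := Nat.one_le_iff_ne_zero.2 h
      exact_mod_cast this
    have h2 : (1 : ℝ) ≤ (κ : ℝ) ^ (1 / ((k : ℝ) - 1)) := Real.one_le_rpow h1 (by positivity)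
    have h3 := Nat.floor_le (le_trans zero_le_one h2)
    push_cast
    linarith

open Classical in
/-- a bipartite relation of girth greater than `2 k` without large induced matchings -/
theorem girth_leaf {V : Type} [Fintype V] {k : ℕ} (hk : 2 ≤ k) (κ : ℕ) (R : V → V → Prop)
    (X Y : Finset V) (hR : NoMatching κ R) (hF : Disjoint X Y ∧
      ∀ (v : V) (p : (bip R X Y).Walk v v), p.IsCycle → 2 * k < p.length) :
    ((X ×ˢ Y).filter (fun p => R p.1 p.2)).card ≤ lam k κ * (X.card + Y.card) := by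
  unfold lam
  split_ifs with h0
  · subst h0
    have : (X ×ˢ Y).filter (fun p => R p.1 p.2) = ∅ := by
      rw [filter_eq_empty_iff]
      intro p _ hp
      refine hR (fun _ => p.1) (fun _ => p.2) ?_
      intro i j
      exact ⟨fun _ => Fin.ext (by have := i.2; have := j.2; omega), fun _ => hp⟩
    rw [this, card_empty]
    exact Nat.zero_le _
  · have hk1 : (0 : ℝ) < (k : ℝ) - 1 := by
      have : (2 : ℝ) ≤ k := by exact_mod_cast hk
      linarith
    set x : ℝ := (κ : ℝ) ^ (1 / ((k : ℝ) - 1)) with hx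
    have hx0 : 0 ≤ x := by positivity
    have h1 : x < ((⌊x⌋₊ + 1 : ℕ) : ℝ) := by
      push_cast
      exact Nat.lt_floor_add_one x
    have h2 : κ < (⌊x⌋₊ + 1) ^ (k - 1) := by
      have h3 : x ^ (k - 1) = κ := by
        rw [hx, ← Real.rpow_natCast, ← Real.rpow_mul (Nat.cast_nonneg _)]
        have : ((k - 1 : ℕ) : ℝ) = (k : ℝ) - 1 := by
          rw [Nat.cast_sub (by omega)]
          simp
        rw [this, one_div, inv_mul_cancel₀ hk1.ne', Real.rpow_one]
      have h4 : x ^ (k - 1) < ((⌊x⌋₊ + 1 : ℕ) : ℝ) ^ (k - 1) :=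
        pow_lt_pow_left₀ h1 hx0 (by omega)
      rw [h3] at h4
      exact_mod_cast h4
    exact girth_matching hk (Nat.succ_le_succ (Nat.zero_le _)) h2 hR X Y hF.1 hF.2

open Classical in
/-- graphs of girth greater than `2 k` and random protocols with equality queries -/
theorem girth_protocols {V : Type} [Fintype V] {k : ℕ} (hk : 2 ≤ k) (G : SimpleGraph V)
    (hg : ∀ (v : V) (p : G.Walk v v), p.IsCycle → 2 * k < p.length) (N : ℕ) (T : Fin N → Prot V)
    (κ : Fin N → ℕ) (q : Fin N → ℝ) (hκ : ∀ i, (T i).Leaves (NoMatching (κ i)))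
    (hq : ∀ i, 0 ≤ q i) (hT : ∀ i u v, u ≠ v → (T i).Accepts u v → G.Adj u v) (p : ℝ)
    (hp : ∀ u v, G.Adj u v → p ≤ ∑ i, if (T i).Accepts u v then q i else 0) :
    p * Nat.card G.edgeSet ≤ 6 * Fintype.card V *
      ∑ i, q i * (3 ^ (T i).cost * (κ i : ℝ) ^ (1 / ((k : ℝ) - 1))) := by
  have h := mprot_random (fun R X Y => Disjoint X Y ∧
      ∀ (v : V) (p : (bip R X Y).Walk v v), p.IsCycle → 2 * k < p.length)
    (fun R R' X X' Y Y' hX hY hR hF => ⟨hF.1.mono hX hY, girth_mono (by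
      intro u v huv
      refine ⟨huv.1, ?_⟩
      rcases huv.2 with ⟨h1, h2, h3⟩ | ⟨h1, h2, h3⟩
      · exact Or.inl ⟨hX h1, hY h2, hR _ h1 _ h2 h3⟩
      · exact Or.inr ⟨hX h1, hY h2, hR _ h1 _ h2 h3⟩) hF.2⟩)
    (fun k R => NoMatching k R) (lam k)
    (fun κ R X Y hR hF => girth_leaf hk κ R X Y hR hF)
    G N T κ q hκ hq
    (fun i X Y hXY => ⟨hXY, girth_mono (bip_le G _ X Y fun u _ v _ huv h => hT i u v huv h) hg⟩) p hp
  refine h.trans ?_
  have h1 : ∑ i, q i * (3 ^ (T i).cost * (lam k (κ i) : ℝ)) ≤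
      3 * ∑ i, q i * (3 ^ (T i).cost * (κ i : ℝ) ^ (1 / ((k : ℝ) - 1))) := by
    rw [mul_sum]
    apply sum_le_sum
    intro i _
    have h2 := lam_le hk (κ i)
    have h3 : (0 : ℝ) ≤ 3 ^ (T i).cost := by positivity
    calc q i * (3 ^ (T i).cost * (lam k (κ i) : ℝ)) ≤
        q i * (3 ^ (T i).cost * (3 * (κ i : ℝ) ^ (1 / ((k : ℝ) - 1)))) :=
          mul_le_mul_of_nonneg_left (mul_le_mul_of_nonneg_left h2 h3) (hq i)
      _ = _ := by ring
  calc 2 * (Fintype.card V : ℝ) * ∑ i, q i * (3 ^ (T i).cost * (lam k (κ i) : ℝ))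
      ≤ 2 * (Fintype.card V : ℝ) *
        (3 * ∑ i, q i * (3 ^ (T i).cost * (κ i : ℝ) ^ (1 / ((k : ℝ) - 1)))) :=
        mul_le_mul_of_nonneg_left h1 (by positivity)
    _ = _ := by ring

open Classical in
/-- graphs without `K_{r,r}` and random protocols with equality queries -/
theorem krr_protocols {V : Type} [Fintype V] (r : ℕ) (hr : 1 ≤ r) (G : SimpleGraph V)
    (hG : (completeBipartiteGraph (Fin r) (Fin r)).Free G) (N : ℕ) (T : Fin N → Prot V)
    (κ : Fin N → ℕ) (q : Fin N → ℝ) (hκ : ∀ i, (T i).Leaves (NoMatching (κ i)))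
    (hq : ∀ i, 0 ≤ q i) (hT : ∀ i u v, u ≠ v → (T i).Accepts u v → G.Adj u v) (p : ℝ)
    (hp : ∀ u v, G.Adj u v → p ≤ ∑ i, if (T i).Accepts u v then q i else 0) :
    p * Nat.card G.edgeSet ≤ 2 * (r - 1 : ℕ) * Fintype.card V *
      ∑ i, q i * (3 ^ (T i).cost * (κ i : ℝ) ^ (r - 1)) := by
  obtain ⟨m, rfl⟩ : ∃ m, r = m + 1 := ⟨r - 1, by omega⟩
  have h := mprot_random (fun R X Y => ∀ A ⊆ X, ∀ C ⊆ Y, A.card = m + 1 → C.card = m + 1 →
      ∃ u ∈ A, ∃ v ∈ C, ¬ R u v)
    (fun R R' X X' Y Y' hX hY hR hF A hA C hC hA' hC' => by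
      obtain ⟨u, hu, v, hv, huv⟩ := hF A (hA.trans hX) C (hC.trans hY) hA' hC'
      exact ⟨u, hu, v, hv, fun h => huv (hR u (hA hu) v (hC hv) h)⟩)
    (fun k R => NoMatching k R) (fun k => k ^ m * m)
    (fun κ R X Y hR hF => (entries_rel hR (m + 1) (by omega) m X Y hF).trans (le_of_eq (by
      rw [Nat.add_sub_cancel]
      ring)))
    G N T κ q hκ hq
    (fun i X Y hXY A hA C hC hA' hC' => by
      by_contra hc
      push Not at hc
      apply hG
      rw [SimpleGraph.completeBipartiteGraph_isContained_iff]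
      refine ⟨A, C, by simpa using hA', by simpa using hC', ?_⟩
      intro u hu v hv
      rw [mem_coe] at hu hv
      have huv : u ≠ v := fun h => disjoint_left.1 hXY (hA hu) (h ▸ hC hv)
      exact hT i u v huv (hc u hu v hv)) p hp
  refine h.trans (le_of_eq ?_)
  rw [Nat.add_sub_cancel, mul_sum, mul_sum]
  apply sum_congr rfl
  intro i _
  push_cast
  ring

end Run7.h203.SC
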