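import Mathlib

set_option autoImplicit false

namespace Run7.h203.SC

open Finset

lemma pow_le_descFactorial (s x : ℕ) : x ^ s ≤ s ^ s * (x.descFactorial s + 1) := by
  rcases Nat.lt_or_ge x s with h | h
  · calc x ^ s ≤ s ^ s := Nat.pow_le_pow_left h.le s
      _ = s ^ s * 1 := (mul_one _).symm
      _ ≤ _ := Nat.mul_le_mul_left _ (Nat.le_add_left _ _)
  · have h1 : x ^ s ≤ s ^ s * x.descFactorial s := by
      rw [Nat.descFactorial_eq_prod_range, ← card_range s, ← prod_const, ← prod_const, card_range,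
        ← prod_mul_distrib]
      apply prod_le_prod' 
      intro i hi
      rw [mem_range] at hi
      -- x ≤ s * (x - i)
      have h2 : 1 ≤ s := by omega
      obtain ⟨y, rfl⟩ : ∃ y, x = y + i := ⟨x - i, by omega⟩
      rw [Nat.add_sub_cancel]
      obtain ⟨z, rfl⟩ : ∃ z, s = z + 1 + i := ⟨s - 1 - i, by omega⟩
      have hy : 1 ≤ y := by omega
      nlinarith
    exact h1.trans (Nat.mul_le_mul_left _ (Nat.le_succ _))

variable {V : Type} [Fintype V]

open Classical in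
/-- the number of common neighbours -/
noncomputable def cd (G : SimpleGraph V) (u u' : V) : ℕ :=
  (univ.filter (fun v => G.Adj u v ∧ G.Adj u' v)).card

open Classical in
/-- the number of pairs `(u, u')` and injective `φ` into the common neighbourhood -/
lemma sum_descFactorial (s t : ℕ) (ht : 1 ≤ t) (G : SimpleGraph V)
    (hG : (completeBipartiteGraph (Fin s) (Fin t)).Free G) :
    ∑ u : V, ∑ u' : V, (cd G u u').descFactorial s ≤ (Fintype.card V) ^ s * (t - 1) ^ 2 := by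
  -- the embeddings
  have h1 : ∀ u u' : V, (cd G u u').descFactorial s =
      ∑ φ : Fin s ↪ V, if (∀ i, G.Adj u (φ i) ∧ G.Adj u' (φ i)) then 1 else 0 := by
    intro u u'
    rw [← card_filter]
    set N := univ.filter (fun v => G.Adj u v ∧ G.Adj u' v) with hN
    have h2 : Fintype.card (Fin s ↪ N) = (cd G u u').descFactorial s := by
      rw [Fintype.card_embedding_eq, Fintype.card_fin, Fintype.card_coe]
      rfl
    rw [← h2, ← Fintype.card_subtype]
    apply Fintype.card_congr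
    refine ⟨fun ψ => ⟨ψ.trans (Function.Embedding.subtype _), ?_⟩, fun φ =>
      ⟨fun i => ⟨φ.1 i, ?_⟩, ?_⟩, ?_, ?_⟩
    · intro i
      have h9 : ((ψ i : V)) ∈ univ.filter (fun v => G.Adj u v ∧ G.Adj u' v) := (ψ i).2
      exact (mem_filter.1 h9).2
    · rw [hN, mem_filter]
      exact ⟨mem_univ _, φ.2 i⟩
    · intro i j hij
      exact φ.1.injective (by simpa using hij)
    · intro ψ
      ext i
      rfl
    · intro φ
      ext i
      rfl
  -- the common neighbours of an embedding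
  have h3 : ∀ φ : Fin s ↪ V, (univ.filter (fun u : V => ∀ i, G.Adj u (φ i))).card ≤ t - 1 := by
    intro φ
    by_contra hc
    push Not at hc
    obtain ⟨B, hB, hB'⟩ := Finset.exists_subset_card_eq
      (s := univ.filter (fun u : V => ∀ i, G.Adj u (φ i))) (n := t) (by omega)
    apply hG
    rw [SimpleGraph.completeBipartiteGraph_isContained_iff]
    refine ⟨univ.map φ, B, by simp, by simpa using hB', ?_⟩
    intro x hx y hy
    rw [mem_coe, mem_map] at hx
    obtain ⟨i, -, rfl⟩ := hx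
    have h4 := (mem_filter.1 (hB hy)).2 i
    exact h4.symm
  calc ∑ u : V, ∑ u' : V, (cd G u u').descFactorial s
      = ∑ u : V, ∑ u' : V, ∑ φ : Fin s ↪ V, (if (∀ i, G.Adj u (φ i) ∧ G.Adj u' (φ i)) then 1 else 0) := by
        simp only [h1]
    _ = ∑ φ : Fin s ↪ V, ∑ u : V, ∑ u' : V, (if (∀ i, G.Adj u (φ i) ∧ G.Adj u' (φ i)) then 1 else 0) := by
        rw [sum_comm (s := (univ : Finset (Fin s ↪ V)))]
        exact sum_congr rfl (fun u _ => sum_comm)
    _ ≤ ∑ φ : Fin s ↪ V, (t - 1) ^ 2 := by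
        apply sum_le_sum
        intro φ _
        have h5 : ∑ u : V, ∑ u' : V, (if (∀ i, G.Adj u (φ i) ∧ G.Adj u' (φ i)) then 1 else 0) =
            (univ.filter (fun u : V => ∀ i, G.Adj u (φ i))).card ^ 2 := by
          rw [sq, card_filter, sum_mul_sum]
          apply sum_congr rfl
          intro u _
          apply sum_congr rfl
          intro u' _
          by_cases h6 : ∀ i, G.Adj u (φ i)
          · by_cases h7 : ∀ i, G.Adj u' (φ i)
            · simp [h6, h7]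
            · simp [h6, h7]
          · have h8 : ¬ ∀ i, G.Adj u (φ i) ∧ G.Adj u' (φ i) := fun h => h6 fun i => (h i).1
            simp [h6, h8]
        rw [h5]
        exact Nat.pow_le_pow_left (h3 φ) 2
    _ = (Fintype.card (Fin s ↪ V)) * (t - 1) ^ 2 := by
        rw [sum_const, smul_eq_mul, card_univ]
    _ ≤ _ := by
        apply Nat.mul_le_mul_right
        rw [Fintype.card_embedding_eq, Fintype.card_fin]
        exact Nat.descFactorial_le_pow _ _

lemma sum_cd_pow (s t : ℕ) (hs : 2 ≤ s) (ht : 1 ≤ t) (G : SimpleGraph V)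
    (hG : (completeBipartiteGraph (Fin s) (Fin t)).Free G) :
    ∑ u : V, ∑ u' : V, (cd G u u') ^ s ≤ s ^ s * (t ^ 2 * (Fintype.card V) ^ s) := by
  have h1 := sum_descFactorial s t ht G hG
  have h2 : ∑ u : V, ∑ u' : V, (cd G u u') ^ s ≤
      ∑ u : V, ∑ u' : V, s ^ s * ((cd G u u').descFactorial s + 1) :=
    sum_le_sum fun u _ => sum_le_sum fun u' _ => pow_le_descFactorial s _
  refine h2.trans ?_
  simp only [← mul_sum]
  apply Nat.mul_le_mul_left
  simp only [sum_add_distrib]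
  have h3 : ∑ _u : V, ∑ _u' : V, 1 ≤ (Fintype.card V) ^ s := by
    simp only [sum_const, card_univ, smul_eq_mul, mul_one]
    rcases Nat.eq_zero_or_pos (Fintype.card V) with h | h
    · rw [h]; simp
    · calc Fintype.card V * Fintype.card V = Fintype.card V ^ 2 := (sq _).symm
        _ ≤ _ := Nat.pow_le_pow_right h hs
  have h4 : (t - 1) ^ 2 + 1 ≤ t ^ 2 := by
    obtain ⟨y, rfl⟩ : ∃ y, t = y + 1 := ⟨t - 1, by omega⟩
    rw [Nat.add_sub_cancel]
    nlinarith
  calc _ ≤ (Fintype.card V) ^ s * (t - 1) ^ 2 + (Fintype.card V) ^ s := Nat.add_le_add h1 h3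
    _ = (Fintype.card V) ^ s * ((t - 1) ^ 2 + 1) := by ring
    _ ≤ (Fintype.card V) ^ s * t ^ 2 := Nat.mul_le_mul_left _ h4
    _ = _ := mul_comm _ _

/-- the number of closed walks of length four in a graph without `K_{s,t}` -/
theorem sum_cd_sq (s t : ℕ) (hs : 2 ≤ s) (ht : 1 ≤ t) (G : SimpleGraph V)
    (hG : (completeBipartiteGraph (Fin s) (Fin t)).Free G) :
    ∑ u : V, ∑ u' : V, ((cd G u u' : ℕ) : ℝ) ^ 2 ≤
      (s : ℝ) ^ 2 * (t : ℝ) ^ (4 / (s : ℝ)) * (Fintype.card V : ℝ) ^ (4 - 4 / (s : ℝ)) := by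
  set n : ℝ := (Fintype.card V : ℝ) with hn
  have hn0 : 0 ≤ n := Nat.cast_nonneg _
  have hs0 : (2 : ℝ) ≤ s := by exact_mod_cast hs
  have hs1 : (0 : ℝ) < s := by linarith
  have ht0 : (0 : ℝ) < t := by exact_mod_cast ht
  rcases hn0.eq_or_lt with h0 | hnpos
  · have hV : IsEmpty V := by
      rw [← Fintype.card_eq_zero_iff]
      have : (Fintype.card V : ℝ) = 0 := by rw [← hn]; exact h0.symm
      exact_mod_cast this
    have : ∑ u : V, ∑ u' : V, ((cd G u u' : ℕ) : ℝ) ^ 2 = 0 := by simp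
    rw [this]
    positivity
  set Q := ∑ u : V, ∑ u' : V, ((cd G u u' : ℕ) : ℝ) ^ 2 with hQ
  have hQ0 : 0 ≤ Q := by positivity
  have h1 := Real.rpow_sum_le_const_mul_sum_rpow (univ : Finset (V × V))
    (fun p => ((cd G p.1 p.2 : ℕ) : ℝ) ^ 2) (p := (s : ℝ) / 2) (by linarith)
  have h2 : ∑ p : V × V, |((cd G p.1 p.2 : ℕ) : ℝ) ^ 2| = Q := by
    rw [hQ, Fintype.sum_prod_type]
    apply sum_congr rfl; intro u _; apply sum_congr rfl; intro u' _
    rw [abs_of_nonneg (by positivity)]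
  have h3 : ∑ p : V × V, |((cd G p.1 p.2 : ℕ) : ℝ) ^ 2| ^ ((s : ℝ) / 2) =
      ((∑ u : V, ∑ u' : V, (cd G u u') ^ s : ℕ) : ℝ) := by
    rw [Fintype.sum_prod_type]
    push_cast
    apply sum_congr rfl; intro u _; apply sum_congr rfl; intro u' _
    rw [abs_of_nonneg (by positivity), ← Real.rpow_natCast, ← Real.rpow_mul (by positivity),
      ← Real.rpow_natCast]
    congr 1
    push_cast
    ring
  rw [h2, h3] at h1
  have h4 : ((∑ u : V, ∑ u' : V, (cd G u u') ^ s : ℕ) : ℝ) ≤ (s : ℝ) ^ s * ((t : ℝ) ^ 2 * n ^ s) := by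
    rw [hn]
    exact_mod_cast sum_cd_pow s t hs ht G hG
  have h5 : (((univ : Finset (V × V)).card : ℕ) : ℝ) = n ^ 2 := by
    rw [card_univ, Fintype.card_prod]
    push_cast
    rw [sq]
  rw [h5] at h1
  -- Q^(s/2) ≤ (n^2)^(s/2-1) * (s^s t^2 n^s)
  have h6 : Q ^ ((s : ℝ) / 2) ≤ (n ^ 2) ^ ((s : ℝ) / 2 - 1) * ((s : ℝ) ^ s * ((t : ℝ) ^ 2 * n ^ s)) :=
    h1.trans (mul_le_mul_of_nonneg_left h4 (by positivity))
  have h7 : (Q ^ ((s : ℝ) / 2)) ^ (2 / (s : ℝ)) ≤
      ((n ^ 2) ^ ((s : ℝ) / 2 - 1) * ((s : ℝ) ^ s * ((t : ℝ) ^ 2 * n ^ s))) ^ (2 / (s : ℝ)) :=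
    Real.rpow_le_rpow (by positivity) h6 (by positivity)
  have h8 : (Q ^ ((s : ℝ) / 2)) ^ (2 / (s : ℝ)) = Q := by
    rw [← Real.rpow_mul hQ0]
    have : (s : ℝ) / 2 * (2 / s) = 1 := by field_simp
    rw [this, Real.rpow_one]
  rw [h8] at h7
  refine h7.trans (le_of_eq ?_)
  rw [Real.mul_rpow (by positivity) (by positivity), Real.mul_rpow (by positivity) (by positivity),
    Real.mul_rpow (by positivity) (by positivity)]
  rw [← Real.rpow_natCast n 2, ← Real.rpow_natCast (s : ℝ) s, ← Real.rpow_natCast (t : ℝ) 2,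
    ← Real.rpow_natCast n s, ← Real.rpow_natCast (s : ℝ) 2]
  rw [← Real.rpow_mul hn0, ← Real.rpow_mul hn0, ← Real.rpow_mul hs1.le, ← Real.rpow_mul ht0.le,
    ← Real.rpow_mul hn0]
  have e1 : (s : ℝ) * (2 / s) = ((2 : ℕ) : ℝ) := by push_cast; field_simp
  have e2 : ((2 : ℕ) : ℝ) * (2 / (s : ℝ)) = 4 / s := by push_cast; ring
  have e3 : ((2 : ℕ) : ℝ) * ((s : ℝ) / 2 - 1) * (2 / s) + (s : ℝ) * (2 / s) = 4 - 4 / s := by
    push_cast; field_simp; ring
  rw [← e3, Real.rpow_add hnpos, e2, e1]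
  ring

end Run7.h203.SC
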