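import Mathlib

set_option autoImplicit false

namespace Run7.h203.SC

open Finset Matrix

section bessel

variable {ι V : Type*} [Fintype ι] [Fintype V] [DecidableEq ι]
  {H : Type*} [NormedAddCommGroup H] [InnerProductSpace ℝ H]

lemma bessel (w : ι → V → ℝ) (e : ι → ℝ) (he : ∀ i, e i = 1 ∨ ∀ v, w i v = 0)
    (ho : ∀ i j, ∑ v, w i v * w j v = if i = j then e i else 0) (y : V → H) :
    ∑ i, ‖∑ v, w i v • y v‖ ^ 2 ≤ ∑ v, ‖y v‖ ^ 2 := by
  set η : ι → H := fun i => ∑ v, w i v • y v with hη
  have h0 : 0 ≤ ∑ v, ‖y v - ∑ i, w i v • η i‖ ^ 2 := by positivity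
  have h1 : ∑ v, ‖y v - ∑ i, w i v • η i‖ ^ 2 =
      ∑ v, ‖y v‖ ^ 2 - 2 * ∑ v, inner ℝ (y v) (∑ i, w i v • η i) + ∑ v, ‖∑ i, w i v • η i‖ ^ 2 := by
    rw [mul_sum, ← sum_sub_distrib, ← sum_add_distrib]
    apply sum_congr rfl
    intro v _
    exact norm_sub_sq_real _ _
  have h2 : ∑ v, inner ℝ (y v) (∑ i, w i v • η i) = ∑ i, ‖η i‖ ^ 2 := by
    simp only [inner_sum, real_inner_smul_right]
    rw [sum_comm]
    apply sum_congr rfl
    intro i _
    rw [← real_inner_self_eq_norm_sq]
    conv_rhs => rw [hη]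
    simp only [sum_inner, real_inner_smul_left]
    rfl
  have h3 : ∑ v, ‖∑ i, w i v • η i‖ ^ 2 = ∑ i, ‖η i‖ ^ 2 := by
    have e1 : ∀ v, ‖∑ i, w i v • η i‖ ^ 2 = ∑ i, ∑ j, (w i v * w j v) * inner ℝ (η i) (η j) := by
      intro v
      rw [← real_inner_self_eq_norm_sq]
      simp only [sum_inner, inner_sum, real_inner_smul_left, real_inner_smul_right]
      apply sum_congr rfl; intro i _; apply sum_congr rfl; intro j _
      rw [real_inner_comm (η i) (η j)]
      ring
    simp only [e1]
    rw [sum_comm]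
    apply sum_congr rfl
    intro i _
    rw [sum_comm]
    simp only [← sum_mul, ho]
    simp only [ite_mul, zero_mul, sum_ite_eq, mem_univ, if_true]
    rcases he i with h | h
    · rw [h, one_mul, real_inner_self_eq_norm_sq]
    · have : η i = 0 := by simp [hη, h]
      simp [this]
  rw [h1, h2, h3] at h0
  linarith

end bessel

variable {V : Type} [Fintype V] [DecidableEq V]

/-- singular value decomposition -/
lemma svd (B : Matrix V V ℝ) : ∃ (U w : V → V → ℝ) (σ : V → ℝ), (∀ i, 0 ≤ σ i) ∧
    (∀ i j, ∑ u, U i u * U j u = if i = j then 1 else 0) ∧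
    (∀ i j, ∑ v, w i v * w j v = if i = j then (if σ i = 0 then 0 else 1) else 0) ∧
    (∀ i, σ i = 0 → ∀ v, w i v = 0) ∧
    (∀ i, ∑ v, w i v * ∑ u, U i u * B u v = σ i) ∧
    ∑ i, σ i ^ 2 = ∑ u, ∑ v, B u v ^ 2 ∧
    ∑ i, σ i ^ 4 ≤ ∑ u, ∑ u', (∑ v, B u v * B u' v) ^ 2 ∧
    B.rank = (univ.filter (fun i => σ i ≠ 0)).card := by
  have hM : (B * Bᴴ).IsHermitian := Matrix.isHermitian_mul_conjTranspose_self B
  have hMe : ∀ u u', (B * Bᴴ) u u' = ∑ v, B u v * B u' v := by
    intro u u'
    rw [Matrix.mul_apply]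
    rfl
  set lam := hM.eigenvalues with hlam
  set U : V → V → ℝ := fun i u => (hM.eigenvectorBasis i) u with hU
  have hUo : ∀ i j, ∑ u, U i u * U j u = if i = j then 1 else 0 := by
    intro i j
    have h1 := orthonormal_iff_ite.1 hM.eigenvectorBasis.orthonormal i j
    rw [← h1, PiLp.inner_apply]
    apply sum_congr rfl
    intro u _
    simp [hU, mul_comm]
  have hUM : ∀ i u, ∑ u', (B * Bᴴ) u u' * U i u' = lam i * U i u := by
    intro i u
    have h1 := congrFun (hM.mulVec_eigenvectorBasis i) u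
    simp only [Matrix.mulVec, dotProduct, Pi.smul_apply, smul_eq_mul] at h1
    exact h1
  set c : V → V → ℝ := fun i v => ∑ u, U i u * B u v with hc
  have hcc : ∀ i j, ∑ v, c i v * c j v = if i = j then lam i else 0 := by
    intro i j
    have h1 : ∑ v, c i v * c j v = ∑ u, U i u * ∑ u', (B * Bᴴ) u u' * U j u' := by
      calc ∑ v, c i v * c j v = ∑ v, ∑ u, ∑ u', (U i u * B u v) * (U j u' * B u' v) := by
            simp only [hc, sum_mul_sum]
        _ = ∑ u, ∑ v, ∑ u', (U i u * B u v) * (U j u' * B u' v) := sum_comm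
        _ = ∑ u, ∑ u', ∑ v, (U i u * B u v) * (U j u' * B u' v) :=
            sum_congr rfl fun u _ => sum_comm
        _ = _ := by
            apply sum_congr rfl
            intro u _
            rw [mul_sum]
            apply sum_congr rfl
            intro u' _
            rw [hMe, sum_mul, mul_sum]
            apply sum_congr rfl
            intro v _
            ring
    rw [h1]
    simp only [hUM]
    have h2 : ∑ u, U i u * (lam j * U j u) = lam j * ∑ u, U i u * U j u := by
      rw [mul_sum]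
      apply sum_congr rfl
      intro u _
      ring
    rw [h2, hUo]
    by_cases h : i = j
    · simp [h]
    · simp [h]
  have hlam0 : ∀ i, 0 ≤ lam i := by
    intro i
    have h1 := hcc i i
    rw [if_pos rfl] at h1
    rw [← h1]
    exact sum_nonneg fun v _ => mul_self_nonneg _
  have hc0 : ∀ i, lam i = 0 → ∀ v, c i v = 0 := by
    intro i hi v
    have h1 := hcc i i
    rw [if_pos rfl, hi] at h1
    rw [sum_eq_zero_iff_of_nonneg (fun v _ => mul_self_nonneg _)] at h1
    exact mul_self_eq_zero.1 (h1 v (mem_univ _))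
  set σ : V → ℝ := fun i => √(lam i) with hσ
  have hσσ : ∀ i, σ i * σ i = lam i := fun i => Real.mul_self_sqrt (hlam0 i)
  have hσ0 : ∀ i, σ i = 0 ↔ lam i = 0 := by
    intro i
    rw [hσ]
    exact Real.sqrt_eq_zero (hlam0 i)
  refine ⟨U, fun i v => c i v / σ i, σ, fun i => Real.sqrt_nonneg _, hUo, ?_, ?_, ?_, ?_, ?_, ?_⟩
  · intro i j
    have h1 : ∑ v, c i v / σ i * (c j v / σ j) = (∑ v, c i v * c j v) / (σ i * σ j) := by
      rw [sum_div]
      apply sum_congr rfl
      intro v _
      rw [div_mul_div_comm]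
    rw [h1, hcc]
    by_cases h : i = j
    · subst h
      rw [if_pos rfl, if_pos rfl]
      by_cases h2 : σ i = 0
      · rw [if_pos h2, h2]; simp
      · rw [if_neg h2, hσσ]
        exact div_self (fun h3 => h2 ((hσ0 i).2 h3))
    · rw [if_neg h, if_neg h, zero_div]
  · intro i hi v
    simp [hi]
  · intro i
    have h1 : ∑ v, c i v / σ i * ∑ u, U i u * B u v = (∑ v, c i v * c i v) / σ i := by
      rw [sum_div]
      apply sum_congr rfl
      intro v _
      ring
    rw [h1, hcc, if_pos rfl]
    by_cases h2 : σ i = 0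
    · rw [h2]; simp
    · rw [← hσσ i]
      exact mul_div_cancel_right₀ _ h2
  · have h1 : ∀ i, σ i ^ 2 = lam i := fun i => by rw [sq]; exact hσσ i
    simp only [h1]
    have h2 := hM.trace_eq_sum_eigenvalues
    have h3 : (B * Bᴴ).trace = ∑ u, ∑ v, B u v ^ 2 := by
      rw [Matrix.trace]
      apply sum_congr rfl
      intro u _
      rw [Matrix.diag_apply, hMe]
      apply sum_congr rfl
      intro v _
      ring
    rw [← h3, h2]
    rfl
  · have h1 : ∀ i, σ i ^ 4 = lam i ^ 2 := fun i => by
      rw [← hσσ i]; ring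
    simp only [h1]
    -- Bessel for the rows of the Gram matrix
    have h2 := bessel (H := EuclideanSpace ℝ V) U (fun _ => 1) (fun i => Or.inl rfl) hUo
      (fun u => WithLp.toLp 2 (fun u' => (B * Bᴴ) u u'))
    have h3 : ∀ i, ‖∑ u, U i u • (WithLp.toLp 2 (fun u' => (B * Bᴴ) u u') : EuclideanSpace ℝ V)‖ ^ 2 =
        lam i ^ 2 := by
      intro i
      rw [EuclideanSpace.norm_sq_eq]
      have h4 : ∀ u', (∑ u, U i u • (WithLp.toLp 2 (fun u' => (B * Bᴴ) u u') : EuclideanSpace ℝ V)) u' =
          lam i * U i u' := by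
        intro u'
        rw [← hUM i u']
        simp only [WithLp.ofLp_sum, WithLp.ofLp_smul, Finset.sum_apply, Pi.smul_apply, smul_eq_mul]
        apply sum_congr rfl
        intro u _
        have h5 : (B * Bᴴ) u u' = (B * Bᴴ) u' u := by
          rw [hMe, hMe]
          exact sum_congr rfl fun v _ => mul_comm _ _
        rw [h5]
        ring
      simp only [h4, Real.norm_eq_abs, sq_abs]
      have h6 := hUo i i
      rw [if_pos rfl] at h6
      calc ∑ u, (lam i * U i u) ^ 2 = lam i ^ 2 * ∑ u, U i u * U i u := by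
            rw [mul_sum]
            apply sum_congr rfl
            intro u _
            ring
        _ = _ := by rw [h6, mul_one]
    simp only [h3] at h2
    refine h2.trans (le_of_eq ?_)
    apply sum_congr rfl
    intro u _
    rw [EuclideanSpace.norm_sq_eq]
    apply sum_congr rfl
    intro u' _
    rw [Real.norm_eq_abs, sq_abs]
    exact congrArg (· ^ 2) (hMe u u')
  · rw [← Matrix.rank_self_mul_conjTranspose, hM.rank_eq_card_non_zero_eigs, Fintype.card_subtype]
    congr 1
    ext i
    simp only [mem_filter, mem_univ, true_and]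
    exact not_congr (hσ0 i).symm

end Run7.h203.SC
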