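import Pool.Agent.Run7.h203.SC.Tree
import Pool.Agent.Run7.h203.SC.Cfour
import Pool.Agent.Run7.h203.SC.Spec

set_option autoImplicit false

namespace Run7.h203.SC

open Finset Matrix

variable {V : Type} [Fintype V]

/-- the Gram matrix of a matrix supported on a graph -/
lemma gram_sq_le (G : SimpleGraph V) (K : ℝ) (B : Matrix V V ℝ)
    (hK : ∀ u v, G.Adj u v → |B u v| ≤ K) (h0 : ∀ u v, ¬ G.Adj u v → B u v = 0) :
    ∑ u, ∑ u', (∑ v, B u v * B u' v) ^ 2 ≤
      K ^ 4 * ∑ u : V, ∑ u' : V, ((cd G u u' : ℕ) : ℝ) ^ 2 := by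
  classical
  rw [mul_sum]
  apply sum_le_sum
  intro u _
  rw [mul_sum]
  apply sum_le_sum
  intro u' _
  have h1 : |∑ v, B u v * B u' v| ≤ K ^ 2 * cd G u u' := by
    refine (abs_sum_le_sum_abs _ _).trans ?_
    have h2 : ∀ v, |B u v * B u' v| ≤ if (G.Adj u v ∧ G.Adj u' v) then K ^ 2 else 0 := by
      intro v
      split_ifs with h
      · rw [abs_mul, sq]
        have e1 := hK u v h.1
        have e2 := hK u' v h.2
        exact mul_le_mul e1 e2 (abs_nonneg _) ((abs_nonneg _).trans e1)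
      · rw [not_and_or] at h
        rcases h with h | h
        · rw [h0 u v h]; simp
        · rw [h0 u' v h]; simp
    refine (sum_le_sum fun v _ => h2 v).trans (le_of_eq ?_)
    rw [← sum_filter, sum_const, nsmul_eq_mul, mul_comm]
    congr 1
  calc (∑ v, B u v * B u' v) ^ 2 = |∑ v, B u v * B u' v| ^ 2 := (sq_abs _).symm
    _ ≤ (K ^ 2 * cd G u u') ^ 2 := pow_le_pow_left₀ (abs_nonneg _) h1 2
    _ = _ := by ring

theorem core_rank (G : SimpleGraph V) (K : ℝ) (B : Matrix V V ℝ)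
    (hK : ∀ u v, G.Adj u v → |B u v| ≤ K) (h0 : ∀ u v, ¬ G.Adj u v → B u v = 0) :
    (∑ u, ∑ v, B u v ^ 2) ^ 2 ≤
      (B.rank : ℝ) * (K ^ 4 * ∑ u : V, ∑ u' : V, ((cd G u u' : ℕ) : ℝ) ^ 2) := by
  classical
  obtain ⟨U, w, σ, hσ0, -, -, -, -, h2, h4, hr⟩ := svd B
  have hg := gram_sq_le G K B hK h0
  rw [← h2, hr]
  have e1 : ∑ i, σ i ^ 2 = ∑ i ∈ univ.filter (fun i => σ i ≠ 0), σ i ^ 2 := by
    rw [sum_filter]
    apply sum_congr rfl
    intro i _
    split_ifs with h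
    · rfl
    · push Not at h
      rw [h]; simp
  rw [e1]
  refine sq_sum_le_card_mul_sum_sq.trans ?_
  apply mul_le_mul_of_nonneg_left _ (Nat.cast_nonneg _)
  calc ∑ i ∈ univ.filter (fun i => σ i ≠ 0), (σ i ^ 2) ^ 2 ≤ ∑ i, (σ i ^ 2) ^ 2 :=
        sum_le_sum_of_subset_of_nonneg (filter_subset _ _) (fun _ _ _ => by positivity)
    _ = ∑ i, σ i ^ 4 := by
        apply sum_congr rfl; intro i _; ring
    _ ≤ _ := h4.trans hg

theorem core_factor {H : Type*} [NormedAddCommGroup H] [InnerProductSpace ℝ H]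
    (G : SimpleGraph V) (K : ℝ) (B : Matrix V V ℝ)
    (hK : ∀ u v, G.Adj u v → |B u v| ≤ K) (h0 : ∀ u v, ¬ G.Adj u v → B u v = 0)
    (x y : V → H) (hxy : ∀ u v, B u v = inner ℝ (x u) (y v)) :
    (∑ u, ∑ v, B u v ^ 2) ^ 3 ≤ ((∑ u, ‖x u‖ ^ 2) * ∑ v, ‖y v‖ ^ 2) *
      (K ^ 4 * ∑ u : V, ∑ u' : V, ((cd G u u' : ℕ) : ℝ) ^ 2) := by
  classical
  obtain ⟨U, w, σ, hσ0, hU, hw, hw0, hs, h2, h4, -⟩ := svd B
  have hg := gram_sq_le G K B hK h0
  rw [← h2]
  set T1 := ∑ i, σ i with hT1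
  set T2 := ∑ i, σ i ^ 2 with hT2
  set T3 := ∑ i, σ i ^ 3 with hT3
  set T4 := ∑ i, σ i ^ 4 with hT4
  have hT1' : 0 ≤ T1 := sum_nonneg fun i _ => hσ0 i
  have hT2' : 0 ≤ T2 := sum_nonneg fun i _ => by have := hσ0 i; positivity
  have hT3' : 0 ≤ T3 := sum_nonneg fun i _ => by have := hσ0 i; positivity
  have hT4' : 0 ≤ T4 := sum_nonneg fun i _ => by have := hσ0 i; positivity
  have a1 : T2 ^ 2 ≤ T1 * T3 := by
    apply Finset.sum_sq_le_sum_mul_sum_of_sq_le_mul
    · intro i _; exact hσ0 i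
    · intro i _; have := hσ0 i; positivity
    · intro i _; exact le_of_eq (by ring)
  have a2 : T3 ^ 2 ≤ T2 * T4 := by
    apply Finset.sum_sq_le_sum_mul_sum_of_sq_le_mul
    · intro i _; have := hσ0 i; positivity
    · intro i _; have := hσ0 i; positivity
    · intro i _; exact le_of_eq (by ring)
  have a3 : T2 ^ 3 ≤ T1 ^ 2 * T4 := by
    rcases hT2'.eq_or_lt with h | h
    · rw [← h, zero_pow (by norm_num)]
      exact mul_nonneg (sq_nonneg _) hT4'
    · have b1 : T2 ^ 4 ≤ T1 ^ 2 * (T2 * T4) := by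
        calc T2 ^ 4 = (T2 ^ 2) ^ 2 := by ring
          _ ≤ (T1 * T3) ^ 2 := pow_le_pow_left₀ (by positivity) a1 2
          _ = T1 ^ 2 * T3 ^ 2 := by ring
          _ ≤ _ := mul_le_mul_of_nonneg_left a2 (by positivity)
      have b2 : T2 * T2 ^ 3 ≤ T2 * (T1 ^ 2 * T4) := by
        calc T2 * T2 ^ 3 = T2 ^ 4 := by ring
          _ ≤ _ := b1
          _ = _ := by ring
      exact le_of_mul_le_mul_left b2 h
  -- the sum of the singular values
  set ξ : V → H := fun i => ∑ u, U i u • x u with hξ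
  set η : V → H := fun i => ∑ v, w i v • y v with hη
  have b1 : ∀ i, σ i = inner ℝ (ξ i) (η i) := by
    intro i
    rw [← hs i, hξ, hη]
    simp only [sum_inner, inner_sum, real_inner_smul_left, real_inner_smul_right, hxy, mul_sum]
  have b2 : T1 ^ 2 ≤ (∑ u, ‖x u‖ ^ 2) * ∑ v, ‖y v‖ ^ 2 := by
    have c1 : T1 ≤ ∑ i, ‖ξ i‖ * ‖η i‖ := by
      rw [hT1]
      apply sum_le_sum
      intro i _
      rw [b1 i]
      exact real_inner_le_norm _ _
    calc T1 ^ 2 ≤ (∑ i, ‖ξ i‖ * ‖η i‖) ^ 2 := pow_le_pow_left₀ hT1' c1 2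
      _ ≤ (∑ i, ‖ξ i‖ ^ 2) * ∑ i, ‖η i‖ ^ 2 := sum_mul_sq_le_sq_mul_sq _ _ _
      _ ≤ _ := by
        apply mul_le_mul _ _ (by positivity) (by positivity)
        · exact bessel U (fun _ => 1) (fun _ => Or.inl rfl) hU x
        · refine bessel w (fun i => if σ i = 0 then 0 else 1) ?_ hw y
          intro i
          by_cases h : σ i = 0
          · right; exact hw0 i h
          · left; simp [h]
  calc T2 ^ 3 ≤ T1 ^ 2 * T4 := a3
    _ ≤ _ := mul_le_mul b2 (h4.trans hg) hT4' (by positivity)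

/-- restriction to the rows with `χ = true` and the columns with `χ = false` -/
lemma exists_cut (G : SimpleGraph V) : ∃ χ : V → Bool,
    ∀ B : Matrix V V ℝ, (∀ u v, χ u = true → χ v = false → G.Adj u v → 1 ≤ |B u v|) →
      (Nat.card G.edgeSet : ℝ) / 2 ≤ ∑ u, ∑ v, B u v ^ 2 := by
  classical
  set E := (univ : Finset (V × V)).filter (fun p => G.Adj p.1 p.2) with hE
  set M := Fintype.card (V → Bool) with hM
  have hM0 : 0 < M := Fintype.card_pos
  have e1 : ∑ χ : V → Bool, 4 * (E.filter (fun p => χ p.1 = true ∧ χ p.2 = false)).card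
      = E.card * M := by
    simp only [card_filter]
    rw [← mul_sum, sum_comm, mul_sum]
    have e2 : ∀ p ∈ E, 4 * ∑ χ : V → Bool,
        (if χ p.1 = true ∧ χ p.2 = false then 1 else 0) = M := by
      intro p hp
      rw [← card_filter]
      exact quarter p.1 p.2 (mem_filter.1 hp).2.ne
    rw [sum_congr rfl e2, sum_const, smul_eq_mul, card_filter]
  have e3 : ∃ χ : V → Bool, E.card ≤ 4 * (E.filter (fun p => χ p.1 = true ∧ χ p.2 = false)).card := by
    by_contra hc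
    push Not at hc
    have e4 : ∑ χ : V → Bool, 4 * (E.filter (fun p => χ p.1 = true ∧ χ p.2 = false)).card <
        ∑ χ : V → Bool, E.card := by
      apply sum_lt_sum_of_nonempty univ_nonempty
      intro χ _
      exact hc χ
    rw [e1, sum_const, smul_eq_mul, card_univ, ← hM, mul_comm] at e4
    exact lt_irrefl _ e4
  obtain ⟨χ, hχ⟩ := e3
  refine ⟨χ, fun B hB => ?_⟩
  have e5 := card_pairs G
  rw [← hE] at e5
  have e6 : (Nat.card G.edgeSet : ℝ) / 2 ≤ ((E.filter (fun p => χ p.1 = true ∧ χ p.2 = false)).card : ℝ) := by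
    have : 2 * Nat.card G.edgeSet ≤ 4 * (E.filter (fun p => χ p.1 = true ∧ χ p.2 = false)).card := by
      rw [← e5]; exact hχ
    have h' : (2 : ℝ) * Nat.card G.edgeSet ≤ 4 * ((E.filter (fun p => χ p.1 = true ∧ χ p.2 = false)).card : ℝ) := by
      exact_mod_cast this
    linarith
  refine e6.trans ?_
  rw [hE, filter_filter, card_filter, ← univ_product_univ, sum_product]
  push_cast
  apply sum_le_sum
  intro u _
  apply sum_le_sum
  intro v _
  split_ifs with h1
  · have h4 : 1 ≤ B u v ^ 2 := by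
      rw [← sq_abs]
      exact one_le_pow₀ (hB u v h1.2.1 h1.2.2 h1.1)
    exact h4
  · positivity

/-- (1) rank and (2) factorisations of a weighting of the edges with arbitrary diagonal -/
theorem rank_bound (G : SimpleGraph V) (K : ℝ) (B : Matrix V V ℝ)
    (h1 : ∀ u v, G.Adj u v → 1 ≤ |B u v|) (hK : ∀ u v, G.Adj u v → |B u v| ≤ K)
    (h0 : ∀ u v, u ≠ v → ¬ G.Adj u v → B u v = 0) :
    ((Nat.card G.edgeSet : ℝ) / 2) ^ 2 ≤
      (B.rank : ℝ) * (K ^ 4 * ∑ u : V, ∑ u' : V, ((cd G u u' : ℕ) : ℝ) ^ 2) := by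
  classical
  obtain ⟨χ, hχ⟩ := exists_cut G
  set B' : Matrix V V ℝ := Matrix.diagonal (fun u => if χ u = true then 1 else 0) * B *
    Matrix.diagonal (fun v => if χ v = false then 1 else 0) with hB'
  have hB'e : ∀ u v, B' u v = if χ u = true ∧ χ v = false then B u v else 0 := by
    intro u v
    rw [hB', Matrix.mul_diagonal, Matrix.diagonal_mul]
    by_cases e1 : χ u = true
    · by_cases e2 : χ v = false
      · simp [e1, e2]
      · simp [e1, e2]
    · simp [e1]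
  have hne : ∀ u v, χ u = true ∧ χ v = false → u ≠ v := by
    rintro u v ⟨e1, e2⟩ rfl
    rw [e1] at e2
    exact absurd e2 (by decide)
  have h0' : ∀ u v, ¬ G.Adj u v → B' u v = 0 := by
    intro u v h
    rw [hB'e]
    split_ifs with e
    · exact h0 u v (hne u v e) h
    · rfl
  have hK' : ∀ u v, G.Adj u v → |B' u v| ≤ K := by
    intro u v h
    rw [hB'e]
    split_ifs with e
    · exact hK u v h
    · rw [abs_zero]
      exact (abs_nonneg _).trans (hK u v h)
  have hr : B'.rank ≤ B.rank :=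
    (Matrix.rank_mul_le_left _ _).trans (Matrix.rank_mul_le_right _ _)
  have hs : (Nat.card G.edgeSet : ℝ) / 2 ≤ ∑ u, ∑ v, B' u v ^ 2 := by
    apply hχ B'
    intro u v e1 e2 e3
    rw [hB'e, if_pos ⟨e1, e2⟩]
    exact h1 u v e3
  have hc := core_rank G K B' hK' h0'
  calc ((Nat.card G.edgeSet : ℝ) / 2) ^ 2 ≤ (∑ u, ∑ v, B' u v ^ 2) ^ 2 :=
        pow_le_pow_left₀ (by positivity) hs 2
    _ ≤ _ := hc
    _ ≤ _ := by
        apply mul_le_mul_of_nonneg_right (by exact_mod_cast hr)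
        positivity

theorem factor_bound {H : Type*} [NormedAddCommGroup H] [InnerProductSpace ℝ H]
    (G : SimpleGraph V) (K : ℝ) (x y : V → H)
    (h1 : ∀ u v, G.Adj u v → 1 ≤ |inner ℝ (x u) (y v)|)
    (hK : ∀ u v, G.Adj u v → |inner ℝ (x u) (y v)| ≤ K)
    (h0 : ∀ u v, u ≠ v → ¬ G.Adj u v → inner ℝ (x u) (y v) = 0) :
    ((Nat.card G.edgeSet : ℝ) / 2) ^ 3 ≤ ((∑ u, ‖x u‖ ^ 2) * ∑ v, ‖y v‖ ^ 2) *
      (K ^ 4 * ∑ u : V, ∑ u' : V, ((cd G u u' : ℕ) : ℝ) ^ 2) := by
  classical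
  obtain ⟨χ, hχ⟩ := exists_cut G
  set x' : V → H := fun u => if χ u = true then x u else 0 with hx'
  set y' : V → H := fun v => if χ v = false then y v else 0 with hy'
  set B' : Matrix V V ℝ := fun u v => inner ℝ (x' u) (y' v) with hB'
  have hB'e : ∀ u v, B' u v = if χ u = true ∧ χ v = false then inner ℝ (x u) (y v) else 0 := by
    intro u v
    simp only [hB', hx', hy']
    by_cases e1 : χ u = true
    · by_cases e2 : χ v = false
      · simp [e1, e2]
      · simp [e1, e2]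
    · simp [e1]
  have hne : ∀ u v, χ u = true ∧ χ v = false → u ≠ v := by
    rintro u v ⟨e1, e2⟩ rfl
    rw [e1] at e2
    exact absurd e2 (by decide)
  have h0' : ∀ u v, ¬ G.Adj u v → B' u v = 0 := by
    intro u v h
    rw [hB'e]
    split_ifs with e
    · exact h0 u v (hne u v e) h
    · rfl
  have hK' : ∀ u v, G.Adj u v → |B' u v| ≤ K := by
    intro u v h
    rw [hB'e]
    split_ifs with e
    · exact hK u v h
    · rw [abs_zero]
      exact (abs_nonneg _).trans (hK u v h)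
  have hs : (Nat.card G.edgeSet : ℝ) / 2 ≤ ∑ u, ∑ v, B' u v ^ 2 := by
    apply hχ B'
    intro u v e1 e2 e3
    rw [hB'e, if_pos ⟨e1, e2⟩]
    exact h1 u v e3
  have hc := core_factor G K B' hK' h0' x' y' (fun _ _ => rfl)
  have hx : ∑ u, ‖x' u‖ ^ 2 ≤ ∑ u, ‖x u‖ ^ 2 := by
    apply sum_le_sum
    intro u _
    simp only [hx']
    split_ifs
    · exact le_rfl
    · simp
  have hy : ∑ u, ‖y' u‖ ^ 2 ≤ ∑ u, ‖y u‖ ^ 2 := by
    apply sum_le_sum
    intro u _
    simp only [hy']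
    split_ifs
    · exact le_rfl
    · simp
  calc ((Nat.card G.edgeSet : ℝ) / 2) ^ 3 ≤ (∑ u, ∑ v, B' u v ^ 2) ^ 3 :=
        pow_le_pow_left₀ (by positivity) hs 3
    _ ≤ _ := hc
    _ ≤ _ := by
        apply mul_le_mul_of_nonneg_right _ (by positivity)
        exact mul_le_mul hx hy (by positivity) (by positivity)

end Run7.h203.SC
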