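import Pool.Agent.Run7.h203.SC.Match

set_option autoImplicit false

namespace Run7.h203.SC

open Finset Matrix

/-- The relation `R` contains between `X` and `Y` a copy of the bipartite graph on `P` with the
parts `side = true` (in `X`) and `side = false` (in `Y`) and the edges `H i j`. -/
def HasCopy {V P : Type} (side : P → Bool) (H : P → P → Prop) (R : V → V → Prop)
    (X Y : Finset V) : Prop :=
  ∃ f : P → V, Function.Injective f ∧ (∀ i, side i = true → f i ∈ X) ∧
    (∀ i, side i = false → f i ∈ Y) ∧
    ∀ i j, side i = true → side j = false → H i j → R (f i) (f j)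

lemma HasCopy.mono {V P : Type} {side : P → Bool} {H : P → P → Prop} {R R' : V → V → Prop}
    {X Y X' Y' : Finset V} (h : HasCopy side H R X Y) (hX : X ⊆ X') (hY : Y ⊆ Y')
    (hR : ∀ u ∈ X, ∀ v ∈ Y, R u v → R' u v) : HasCopy side H R' X' Y' := by
  obtain ⟨f, h1, h2, h3, h4⟩ := h
  exact ⟨f, h1, fun i hi => hX (h2 i hi), fun i hi => hY (h3 i hi),
    fun i j hi hj hij => hR _ (h2 i hi) _ (h3 j hj) (h4 i j hi hj hij)⟩

/-- a set with at most `r` elements is contained in the range of a function on `Fin r` -/
lemma fill {V : Type} (A S : Finset V) (hS : S ⊆ A) (r : ℕ) (hr : S.card ≤ r)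
    (hA : A.Nonempty) : ∃ g : Fin r → V, (∀ k, g k ∈ A) ∧ ∀ x ∈ S, ∃ k, g k = x := by
  classical
  obtain ⟨a, ha⟩ := hA
  obtain ⟨e⟩ : Nonempty (S ↪ Fin r) :=
    Function.Embedding.nonempty_of_card_le (by rw [Fintype.card_fin, Fintype.card_coe]; omega)
  refine ⟨fun k => if h : ∃ x : S, e x = k then (Classical.choose h).1 else a, ?_, ?_⟩
  · intro k
    by_cases h : ∃ x : S, e x = k
    · simp only [h, dif_pos]
      exact hS (Classical.choose h).2
    · simp only [h, dif_neg, not_false_iff]
      exact ha
  · intro x hx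
    refine ⟨e ⟨x, hx⟩, ?_⟩
    have h : ∃ y : S, e y = e ⟨x, hx⟩ := ⟨⟨x, hx⟩, rfl⟩
    simp only [h, dif_pos]
    have h1 := e.injective (Classical.choose_spec h)
    rw [h1]

open Classical in
/-- the greedy embedding -/
lemma embed {V P : Type} [Fintype P] (side : P → Bool) (H : P → P → Prop) (ord : P → ℕ)
    (hord : Function.Injective ord) (r m : ℕ) (hP : Fintype.card P ≤ m)
    (hr : ∀ i, ((univ : Finset P).filter (fun j => ord j < ord i ∧ side j ≠ side i ∧
      (H i j ∨ H j i))).card ≤ r)
    (R : V → V → Prop) (A B : Finset V) (hA0 : A.Nonempty) (hB0 : B.Nonempty)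
    (hA : ∀ g : Fin r → V, (∀ k, g k ∈ A) → m ≤ (B.filter (fun y => ∀ k, R (g k) y)).card)
    (hB : ∀ g : Fin r → V, (∀ k, g k ∈ B) → m ≤ (A.filter (fun x => ∀ k, R x (g k))).card) :
    HasCopy side H R A B := by
  obtain ⟨a0, ha0⟩ := hA0
  have key : ∀ N : ℕ, ∃ f : P → V, (∀ i j, ord i < N → ord j < N → f i = f j → i = j) ∧
      (∀ i, ord i < N → side i = true → f i ∈ A) ∧ (∀ i, ord i < N → side i = false → f i ∈ B) ∧
      ∀ i j, ord i < N → ord j < N → side i = true → side j = false → H i j → R (f i) (f j) := by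
    intro N
    induction N with
    | zero =>
      exact ⟨fun _ => a0, fun i j h => absurd h (Nat.not_lt_zero _),
        fun i h => absurd h (Nat.not_lt_zero _), fun i h => absurd h (Nat.not_lt_zero _),
        fun i j h => absurd h (Nat.not_lt_zero _)⟩
    | succ N ih =>
      obtain ⟨f, h1, h2, h3, h4⟩ := ih
      by_cases hi : ∃ i, ord i = N
      swap
      · have hlt : ∀ i, ord i < N + 1 → ord i < N := by
          intro i hi'
          rcases Nat.lt_succ_iff_lt_or_eq.1 hi' with h | h
          · exact h
          · exact absurd ⟨i, h⟩ hi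
        exact ⟨f, fun i j hi hj => h1 i j (hlt i hi) (hlt j hj), fun i hi => h2 i (hlt i hi),
          fun i hi => h3 i (hlt i hi), fun i j hi hj => h4 i j (hlt i hi) (hlt j hj)⟩
      obtain ⟨i0, hi0⟩ := hi
      set J := (univ : Finset P).filter (fun j => ord j < ord i0 ∧ side j ≠ side i0 ∧
        (H i0 j ∨ H j i0)) with hJ
      set U := ((univ : Finset P).filter (fun j => ord j < N)).image f with hU
      have hUc : U.card < m := by
        have e1 : U.card ≤ ((univ : Finset P).filter (fun j => ord j < N)).card := card_image_le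
        have e2 : ((univ : Finset P).filter (fun j => ord j < N)).card < Fintype.card P := by
          rw [← card_univ]
          apply card_lt_card
          rw [ssubset_iff_of_subset (filter_subset _ _)]
          refine ⟨i0, mem_univ _, ?_⟩
          intro h
          have := (mem_filter.1 h).2
          omega
        omega
      have hJlt : ∀ j ∈ J, ord j < N := by
        intro j hj
        have := (mem_filter.1 hj).2.1
        omega
      have hex : ∃ x : V, x ∉ U ∧ (side i0 = true → x ∈ A ∧ ∀ j ∈ J, R x (f j)) ∧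
          (side i0 = false → x ∈ B ∧ ∀ j ∈ J, R (f j) x) := by
        cases hs : side i0 with
        | true =>
          obtain ⟨g, hg1, hg2⟩ := fill B (J.image f) (by
            intro y hy
            rw [mem_image] at hy
            obtain ⟨j, hj, rfl⟩ := hy
            refine h3 j (hJlt j hj) ?_
            have := (mem_filter.1 hj).2.2.1
            rw [hs] at this
            simpa using this) r (card_image_le.trans (hr i0)) hB0
          have h5 := hB g hg1
          have h6 : ∃ x ∈ A.filter (fun x => ∀ k, R x (g k)), x ∉ U := by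
            by_contra hc
            push Not at hc
            have := card_le_card (show A.filter (fun x => ∀ k, R x (g k)) ⊆ U from hc)
            omega
          obtain ⟨x, hx1, hx2⟩ := h6
          rw [mem_filter] at hx1
          refine ⟨x, hx2, fun _ => ⟨hx1.1, ?_⟩, fun h => absurd h (by simp)⟩
          intro j hj
          obtain ⟨k, hk⟩ := hg2 (f j) (mem_image_of_mem _ hj)
          rw [← hk]
          exact hx1.2 k
        | false =>
          obtain ⟨g, hg1, hg2⟩ := fill A (J.image f) (by
            intro y hy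
            rw [mem_image] at hy
            obtain ⟨j, hj, rfl⟩ := hy
            refine h2 j (hJlt j hj) ?_
            have := (mem_filter.1 hj).2.2.1
            rw [hs] at this
            simpa using this) r (card_image_le.trans (hr i0)) ⟨a0, ha0⟩
          have h5 := hA g hg1
          have h6 : ∃ x ∈ B.filter (fun x => ∀ k, R (g k) x), x ∉ U := by
            by_contra hc
            push Not at hc
            have := card_le_card (show B.filter (fun x => ∀ k, R (g k) x) ⊆ U from hc)
            omega
          obtain ⟨x, hx1, hx2⟩ := h6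
          rw [mem_filter] at hx1
          refine ⟨x, hx2, fun h => absurd h (by simp), fun _ => ⟨hx1.1, ?_⟩⟩
          intro j hj
          obtain ⟨k, hk⟩ := hg2 (f j) (mem_image_of_mem _ hj)
          rw [← hk]
          exact hx1.2 k
      obtain ⟨x, hxU, hxt, hxf⟩ := hex
      have hcase : ∀ i, ord i < N + 1 → i = i0 ∨ (i ≠ i0 ∧ ord i < N) := by
        intro i hi'
        by_cases h : i = i0
        · exact Or.inl h
        · refine Or.inr ⟨h, ?_⟩
          have : ord i ≠ ord i0 := fun h' => h (hord h')
          omega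
      have hnew : ∀ j, ord j < N → f j ≠ x := by
        intro j hj h
        apply hxU
        rw [hU, mem_image]
        exact ⟨j, mem_filter.2 ⟨mem_univ _, hj⟩, h⟩
      refine ⟨Function.update f i0 x, ?_, ?_, ?_, ?_⟩
      · intro i j hi hj hij
        rcases hcase i hi with rfl | ⟨hi1, hi2⟩ <;> rcases hcase j hj with rfl | ⟨hj1, hj2⟩
        · rfl
        · rw [Function.update_self, Function.update_of_ne hj1] at hij
          exact absurd hij.symm (hnew j hj2)
        · rw [Function.update_self, Function.update_of_ne hi1] at hij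
          exact absurd hij (hnew i hi2)
        · rw [Function.update_of_ne hi1, Function.update_of_ne hj1] at hij
          exact h1 i j hi2 hj2 hij
      · intro i hi hs
        rcases hcase i hi with rfl | ⟨hi1, hi2⟩
        · rw [Function.update_self]
          exact (hxt hs).1
        · rw [Function.update_of_ne hi1]
          exact h2 i hi2 hs
      · intro i hi hs
        rcases hcase i hi with rfl | ⟨hi1, hi2⟩
        · rw [Function.update_self]
          exact (hxf hs).1
        · rw [Function.update_of_ne hi1]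
          exact h3 i hi2 hs
      · intro i j hi hj hsi hsj hij
        rcases hcase i hi with hi0' | ⟨hi1, hi2⟩ <;> rcases hcase j hj with hj0' | ⟨hj1, hj2⟩
        · rw [hi0'] at hsi
          rw [hj0'] at hsj
          rw [hsi] at hsj
          exact absurd hsj (by decide)
        · subst hi0'
          rw [Function.update_self, Function.update_of_ne hj1]
          refine (hxt hsi).2 j ?_
          rw [hJ, mem_filter]
          refine ⟨mem_univ _, by omega, ?_, Or.inl hij⟩
          rw [hsi, hsj]
          decide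
        · subst hj0'
          rw [Function.update_self, Function.update_of_ne hi1]
          refine (hxf hsj).2 i ?_
          rw [hJ, mem_filter]
          refine ⟨mem_univ _, by omega, ?_, Or.inr hij⟩
          rw [hsi, hsj]
          decide
        · rw [Function.update_of_ne hi1, Function.update_of_ne hj1]
          exact h4 i j hi2 hj2 hsi hsj hij
  obtain ⟨f, h1, h2, h3, h4⟩ := key ((univ : Finset P).sup ord + 1)
  have hall : ∀ i, ord i < (univ : Finset P).sup ord + 1 := fun i =>
    Nat.lt_succ_of_le (le_sup (f := ord) (mem_univ i))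
  exact ⟨f, fun i j hij => h1 i j (hall i) (hall j) hij, fun i => h2 i (hall i),
    fun i => h3 i (hall i), fun i j => h4 i j (hall i) (hall j)⟩

section families

variable {V : Type} [Fintype V]

open Classical in
/-- `M` disjoint families of at most `κ` columns each of which covers all rows in `A` -/
lemma families {κ : ℕ} (hκ : 1 ≤ κ) {R : V → V → Prop} (hR : NoMatching κ R) (A Y : Finset V)
    (M : ℕ) (hA : ∀ u ∈ A, κ * M ≤ (Y.filter (fun v => R u v)).card) :
    ∃ b : ℕ → V → V, (∀ i < M, ∀ u ∈ A, b i u ∈ Y ∧ R u (b i u)) ∧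
      (∀ i < M, (A.image (b i)).card ≤ κ) ∧
      ∀ i < M, ∀ j < M, i ≠ j → ∀ u ∈ A, ∀ u' ∈ A, b i u ≠ b j u' := by
  induction M with
  | zero =>
    exact ⟨fun _ u => u, fun i h => absurd h (Nat.not_lt_zero _),
      fun i h => absurd h (Nat.not_lt_zero _), fun i h => absurd h (Nat.not_lt_zero _)⟩
  | succ M ih =>
    obtain ⟨b, h1, h2, h3⟩ := ih (fun u hu => by
      have := hA u hu
      have e : κ * M ≤ κ * (M + 1) := Nat.mul_le_mul_left _ (Nat.le_succ _)
      omega)
    set U := (range M).biUnion (fun i => A.image (b i)) with hU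
    have hUc : U.card ≤ κ * M := by
      refine card_biUnion_le.trans ?_
      calc ∑ i ∈ range M, (A.image (b i)).card ≤ ∑ _i ∈ range M, κ :=
            sum_le_sum fun i hi => h2 i (mem_range.1 hi)
        _ = κ * M := by rw [sum_const, smul_eq_mul, card_range, mul_comm]
    obtain ⟨Z, hZY, hZc, hZ⟩ := cover_rows hR.swap (Y \ U)
    have hex : ∀ u ∈ A, ∃ z ∈ Z, R u z := by
      intro u hu
      have e1 : ∃ v ∈ Y.filter (fun v => R u v), v ∉ U := by
        by_contra hc
        push Not at hc
        have e2 := card_le_card (show Y.filter (fun v => R u v) ⊆ U from hc)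
        have e3 := hA u hu
        have e4 : κ * (M + 1) = κ * M + κ := by ring
        omega
      obtain ⟨v, hv1, hv2⟩ := e1
      rw [mem_filter] at hv1
      exact hZ v (mem_sdiff.2 ⟨hv1.1, hv2⟩) u hv1.2
    choose! g hg using hex
    refine ⟨Function.update b M g, ?_, ?_, ?_⟩
    · intro i hi u hu
      rcases Nat.lt_succ_iff_lt_or_eq.1 hi with h | rfl
      · rw [Function.update_of_ne (by omega)]
        exact h1 i h u hu
      · rw [Function.update_self]
        exact ⟨(mem_sdiff.1 (hZY (hg u hu).1)).1, (hg u hu).2⟩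
    · intro i hi
      rcases Nat.lt_succ_iff_lt_or_eq.1 hi with h | rfl
      · rw [Function.update_of_ne (by omega)]
        exact h2 i h
      · rw [Function.update_self]
        refine (card_le_card ?_).trans hZc
        intro z hz
        rw [mem_image] at hz
        obtain ⟨u, hu, rfl⟩ := hz
        exact (hg u hu).1
    · have hnew : ∀ j < M, ∀ u ∈ A, ∀ u' ∈ A, g u ≠ b j u' := by
        intro j hj u hu u' hu' h
        have h4 := (mem_sdiff.1 (hZY (hg u hu).1)).2
        apply h4
        rw [hU, mem_biUnion]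
        exact ⟨j, mem_range.2 hj, mem_image.2 ⟨u', hu', h.symm⟩⟩
      intro i hi j hj hij u hu u' hu'
      rcases Nat.lt_succ_iff_lt_or_eq.1 hi with h | rfl <;>
        rcases Nat.lt_succ_iff_lt_or_eq.1 hj with h' | rfl
      · rw [Function.update_of_ne (by omega), Function.update_of_ne (by omega)]
        exact h3 i h j h' hij u hu u' hu'
      · rw [Function.update_of_ne (by omega), Function.update_self]
        exact (hnew i h u' hu' u hu).symm
      · rw [Function.update_self, Function.update_of_ne (by omega)]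
        exact hnew j h' u hu u' hu'
      · exact absurd rfl hij

open Classical in
/-- a large set in which every `2 r` elements have the same column in at least `m` families -/
lemma select {κ r m M : ℕ} (hr : 1 ≤ r) (b : ℕ → V → V) (A : Finset V)
    (h2 : ∀ i < M, (A.image (b i)).card ≤ κ) (τ : ℕ) (hM : A.card ^ (2 * r) * m ^ τ < M ^ τ) :
    ∃ A1 ⊆ A, A.card ≤ κ ^ τ * A1.card ∧ ∀ S : Fin r ⊕ Fin r → V, (∀ x, S x ∈ A1) →
      m ≤ ((univ : Finset (Fin M)).filter (fun i : Fin M => ∀ x y, b i.1 (S x) = b i.1 (S y))).card := by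
  rcases A.eq_empty_or_nonempty with h | hne
  · subst h
    refine ⟨∅, Subset.refl _, by simp, ?_⟩
    intro S hS
    exact absurd (hS (Sum.inl ⟨0, hr⟩)) (notMem_empty _)
  set cls : (Fin r ⊕ Fin r → V) → Finset (Fin M) := fun S =>
    (univ : Finset (Fin M)).filter (fun i : Fin M => ∀ x y, b i.1 (S x) = b i.1 (S y)) with hcls
  set Bad := (Fintype.piFinset (fun _ : Fin r ⊕ Fin r => A)).filter (fun S => (cls S).card < m)
    with hBad
  have hBc : Bad.card ≤ A.card ^ (2 * r) := by
    refine (card_filter_le _ _).trans (le_of_eq ?_)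
    rw [Fintype.card_piFinset, prod_const, card_univ, Fintype.card_sum, Fintype.card_fin]
    congr 1
    ring
  have hex : ∃ c : Fin τ → Fin M, ∀ S ∈ Bad, ¬ ∀ k, c k ∈ cls S := by
    by_contra hcon
    push Not at hcon
    have e1 : (univ : Finset (Fin τ → Fin M)) ⊆
        Bad.biUnion (fun S => Fintype.piFinset (fun _ : Fin τ => cls S)) := by
      intro c _
      obtain ⟨S, hS, hc⟩ := hcon c
      rw [mem_biUnion]
      exact ⟨S, hS, Fintype.mem_piFinset.2 hc⟩
    have e2 := (card_le_card e1).trans card_biUnion_le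
    have e3 : ∑ S ∈ Bad, (Fintype.piFinset (fun _ : Fin τ => cls S)).card ≤
        ∑ _S ∈ Bad, m ^ τ := by
      apply sum_le_sum
      intro S hS
      rw [Fintype.card_piFinset, prod_const, card_univ, Fintype.card_fin]
      exact Nat.pow_le_pow_left (mem_filter.1 hS).2.le _
    have e4 : (univ : Finset (Fin τ → Fin M)).card = M ^ τ := by
      rw [card_univ, Fintype.card_fun, Fintype.card_fin, Fintype.card_fin]
    rw [e4] at e2
    rw [sum_const, smul_eq_mul] at e3
    have e5 := e2.trans (e3.trans (Nat.mul_le_mul_right _ hBc))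
    omega
  obtain ⟨c, hc⟩ := hex
  set Φ : V → (Fin τ → V) := fun u k => b (c k) u with hΦ
  have hΦc : (A.image Φ).card ≤ κ ^ τ := by
    have e1 : A.image Φ ⊆ Fintype.piFinset (fun k : Fin τ => A.image (b (c k))) := by
      intro φ hφ
      rw [mem_image] at hφ
      obtain ⟨u, hu, rfl⟩ := hφ
      rw [Fintype.mem_piFinset]
      intro k
      exact mem_image_of_mem _ hu
    refine (card_le_card e1).trans ?_
    rw [Fintype.card_piFinset]
    calc ∏ k : Fin τ, (A.image (b (c k))).card ≤ ∏ _k : Fin τ, κ :=
          prod_le_prod' fun k _ => h2 (c k) (c k).2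
      _ = κ ^ τ := by rw [prod_const, card_univ, Fintype.card_fin]
  obtain ⟨φ0, hφ0, hmax⟩ := exists_max_image (A.image Φ)
    (fun φ => (A.filter (fun u => Φ u = φ)).card) (hne.image Φ)
  refine ⟨A.filter (fun u => Φ u = φ0), filter_subset _ _, ?_, ?_⟩
  · calc A.card = ∑ φ ∈ A.image Φ, (A.filter (fun u => Φ u = φ)).card :=
          card_eq_sum_card_image Φ A
      _ ≤ ∑ _φ ∈ A.image Φ, (A.filter (fun u => Φ u = φ0)).card := sum_le_sum hmax
      _ = (A.image Φ).card * (A.filter (fun u => Φ u = φ0)).card := by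
          rw [sum_const, smul_eq_mul]
      _ ≤ _ := Nat.mul_le_mul_right _ hΦc
  · intro S hS
    by_contra hcon
    push Not at hcon
    refine hc S ?_ ?_
    · rw [hBad, mem_filter, Fintype.mem_piFinset]
      exact ⟨fun x => (mem_filter.1 (hS x)).1, hcon⟩
    · intro k
      rw [hcls, mem_filter]
      refine ⟨mem_univ _, fun x y => ?_⟩
      have e1 := congrFun (mem_filter.1 (hS x)).2 k
      have e2 := congrFun (mem_filter.1 (hS y)).2 k
      exact e1.trans e2.symm

open Classical in
/-- many rows of large degree contain a copy -/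
lemma find_copy {P : Type} [Fintype P] (side : P → Bool) (H : P → P → Prop) (ord : P → ℕ)
    (hord : Function.Injective ord) {κ r m M τ : ℕ} (hκ : 1 ≤ κ) (hr : 1 ≤ r) (hm : 1 ≤ m)
    (hP : Fintype.card P ≤ m)
    (hdeg : ∀ i, ((univ : Finset P).filter (fun j => ord j < ord i ∧ side j ≠ side i ∧
      (H i j ∨ H j i))).card ≤ r)
    {R : V → V → Prop} (hR : NoMatching κ R) (A X Y : Finset V) (hAX : A ⊆ X)
    (hA : ∀ u ∈ A, κ * M ≤ (Y.filter (fun v => R u v)).card)
    (n1 : A.card ^ (2 * r) * m ^ τ < M ^ τ) (n2 : κ ^ τ * (κ * M * m) < A.card) :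
    HasCopy side H R X Y := by
  obtain ⟨b, h1, h2, h3⟩ := families hκ hR A Y M hA
  obtain ⟨A1, hA1, hA1c, hsel⟩ := select (m := m) (r := r) hr b A h2 τ n1
  have hbig : κ * M * m < A1.card := by
    have e1 : κ ^ τ * (κ * M * m) < κ ^ τ * A1.card := lt_of_lt_of_le n2 hA1c
    exact lt_of_mul_lt_mul_left e1 (Nat.zero_le _)
  set U := (range M).biUnion (fun i => A.image (b i)) with hU
  have hUc : U.card ≤ κ * M := by
    refine card_biUnion_le.trans ?_
    calc ∑ i ∈ range M, (A.image (b i)).card ≤ ∑ _i ∈ range M, κ :=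
          sum_le_sum fun i hi => h2 i (mem_range.1 hi)
      _ = κ * M := by rw [sum_const, smul_eq_mul, card_range, mul_comm]
  have hUY : U ⊆ Y := by
    intro y hy
    rw [hU, mem_biUnion] at hy
    obtain ⟨i, hi, hy⟩ := hy
    rw [mem_image] at hy
    obtain ⟨u, hu, rfl⟩ := hy
    exact (h1 i (mem_range.1 hi) u hu).1
  set Nb : (Fin r → V) → Finset V := fun S => A1.filter (fun x => ∀ k, R x (S k)) with hNb
  have hex : ∃ T : Fin r → V, (∀ k, T k ∈ A1) ∧
      ∀ S : Fin r → V, (∀ k, S k ∈ U) → (∀ k, T k ∈ Nb S) → m ≤ (Nb S).card := by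
    by_contra hcon
    push Not at hcon
    set Bad := (Fintype.piFinset (fun _ : Fin r => U)).filter (fun S => (Nb S).card < m) with hBad
    have hBc : Bad.card ≤ (κ * M) ^ r := by
      refine (card_filter_le _ _).trans ?_
      rw [Fintype.card_piFinset, prod_const, card_univ, Fintype.card_fin]
      exact Nat.pow_le_pow_left hUc _
    have e1 : Fintype.piFinset (fun _ : Fin r => A1) ⊆
        Bad.biUnion (fun S => Fintype.piFinset (fun _ : Fin r => Nb S)) := by
      intro T hT
      rw [Fintype.mem_piFinset] at hT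
      obtain ⟨S, hS1, hS2, hS3⟩ := hcon T hT
      rw [mem_biUnion]
      refine ⟨S, ?_, Fintype.mem_piFinset.2 hS2⟩
      rw [hBad, mem_filter, Fintype.mem_piFinset]
      exact ⟨hS1, hS3⟩
    have e2 := (card_le_card e1).trans card_biUnion_le
    have e3 : ∑ S ∈ Bad, (Fintype.piFinset (fun _ : Fin r => Nb S)).card ≤
        ∑ _S ∈ Bad, m ^ r := by
      apply sum_le_sum
      intro S hS
      rw [Fintype.card_piFinset, prod_const, card_univ, Fintype.card_fin]
      exact Nat.pow_le_pow_left (mem_filter.1 hS).2.le _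
    have e4 : (Fintype.piFinset (fun _ : Fin r => A1)).card = A1.card ^ r := by
      rw [Fintype.card_piFinset, prod_const, card_univ, Fintype.card_fin]
    rw [e4] at e2
    rw [sum_const, smul_eq_mul] at e3
    have e5 : A1.card ^ r ≤ (κ * M * m) ^ r := by
      refine (e2.trans (e3.trans (Nat.mul_le_mul_right _ hBc))).trans (le_of_eq ?_)
      rw [mul_pow (κ * M) m]
    have e6 : (κ * M * m) ^ r < A1.card ^ r := Nat.pow_lt_pow_left hbig (by omega)
    omega
  obtain ⟨T, hT, hTS⟩ := hex
  set B0 := U.filter (fun y => ∀ k, R (T k) y) with hB0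
  have hA' : ∀ g : Fin r → V, (∀ k, g k ∈ A1) →
      m ≤ (B0.filter (fun y => ∀ k, R (g k) y)).card := by
    intro g hg
    have e1 := hsel (Sum.elim g T) (by
      intro x
      rcases x with k | k
      · exact hg k
      · exact hT k)
    refine e1.trans ?_
    apply card_le_card_of_injOn (fun i : Fin M => b i (g ⟨0, hr⟩))
    · intro i hi
      rw [mem_coe, mem_filter] at hi
      have e2 : ∀ k, b i (g ⟨0, hr⟩) = b i (g k) := fun k => hi.2 (Sum.inl ⟨0, hr⟩) (Sum.inl k)
      have e3 : ∀ k, b i (g ⟨0, hr⟩) = b i (T k) := fun k => hi.2 (Sum.inl ⟨0, hr⟩) (Sum.inr k)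
      rw [mem_coe, mem_filter, hB0, mem_filter, hU, mem_biUnion]
      refine ⟨⟨⟨i, mem_range.2 i.2, mem_image_of_mem _ (hA1 (hg _))⟩, ?_⟩, ?_⟩
      · intro k
        show R (T k) (b i (g ⟨0, hr⟩))
        rw [e3 k]
        exact (h1 i i.2 (T k) (hA1 (hT k))).2
      · intro k
        show R (g k) (b i (g ⟨0, hr⟩))
        rw [e2 k]
        exact (h1 i i.2 (g k) (hA1 (hg k))).2
    · intro i _ j _ hij
      by_contra hne
      exact h3 i i.2 j j.2 (fun h => hne (Fin.ext h)) _ (hA1 (hg _)) _ (hA1 (hg _)) hij
  have hB' : ∀ g : Fin r → V, (∀ k, g k ∈ B0) →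
      m ≤ (A1.filter (fun x => ∀ k, R x (g k))).card := by
    intro g hg
    apply hTS g (fun k => (mem_filter.1 (hg k)).1)
    intro k
    rw [hNb, mem_filter]
    exact ⟨hT k, fun l => (mem_filter.1 (hg l)).2 k⟩
  have hA1ne : A1.Nonempty := card_pos.1 (by omega)
  have hB0ne : B0.Nonempty := by
    have e1 := hA' T hT
    have e2 : (B0.filter (fun y => ∀ k, R (T k) y)).Nonempty := card_pos.1 (by omega)
    exact e2.mono (filter_subset _ _)
  have := embed side H ord hord r m hP hdeg R A1 B0 hA1ne hB0ne hA' hB'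
  exact this.mono (hA1.trans hAX) ((filter_subset _ _).trans hUY) (fun u _ v _ h => h)

open Classical in
/-- **A relation without induced matchings with more than `κ` edges and without a copy of a
bipartite graph of degeneracy `r`.** -/
theorem degen_bound {P : Type} [Fintype P] (side : P → Bool) (H : P → P → Prop) (ord : P → ℕ)
    (hord : Function.Injective ord) {κ r m : ℕ} (hr : 1 ≤ r) (hm : 1 ≤ m)
    (hP : Fintype.card P ≤ m)
    (hdeg : ∀ i, ((univ : Finset P).filter (fun j => ord j < ord i ∧ side j ≠ side i ∧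
      (H i j ∨ H j i))).card ≤ r)
    {R : V → V → Prop} (hR : NoMatching κ R) (X Y : Finset V) (hfree : ¬ HasCopy side H R X Y) :
    ((X ×ˢ Y).filter (fun p => R p.1 p.2)).card ≤
      8 * m ^ 4 * κ ^ (8 * r + 2) * (X.card + Y.card) := by
  rcases Nat.eq_zero_or_pos κ with h0 | hκ
  · subst h0
    have : (X ×ˢ Y).filter (fun p => R p.1 p.2) = ∅ := by
      rw [filter_eq_empty_iff]
      intro p _ hp
      refine hR (fun _ => p.1) (fun _ => p.2) ?_
      intro i j
      exact ⟨fun _ => Fin.ext (by have := i.2; have := j.2; omega), fun _ => hp⟩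
    rw [this, card_empty]
    exact Nat.zero_le _
  set M := 4 * m ^ 3 * κ ^ (4 * r + 1) with hM
  set N0 := 8 * m ^ 4 * κ ^ (8 * r + 2) with hN0
  have hκp : ∀ k, 1 ≤ κ ^ k := fun k => Nat.one_le_pow _ _ hκ
  set Big := X.filter (fun u => κ * M ≤ (Y.filter (fun v => R u v)).card) with hBig
  have hBigc : Big.card ≤ N0 := by
    by_contra hc
    push Not at hc
    obtain ⟨A, hA, hAc⟩ := exists_subset_card_eq hc.le
    apply hfree
    refine find_copy side H ord hord (κ := κ) (r := r) (m := m) (M := M) (τ := 4 * r) hκ hr hm hP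
      hdeg hR A X Y (hA.trans (filter_subset _ _)) (fun u hu => (mem_filter.1 (hA hu)).2) ?_ ?_
    · rw [hAc]
      have e1 : N0 * m ^ 2 < M ^ 2 := by
        have e2 : κ ^ (8 * r + 2) = (κ ^ (4 * r + 1)) ^ 2 := by
          rw [← pow_mul]
          congr 1
          ring
        have e3 : N0 * m ^ 2 = 8 * (m ^ 6 * (κ ^ (4 * r + 1)) ^ 2) := by
          rw [hN0, e2]
          ring
        have e4 : M ^ 2 = 16 * (m ^ 6 * (κ ^ (4 * r + 1)) ^ 2) := by
          rw [hM]
          ring
        have e5 : 0 < m ^ 6 * (κ ^ (4 * r + 1)) ^ 2 := by positivity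
        omega
      calc N0 ^ (2 * r) * m ^ (4 * r) = (N0 * m ^ 2) ^ (2 * r) := by
            rw [mul_pow, ← pow_mul]
            ring
        _ < (M ^ 2) ^ (2 * r) := Nat.pow_lt_pow_left e1 (by omega)
        _ = M ^ (4 * r) := by
            rw [← pow_mul]
            congr 1
            ring
    · rw [hAc, hN0]
      have e1 : κ ^ (4 * r) * (κ * M * m) = 4 * (m ^ 4 * κ ^ (8 * r + 2)) := by
        rw [hM]
        have : κ ^ (8 * r + 2) = κ ^ (4 * r) * κ * κ ^ (4 * r + 1) := by
          rw [← pow_succ, ← pow_add]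
          congr 1
          ring
        rw [this]
        ring
      have e2 : 0 < m ^ 4 * κ ^ (8 * r + 2) := by positivity
      rw [e1]
      have e3 : 8 * m ^ 4 * κ ^ (8 * r + 2) = 8 * (m ^ 4 * κ ^ (8 * r + 2)) := by ring
      omega
  have hMN : κ * M ≤ N0 := by
    have e1 : κ * M = 4 * (m ^ 3 * κ ^ (4 * r + 2)) := by
      rw [hM]
      have : κ ^ (4 * r + 2) = κ * κ ^ (4 * r + 1) := by
        rw [← pow_succ']
      rw [this]
      ring
    have e2 : m ^ 3 * κ ^ (4 * r + 2) ≤ m ^ 4 * κ ^ (8 * r + 2) :=
      Nat.mul_le_mul (Nat.pow_le_pow_right hm (by norm_num)) (Nat.pow_le_pow_right hκ (by omega))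
    have e3 : N0 = 8 * (m ^ 4 * κ ^ (8 * r + 2)) := by rw [hN0]; ring
    omega
  have hsum : ((X ×ˢ Y).filter (fun p => R p.1 p.2)).card =
      ∑ u ∈ X, (Y.filter (fun v => R u v)).card := by
    rw [card_filter, sum_product]
    simp only [← card_filter]
  rw [hsum, ← sum_filter_add_sum_filter_not X
    (fun u => κ * M ≤ (Y.filter (fun v => R u v)).card)]
  have p1 : ∑ u ∈ Big, (Y.filter (fun v => R u v)).card ≤ N0 * Y.card := by
    calc _ ≤ ∑ _u ∈ Big, Y.card := sum_le_sum fun u _ => card_filter_le _ _
      _ = Big.card * Y.card := by rw [sum_const, smul_eq_mul]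
      _ ≤ _ := Nat.mul_le_mul_right _ hBigc
  have p2 : ∑ u ∈ X.filter (fun u => ¬ κ * M ≤ (Y.filter (fun v => R u v)).card),
      (Y.filter (fun v => R u v)).card ≤ N0 * X.card := by
    calc _ ≤ ∑ _u ∈ X.filter (fun u => ¬ κ * M ≤ (Y.filter (fun v => R u v)).card), N0 := by
          apply sum_le_sum
          intro u hu
          have := (mem_filter.1 hu).2
          omega
      _ = (X.filter (fun u => ¬ κ * M ≤ (Y.filter (fun v => R u v)).card)).card * N0 := by
          rw [sum_const, smul_eq_mul]
      _ ≤ X.card * N0 := Nat.mul_le_mul_right _ (card_filter_le _ _)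
      _ = _ := mul_comm _ _
  calc _ ≤ N0 * Y.card + N0 * X.card := Nat.add_le_add p1 p2
    _ = _ := by ring

end families

end Run7.h203.SC
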