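import Mathlib
import Pool.Agent.H268R2.LB.NW

set_option autoImplicit false

namespace Run7.h203.SC

open Finset Pool.Agent.H268R2.LB

section path

variable {V : Type} [Fintype V]

open Classical in
/-- long paths in a graph of large degree, which avoid a given set -/
lemma greedy_path (H : SimpleGraph V) (F : Finset V) (n : ℕ)
    (hdeg : ∀ a b, H.Adj a b → n + F.card < (univ.filter (fun z => H.Adj a z)).card) (x : V)
    (hx : ∃ y, H.Adj x y) : ∀ m ≤ n, ∃ p : ℕ → V, p 0 = x ∧
      (∀ t < m, H.Adj (p t) (p (t + 1))) ∧ (∀ s t, s ≤ m → t ≤ m → p s = p t → s = t) ∧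
      (∀ t, 1 ≤ t → t ≤ m → p t ∉ F) ∧ ∃ y, H.Adj (p m) y := by
  intro m
  induction m with
  | zero =>
    intro _
    exact ⟨fun _ => x, rfl, fun t ht => absurd ht (Nat.not_lt_zero t), fun s t hs ht _ => by omega,
      fun t h1 h2 => by omega, hx⟩
  | succ m ih =>
    intro hm
    obtain ⟨p, hp0, hpa, hpi, hpF, y, hy⟩ := ih (by omega)
    have h1 := hdeg _ _ hy
    have h2 : ((range (m + 1)).image p ∪ F).card < (univ.filter (fun z => H.Adj (p m) z)).card := by
      have h3 := card_union_le ((range (m + 1)).image p) F
      have h4 : ((range (m + 1)).image p).card ≤ m + 1 := card_image_le.trans (by rw [card_range])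
      omega
    obtain ⟨z, hz, hz'⟩ := exists_mem_notMem_of_card_lt_card h2
    rw [mem_filter] at hz
    rw [mem_union, not_or] at hz'
    have hzne : ∀ t ≤ m, p t ≠ z := by
      intro t ht h
      exact hz'.1 (mem_image.2 ⟨t, mem_range.2 (by omega), h⟩)
    refine ⟨fun t => if t ≤ m then p t else z, ?_, ?_, ?_, ?_, ?_⟩
    · simp [hp0]
    · intro t ht
      by_cases h : t < m
      · simp only [show t ≤ m by omega, show t + 1 ≤ m by omega, if_true]
        exact hpa t h
      · have ht' : t = m := by omega
        subst ht'
        simp only [le_refl, if_true, show ¬ t + 1 ≤ t by omega, if_false]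
        exact hz.2
    · intro s t hs ht hst
      by_cases h1 : s ≤ m <;> by_cases h2 : t ≤ m
      · simp only [h1, h2, if_true] at hst
        exact hpi s t h1 h2 hst
      · simp only [h1, h2, if_true, if_false] at hst
        exact absurd hst (hzne s h1)
      · simp only [h1, h2, if_true, if_false] at hst
        exact absurd hst.symm (hzne t h2)
      · omega
    · intro t h1 h2
      by_cases h : t ≤ m
      · simp only [h, if_true]
        exact hpF t h1 h
      · simp only [h, if_false]
        exact hz'.2
    · refine ⟨p m, ?_⟩
      simp only [show ¬ m + 1 ≤ m by omega, if_false]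
      exact hz.2.symm

end path

/-- A tree of depth `i` with root `v` and with the leaves `L`, all at depth `i`; `φ l j` is the vertex
at depth `j` on the path from the root to the leaf `l`. -/
structure Fan {V : Type} (G : SimpleGraph V) (i : ℕ) (v : V) (φ : V → ℕ → V) (L : Finset V) : Prop where
  root : ∀ l ∈ L, φ l 0 = v
  leaf : ∀ l ∈ L, φ l i = l
  adj : ∀ l ∈ L, ∀ j < i, G.Adj (φ l j) (φ l (j + 1))
  tree : ∀ l ∈ L, ∀ l' ∈ L, ∀ j ≤ i, ∀ j' ≤ i, φ l j = φ l' j' → j = j' ∧ ∀ t ≤ j, φ l t = φ l' t

/-- a path between leaves in different branches closes up -/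
lemma fan_cycle {V : Type} {G : SimpleGraph V} {k i j : ℕ} (hi : 1 ≤ i) (hj : 1 ≤ j) (hk : k = i + j)
    {v : V} {φ : V → ℕ → V} {L : Finset V} (hF : Fan G i v φ L) {M : Finset V}
    (hM : ∀ l ∈ L, ∀ t ≤ i, φ l t ∉ M) {l w : V} (hl : l ∈ L) (hw : w ∈ L)
    (hne : φ l 1 ≠ φ w 1) (q : ℕ → V) (hq0 : q 0 = l) (hqn : q (2 * j) = w)
    (hqadj : ∀ t < 2 * j, G.Adj (q t) (q (t + 1)))
    (hqinj : ∀ s t, s ≤ 2 * j → t ≤ 2 * j → q s = q t → s = t)
    (hqLM : ∀ t ≤ 2 * j, q t ∈ L ∨ q t ∈ M) :
    ∃ (v : V) (p : G.Walk v v), p.IsCycle ∧ p.length = 2 * k := by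
  set x : ℕ → V := fun t => if t ≤ i then φ l t else if t ≤ i + 2 * j then q (t - i) else
    φ w (2 * k - t) with hx
  have x1 : ∀ t, t ≤ i → x t = φ l t := fun t ht => by simp only [hx, ht, if_true]
  have x2 : ∀ t, i < t → t ≤ i + 2 * j → x t = q (t - i) := fun t ht ht' => by
    simp only [hx, show ¬ t ≤ i by omega, ht', if_true, if_false]
  have x3 : ∀ t, i + 2 * j < t → x t = φ w (2 * k - t) := fun t ht => by
    simp only [hx, show ¬ t ≤ i by omega, show ¬ t ≤ i + 2 * j by omega, if_false]
  refine cycle_of_fun (G := G) x (2 * k) (by omega) ?_ ?_ ?_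
  · intro t ht
    rcases Nat.lt_or_ge t i with h1 | h1
    · rw [x1 t h1.le, x1 (t + 1) h1]
      exact hF.adj l hl t h1
    · rcases Nat.lt_or_ge t (i + 2 * j) with h2 | h2
      · rw [x2 (t + 1) (by omega) (by omega), show t + 1 - i = (t - i) + 1 by omega]
        have h3 : x t = q (t - i) := by
          rcases Nat.eq_or_lt_of_le h1 with h | h
          · rw [x1 t (by omega), ← h, hF.leaf l hl, Nat.sub_self, hq0]
          · exact x2 t h h2.le
        rw [h3]
        exact hqadj _ (by omega)
      · rw [x3 (t + 1) (by omega)]
        have h3 : x t = φ w (2 * k - t) := by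
          rcases Nat.eq_or_lt_of_le h2 with h | h
          · rw [x2 t (by omega) (by omega), show t - i = 2 * j by omega, hqn,
              show 2 * k - t = i by omega, hF.leaf w hw]
          · exact x3 t h
        rw [h3, show 2 * k - t = (2 * k - (t + 1)) + 1 by omega]
        exact (hF.adj w hw _ (by omega)).symm
  · rw [x1 0 (Nat.zero_le _), x3 (2 * k) (by omega), Nat.sub_self, hF.root l hl, hF.root w hw]
  · have key : ∀ s t, s < t → t < 2 * k → x s ≠ x t := by
      intro s t hst ht heq
      rcases Nat.lt_or_ge i t with h1 | h1
      · rcases Nat.lt_or_ge (i + 2 * j) t with h2 | h2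
        · rw [x3 t h2] at heq
          rcases Nat.lt_or_ge i s with h3 | h3
          · rcases Nat.lt_or_ge (i + 2 * j) s with h4 | h4
            · rw [x3 s h4] at heq
              have := (hF.tree w hw w hw _ (by omega) _ (by omega) heq).1
              omega
            · rw [x2 s h3 h4] at heq
              rcases hqLM (s - i) (by omega) with h5 | h5
              · have h6 := hF.leaf _ h5
                have := (hF.tree _ h5 w hw i le_rfl _ (by omega) (h6.trans heq)).1
                omega
              · rw [heq] at h5
                exact hM w hw _ (by omega) h5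
          · rw [x1 s h3] at heq
            obtain ⟨h4, h5⟩ := hF.tree l hl w hw s h3 _ (by omega) heq
            exact hne (h5 1 (by omega))
        · rw [x2 t h1 h2] at heq
          rcases Nat.lt_or_ge i s with h3 | h3
          · rw [x2 s h3 (by omega)] at heq
            have := hqinj _ _ (by omega) (by omega) heq
            omega
          · rw [x1 s h3] at heq
            rcases hqLM (t - i) (by omega) with h5 | h5
            · have h6 := hF.leaf _ h5
              have h7 := (hF.tree l hl _ h5 s h3 i le_rfl (heq.trans h6.symm)).1
              rw [h7, hF.leaf l hl, ← hq0] at heq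
              have := hqinj _ _ (by omega) (by omega) heq
              omega
            · rw [← heq] at h5
              exact hM l hl _ h3 h5
      · rw [x1 s (by omega), x1 t h1] at heq
        have := (hF.tree l hl l hl _ (by omega) _ h1 heq).1
        omega
    intro s t hs ht hst
    rcases lt_trichotomy s t with h | h | h
    · exact absurd hst (key s t h ht)
    · exact h
    · exact absurd hst.symm (key t s h hs)

open Classical in
/-- no dense graph between the leaves and other vertices -/
theorem fan_sparse {V : Type} [Fintype V] {k : ℕ} {G : SimpleGraph V}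
    (hG : ∀ (v : V) (p : G.Walk v v), p.IsCycle → p.length ≠ 2 * k) : ∀ i, 1 ≤ i → i + 1 ≤ k →
    ∀ (v : V) (φ : V → ℕ → V) (L : Finset V), Fan G i v φ L → ∀ M : Finset V,
    (∀ l ∈ L, ∀ t ≤ i, φ l t ∉ M) → ∀ H : SimpleGraph V, H ≤ G →
    (∀ a b, H.Adj a b → (a ∈ L ∧ b ∈ M) ∨ (a ∈ M ∧ b ∈ L)) →
    (∀ a b, H.Adj a b → 2 * k + 1 < (univ.filter (fun z => H.Adj a z)).card) →
    ∀ a b, ¬ H.Adj a b := by
  intro i
  induction i with
  | zero => intro h; omega
  | succ i ih =>
    intro _ hik v φ L hF M hM H hHG hLM hdeg
    have hdisj : ∀ l ∈ L, l ∉ M := by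
      intro l hl h
      apply hM l hl (i + 1) le_rfl
      rw [hF.leaf l hl]
      exact h
    -- all neighbours of a vertex of `M` lie in the same branch
    have hsame : ∀ m ∈ M, ∀ l, H.Adj m l → ∀ l', H.Adj m l' → φ l 1 = φ l' 1 := by
      intro m hm l hl l' hl'
      obtain ⟨j, hj⟩ : ∃ j, k = (i + 1) + (j + 1) := ⟨k - i - 2, by omega⟩
      obtain ⟨p, hp0, hpa, hpi, hpF, y, hy⟩ := greedy_path H {l, l'} (2 * j + 1) (by
        intro a b hab
        have h1 := hdeg a b hab
        have h2 : ({l, l'} : Finset V).card ≤ 2 := card_le_two
        omega) m ⟨l, hl⟩ (2 * j + 1) le_rfl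
      have hpar : ∀ t ≤ 2 * j + 1, (Even t → p t ∈ M) ∧ (¬ Even t → p t ∈ L) := by
        intro t
        induction t with
        | zero => intro _; exact ⟨fun _ => hp0 ▸ hm, fun h => absurd (by simp) h⟩
        | succ t iht =>
          intro ht
          obtain ⟨h1, h2⟩ := iht (by omega)
          have h3 := hLM _ _ (hpa t (by omega))
          rw [Nat.even_add_one]
          constructor
          · intro h
            rcases h3 with h4 | h4
            · exact h4.2
            · exact absurd h4.1 (hdisj _ (h2 h))
          · intro h
            rw [not_not] at h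
            rcases h3 with h4 | h4
            · exact absurd (h1 h) (hdisj _ h4.1)
            · exact h4.2
      have hwL : p (2 * j + 1) ∈ L := (hpar _ le_rfl).2 (by simp)
      have hone : ∀ l0, H.Adj m l0 → l0 ∈ ({l, l'} : Finset V) → φ l0 1 = φ (p (2 * j + 1)) 1 := by
        intro l0 hl0 hl0F
        have hl0L : l0 ∈ L := by
          rcases hLM _ _ hl0 with h | h
          · exact absurd hm (hdisj _ h.1)
          · exact h.2
        by_contra hne
        obtain ⟨u, r, hr, hrl⟩ := fan_cycle (G := G) (k := k) (i := i + 1) (j := j + 1) (by omega) (by omega) hj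
          hF hM hl0L hwL hne (fun t => if t = 0 then l0 else p (t - 1)) (by simp)
          (by
            simp only [show ¬ 2 * (j + 1) = 0 by omega, if_false]
            rfl)
          (by
            intro t ht
            by_cases h0 : t = 0
            · subst h0
              simp only [if_true, zero_add, one_ne_zero, if_false, Nat.sub_self, hp0]
              exact hHG hl0.symm
            · simp only [h0, if_false, show ¬ t + 1 = 0 by omega, Nat.add_sub_cancel]
              have := hHG (hpa (t - 1) (by omega))
              rwa [Nat.sub_add_cancel (by omega)] at this)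
          (by
            intro s t hs ht hst
            by_cases h0 : s = 0 <;> by_cases h1 : t = 0
            · omega
            · exfalso
              simp only [h0, h1, if_true, if_false] at hst
              by_cases h2 : t = 1
              · rw [h2, Nat.sub_self, hp0] at hst
                exact hl0.ne hst.symm
              · exact hpF (t - 1) (by omega) (by omega) (hst ▸ hl0F)
            · exfalso
              simp only [h0, h1, if_true, if_false] at hst
              by_cases h2 : s = 1
              · rw [h2, Nat.sub_self, hp0] at hst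
                exact hl0.ne hst
              · exact hpF (s - 1) (by omega) (by omega) (hst ▸ hl0F)
            · simp only [h0, h1, if_false] at hst
              have := hpi _ _ (by omega) (by omega) hst
              omega)
          (by
            intro t ht
            by_cases h0 : t = 0
            · subst h0
              exact Or.inl hl0L
            · simp only [h0, if_false]
              by_cases h1 : Even (t - 1)
              · exact Or.inr ((hpar _ (by omega)).1 h1)
              · exact Or.inl ((hpar _ (by omega)).2 h1))
        exact hG u r hr hrl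
      rw [hone l hl (by simp), hone l' hl' (by simp)]
    intro a b hab
    -- the case `a ∈ L`
    have main : ∀ a b, H.Adj a b → a ∈ L → b ∈ M → False := by
      intro a b hab ha hb
      by_cases hi0 : i = 0
      · subst hi0
        have h1 := hdeg b a hab.symm
        obtain ⟨z, hz, hz'⟩ : ∃ z ∈ univ.filter (fun z => H.Adj b z), z ∉ ({a} : Finset V) :=
          exists_mem_notMem_of_card_lt_card (by rw [card_singleton]; omega)
        rw [mem_filter] at hz
        rw [mem_singleton] at hz'
        have hzL : z ∈ L := by
          rcases hLM _ _ hz.2 with h | h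
          · exact absurd hb (hdisj _ h.1)
          · exact h.2
        have h2 := hsame b hb z hz.2 a hab.symm
        have h3 := hF.leaf z hzL
        have h4 := hF.leaf a ha
        rw [zero_add] at h3 h4
        rw [h3, h4] at h2
        exact hz' h2
      · set L' := L.filter (fun l => φ l 1 = φ a 1) with hL'
        have hL'L : ∀ l ∈ L', l ∈ L ∧ φ l 1 = φ a 1 := fun l hl => mem_filter.1 hl
        set H' : SimpleGraph V :=
          { Adj := fun x y => H.Adj x y ∧ (x ∈ L' ∨ y ∈ L')
            symm := ⟨fun x y h => ⟨h.1.symm, h.2.symm⟩⟩
            loopless := ⟨fun x h => H.loopless.irrefl x h.1⟩ } with hH'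
        have hkey : ∀ x y, H'.Adj x y → ∀ z, H.Adj x z → H'.Adj x z := by
          intro x y hxy z hxz
          refine ⟨hxz, ?_⟩
          rcases hxy.2 with h | h
          · exact Or.inl h
          · right
            have hyL := hL'L y h
            have hx : x ∈ M := by
              rcases hLM _ _ hxy.1 with h1 | h1
              · exact absurd h1.2 (hdisj _ hyL.1)
              · exact h1.1
            have hz : z ∈ L := by
              rcases hLM _ _ hxz with h1 | h1
              · exact absurd hx (hdisj _ h1.1)
              · exact h1.2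
            rw [hL', mem_filter]
            exact ⟨hz, (hsame x hx z hxz y hxy.1).trans hyL.2⟩
        refine ih (by omega) (by omega) (φ a 1) (fun l j => φ l (j + 1)) L' ?_ M ?_ H' ?_ ?_ ?_ a b ?_
        · refine ⟨fun l hl => (hL'L l hl).2, fun l hl => hF.leaf l (hL'L l hl).1,
            fun l hl j hj => hF.adj l (hL'L l hl).1 (j + 1) (by omega), ?_⟩
          intro l hl l' hl' j hj j' hj' h
          obtain ⟨h1, h2⟩ := hF.tree l (hL'L l hl).1 l' (hL'L l' hl').1 (j + 1) (by omega)
            (j' + 1) (by omega) h
          exact ⟨by omega, fun t ht => h2 (t + 1) (by omega)⟩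
        · intro l hl t ht
          exact hM l (hL'L l hl).1 (t + 1) (by omega)
        · intro x y h
          exact hHG h.1
        · intro x y hxy
          rcases hLM _ _ hxy.1 with h | h
          · left
            refine ⟨?_, h.2⟩
            rcases hxy.2 with h1 | h1
            · exact h1
            · exact absurd h.2 (hdisj _ (hL'L y h1).1)
          · right
            refine ⟨h.1, ?_⟩
            rcases hxy.2 with h1 | h1
            · exact absurd h.1 (hdisj _ (hL'L x h1).1)
            · exact h1
        · intro x y hxy
          refine lt_of_lt_of_le (hdeg x y hxy.1) ?_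
          apply card_le_card
          intro z hz
          simp only [mem_filter, mem_univ, true_and] at hz ⊢
          exact hkey x y hxy z hz
        · exact ⟨hab, Or.inl (by rw [hL', mem_filter]; exact ⟨ha, rfl⟩)⟩
    rcases hLM _ _ hab with h | h
    · exact main a b hab h.1 h.2
    · exact main b a hab.symm h.2 h.1

end Run7.h203.SC
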