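import Pool.Agent.Run7.h203.SC.Even1
import Pool.Agent.Run7.h203.SC.GirthMatch

set_option autoImplicit false

namespace Run7.h203.SC

open Finset Pool.Agent.H268R2.LB

variable {V : Type} [Fintype V]

open Classical in
/-- few edges between the leaves and other vertices -/
theorem fan_edges {k : ℕ} {G : SimpleGraph V}
    (hG : ∀ (v : V) (p : G.Walk v v), p.IsCycle → p.length ≠ 2 * k) {i : ℕ} (hi : 1 ≤ i)
    (hik : i + 1 ≤ k) {v : V} {φ : V → ℕ → V} {L : Finset V} (hF : Fan G i v φ L) (M : Finset V)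
    (hM : ∀ l ∈ L, ∀ t ≤ i, φ l t ∉ M) :
    ((L ×ˢ M).filter (fun q => G.Adj q.1 q.2)).card ≤ (2 * k + 2) * (L.card + M.card) := by
  by_contra hcon
  push Not at hcon
  set S := (L ×ˢ M).filter (fun q => G.Adj q.1 q.2) with hS
  have hi1 : S.image Prod.fst ⊆ L := by
    intro x hx
    rw [mem_image] at hx
    obtain ⟨q, hq, rfl⟩ := hx
    exact (mem_product.1 (mem_filter.1 hq).1).1
  have hi2 : S.image Prod.snd ⊆ M := by
    intro x hx
    rw [mem_image] at hx
    obtain ⟨q, hq, rfl⟩ := hx
    exact (mem_product.1 (mem_filter.1 hq).1).2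
  obtain ⟨S', hS', hne, hrow, hcol⟩ := Pool.TH815.GR.clean S (2 * k + 2 : ℕ) (2 * k + 2 : ℕ)
    (Nat.cast_nonneg _) (Nat.cast_nonneg _) (by
      have h1 : ((2 * k + 2 : ℕ) : ℝ) * ((S.image Prod.fst).card : ℝ) ≤ ((2 * k + 2 : ℕ) : ℝ) * L.card :=
        mul_le_mul_of_nonneg_left (Nat.cast_le.2 (card_le_card hi1)) (Nat.cast_nonneg _)
      have h2 : ((2 * k + 2 : ℕ) : ℝ) * ((S.image Prod.snd).card : ℝ) ≤ ((2 * k + 2 : ℕ) : ℝ) * M.card :=
        mul_le_mul_of_nonneg_left (Nat.cast_le.2 (card_le_card hi2)) (Nat.cast_nonneg _)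
      have h3 : (((2 * k + 2) * (L.card + M.card) : ℕ) : ℝ) < S.card := Nat.cast_lt.2 hcon
      push_cast at h1 h2 h3 ⊢
      linarith)
  have hmem : ∀ q ∈ S', q.1 ∈ L ∧ q.2 ∈ M ∧ G.Adj q.1 q.2 := by
    intro q hq
    have h1 := mem_filter.1 (hS' hq)
    have h2 := mem_product.1 h1.1
    exact ⟨h2.1, h2.2, h1.2⟩
  have hdisj : ∀ l ∈ L, l ∉ M := by
    intro l hl h
    apply hM l hl i le_rfl
    rw [hF.leaf l hl]
    exact h
  set H : SimpleGraph V :=
    { Adj := fun x y => (x, y) ∈ S' ∨ (y, x) ∈ S'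
      symm := ⟨fun x y h => h.symm⟩
      loopless := ⟨fun x h => by
        have h1 : (x, x) ∈ S' := by
          rcases h with h | h <;> exact h
        exact (hmem _ h1).2.2.ne rfl⟩ } with hH
  have hdeg : ∀ a b, H.Adj a b → 2 * k + 1 < (univ.filter (fun z => H.Adj a z)).card := by
    intro a b hab
    rcases hab with h | h
    · have h1 : 2 * k + 2 ≤ (S'.filter (fun q => q.1 = a)).card := by
        have := hrow _ h
        exact_mod_cast this
      have h2 : (S'.filter (fun q => q.1 = a)).card ≤ (univ.filter (fun z => H.Adj a z)).card := by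
        apply card_le_card_of_injOn (fun q => q.2)
        · intro q hq
          rw [mem_coe, mem_filter] at hq
          rw [mem_coe, mem_filter]
          refine ⟨mem_univ _, Or.inl ?_⟩
          have : q = (a, q.2) := Prod.ext hq.2 rfl
          rw [← this]
          exact hq.1
        · intro q hq r hr hqr
          rw [mem_coe, mem_filter] at hq hr
          exact Prod.ext (hq.2.trans hr.2.symm) hqr
      omega
    · have h1 : 2 * k + 2 ≤ (S'.filter (fun q => q.2 = a)).card := by
        have := hcol _ h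
        exact_mod_cast this
      have h2 : (S'.filter (fun q => q.2 = a)).card ≤ (univ.filter (fun z => H.Adj a z)).card := by
        apply card_le_card_of_injOn (fun q => q.1)
        · intro q hq
          rw [mem_coe, mem_filter] at hq
          rw [mem_coe, mem_filter]
          refine ⟨mem_univ _, Or.inr ?_⟩
          have : q = (q.1, a) := Prod.ext rfl hq.2
          rw [← this]
          exact hq.1
        · intro q hq r hr hqr
          rw [mem_coe, mem_filter] at hq hr
          exact Prod.ext hqr (hq.2.trans hr.2.symm)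
      omega
  obtain ⟨q0, hq0⟩ := hne
  refine fan_sparse hG i hi hik v φ L hF M hM H ?_ ?_
    (fun a b hab => by convert hdeg a b hab) q0.1 q0.2 (Or.inl hq0)
  · intro a b hab
    rcases hab with h | h
    · exact (hmem _ h).2.2
    · exact (hmem _ h).2.2.symm
  · intro a b hab
    rcases hab with h | h
    · exact Or.inl ⟨(hmem _ h).1, (hmem _ h).2.1⟩
    · exact Or.inr ⟨(hmem _ h).2.1, (hmem _ h).1⟩

/-! ### Levels -/

open Classical in
/-- the vertices at distance `i` from `v` -/
noncomputable def lev (G : SimpleGraph V) (v : V) (i : ℕ) : Finset V :=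
  univ.filter (fun u => G.Reachable v u ∧ G.dist v u = i)

lemma mem_lev {G : SimpleGraph V} {v : V} {i : ℕ} {u : V} :
    u ∈ lev G v i ↔ G.Reachable v u ∧ G.dist v u = i := by
  classical
  simp [lev]

lemma lev_zero (G : SimpleGraph V) (v : V) : lev G v 0 = {v} := by
  ext u
  rw [mem_lev, mem_singleton]
  constructor
  · rintro ⟨h1, h2⟩
    exact (h1.dist_eq_zero_iff.1 h2).symm
  · rintro rfl
    exact ⟨SimpleGraph.Reachable.refl _, SimpleGraph.dist_self⟩

lemma lev_adj {G : SimpleGraph V} {v u w : V} {i : ℕ} (hu : u ∈ lev G v i) (h : G.Adj u w) :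
    ∃ j, w ∈ lev G v j ∧ (j = i + 1 ∨ j = i ∨ j + 1 = i) := by
  rw [mem_lev] at hu
  obtain ⟨h1, h2⟩ := hu
  have h3 : G.Reachable v w := h1.trans h.reachable
  refine ⟨G.dist v w, mem_lev.2 ⟨h3, rfl⟩, ?_⟩
  have h4 : G.dist v w ≤ i + 1 := by
    obtain ⟨p, hp⟩ := h1.exists_walk_length_eq_dist
    have := SimpleGraph.dist_le (p.concat h)
    rw [SimpleGraph.Walk.length_concat, hp, h2] at this
    exact this
  have h5 : i ≤ G.dist v w + 1 := by
    obtain ⟨p, hp⟩ := h3.exists_walk_length_eq_dist
    have := SimpleGraph.dist_le (p.concat h.symm)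
    rw [SimpleGraph.Walk.length_concat, hp, h2] at this
    exact this
  omega

lemma lev_par {G : SimpleGraph V} {v u : V} {i : ℕ} (hu : u ∈ lev G v (i + 1)) :
    ∃ w ∈ lev G v i, G.Adj w u := by
  rw [mem_lev] at hu
  obtain ⟨h1, h2⟩ := hu
  obtain ⟨p, hp⟩ := h1.exists_walk_length_eq_dist
  have hnn : ¬ p.Nil := by
    intro h
    have := SimpleGraph.Walk.length_eq_zero_iff.2 h
    omega
  have ha := p.adj_penultimate hnn
  refine ⟨p.penultimate, ?_, ha⟩
  rw [mem_lev]
  have h3 : (p.dropLast).length = i := by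
    have := p.length_dropLast_add_one hnn
    omega
  have h4 : G.Reachable v p.penultimate := ⟨p.dropLast⟩
  refine ⟨h4, le_antisymm (h3 ▸ SimpleGraph.dist_le p.dropLast) ?_⟩
  obtain ⟨r, hr⟩ := h4.exists_walk_length_eq_dist
  have := SimpleGraph.dist_le (r.concat ha)
  rw [SimpleGraph.Walk.length_concat, hr, h2] at this
  omega

/-- the fan of a level -/
lemma lev_fan (G : SimpleGraph V) (v : V) (i : ℕ) : ∃ φ : V → ℕ → V, Fan G i v φ (lev G v i) ∧
    ∀ l ∈ lev G v i, ∀ t ≤ i, φ l t ∈ lev G v t := by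
  classical
  have hpar : ∀ u, ∃ w, ∀ j, u ∈ lev G v (j + 1) → w ∈ lev G v j ∧ G.Adj w u := by
    intro u
    by_cases h : ∃ j, u ∈ lev G v (j + 1)
    · obtain ⟨j, hj⟩ := h
      obtain ⟨w, hw, hwu⟩ := lev_par hj
      refine ⟨w, fun j' hj' => ?_⟩
      have : j = j' := by
        have h1 := (mem_lev.1 hj).2
        have h2 := (mem_lev.1 hj').2
        omega
      subst this
      exact ⟨hw, hwu⟩
    · push Not at h
      exact ⟨u, fun j hj => absurd hj (h j)⟩
  choose par hp using hpar
  have hit : ∀ s t u, u ∈ lev G v (t + s) → par^[s] u ∈ lev G v t := by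
    intro s
    induction s with
    | zero => intro t u hu; exact hu
    | succ s ih =>
      intro t u hu
      rw [Function.iterate_succ_apply]
      exact ih t _ (hp u (t + s) hu).1
  have hmem : ∀ l ∈ lev G v i, ∀ t ≤ i, par^[i - t] l ∈ lev G v t := by
    intro l hl t ht
    apply hit
    rwa [show t + (i - t) = i by omega]
  refine ⟨fun l t => par^[i - t] l, ⟨?_, ?_, ?_, ?_⟩, hmem⟩
  · intro l hl
    have := hmem l hl 0 (Nat.zero_le _)
    rw [lev_zero, mem_singleton] at this
    exact this
  · intro l hl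
    simp
  · intro l hl j hj
    have h1 := hmem l hl (j + 1) hj
    have h2 := (hp _ _ h1).2
    have h3 : par^[i - j] l = par (par^[i - (j + 1)] l) := by
      rw [show i - j = (i - (j + 1)) + 1 by omega, Function.iterate_succ_apply']
    rw [← h3] at h2
    exact h2
  · intro l hl l' hl' j hj j' hj' h
    have h1 := (mem_lev.1 (hmem l hl j hj)).2
    have h2 := (mem_lev.1 (hmem l' hl' j' hj')).2
    change par^[i - j] l = par^[i - j'] l' at h
    have hjj : j = j' := by
      rw [h] at h1
      omega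
    subst hjj
    refine ⟨rfl, fun t ht => ?_⟩
    rw [show i - t = (j - t) + (i - j) by omega, Function.iterate_add_apply,
      Function.iterate_add_apply, h]

end Run7.h203.SC
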