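import Pool.Agent.Run7.h203.SC.Even2

set_option autoImplicit false

namespace Run7.h203.SC

open Finset Pool.Agent.H268R2.LB

variable {V : Type} [Fintype V]

lemma lev_side {B : SimpleGraph V} {s : V → Prop} (hs : ∀ a b, B.Adj a b → (s a ↔ ¬ s b)) (v : V) :
    ∀ i u, u ∈ lev B v i → (s u ↔ (Even i ↔ s v)) := by
  intro i
  induction i with
  | zero =>
    intro u hu
    rw [lev_zero, mem_singleton] at hu
    subst hu
    simp
  | succ i ih =>
    intro u hu
    obtain ⟨w, hw, hwu⟩ := lev_par hu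
    have h1 := ih w hw
    have h2 := hs w u hwu
    rw [Nat.even_add_one]
    tauto

lemma lev_nbr {B : SimpleGraph V} {s : V → Prop} (hs : ∀ a b, B.Adj a b → (s a ↔ ¬ s b)) {v : V}
    {i : ℕ} {u w : V} (hu : u ∈ lev B v i) (h : B.Adj u w) :
    w ∈ lev B v (i + 1) ∨ ∃ j, i = j + 1 ∧ w ∈ lev B v j := by
  obtain ⟨j, hj, h1 | h1 | h1⟩ := lev_adj hu h
  · exact Or.inl (h1 ▸ hj)
  · exfalso
    subst h1
    have h2 := lev_side hs v _ _ hu
    have h3 := lev_side hs v _ _ hj
    have h4 := hs u w h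
    tauto
  · exact Or.inr ⟨j, h1.symm, hj⟩

open Classical in
/-- the number of edges between two sets -/
noncomputable def cnt (B : SimpleGraph V) (A C : Finset V) : ℕ :=
  ((A ×ˢ C).filter (fun q => B.Adj q.1 q.2)).card

open Classical in
lemma cnt_eq (B : SimpleGraph V) (A C : Finset V) :
    cnt B A C = ∑ a ∈ A, (C.filter (fun z => B.Adj a z)).card := by
  unfold cnt
  rw [card_filter, sum_product]
  apply sum_congr rfl
  intro a _
  rw [card_filter]

lemma cnt_comm (B : SimpleGraph V) (A C : Finset V) : cnt B A C = cnt B C A := by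
  classical
  unfold cnt
  apply card_bij (fun q _ => (q.2, q.1))
  · intro q hq
    rw [mem_filter, mem_product] at hq ⊢
    exact ⟨⟨hq.1.2, hq.1.1⟩, hq.2.symm⟩
  · intro q _ r _ h
    rw [Prod.mk.injEq] at h
    exact Prod.ext h.2 h.1
  · intro q hq
    rw [mem_filter, mem_product] at hq
    exact ⟨(q.2, q.1), by rw [mem_filter, mem_product]; exact ⟨⟨hq.1.2, hq.1.1⟩, hq.2.symm⟩, rfl⟩

lemma cnt_mono (B : SimpleGraph V) {A A' C C' : Finset V} (hA : A ⊆ A') (hC : C ⊆ C') :
    cnt B A C ≤ cnt B A' C' := by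
  classical
  unfold cnt
  exact card_le_card (filter_subset_filter _ (product_subset_product hA hC))

open Classical in
lemma cnt_deg (B : SimpleGraph V) (A C1 C2 : Finset V) (D : ℕ)
    (hD : ∀ a ∈ A, D ≤ (univ.filter (fun z => B.Adj a z)).card)
    (hn : ∀ a ∈ A, ∀ w, B.Adj a w → w ∈ C1 ∨ w ∈ C2) :
    D * A.card ≤ cnt B A C1 + cnt B A C2 := by
  rw [cnt_eq, cnt_eq, ← sum_add_distrib, mul_comm, ← smul_eq_mul]
  apply card_nsmul_le_sum
  intro a ha
  refine (hD a ha).trans ?_
  refine le_trans (card_le_card ?_) (card_union_le _ _)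
  intro z hz
  rw [mem_filter] at hz
  rw [mem_union, mem_filter, mem_filter]
  rcases hn a ha z hz.2 with h | h
  · exact Or.inl ⟨h, hz.2⟩
  · exact Or.inr ⟨h, hz.2⟩

/-- edges from a level to vertices outside of the ball -/
lemma lev_cnt {k : ℕ} {B : SimpleGraph V}
    (hB : ∀ (v : V) (p : B.Walk v v), p.IsCycle → p.length ≠ 2 * k) (v : V) {i : ℕ} (hi : 1 ≤ i)
    (hik : i + 1 ≤ k) (M : Finset V) (hM : M ⊆ lev B v (i + 1)) :
    cnt B (lev B v i) M ≤ (2 * k + 2) * ((lev B v i).card + M.card) := by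
  obtain ⟨φ, hF, hφ⟩ := lev_fan B v i
  have h := fan_edges hB hi hik hF M (by
    intro l hl t ht h
    have h1 := (mem_lev.1 (hφ l hl t ht)).2
    have h2 := (mem_lev.1 (hM h)).2
    omega)
  unfold cnt
  exact h

open Classical in
/-- the last but one level is small if there are small covers -/
theorem level_bound {k c g κ : ℕ} (hk : 2 ≤ k) (hc : c = 2 * k + 2) (B : SimpleGraph V)
    (hB : ∀ (v : V) (p : B.Walk v v), p.IsCycle → p.length ≠ 2 * k)
    (s : V → Prop) (hs : ∀ a b, B.Adj a b → (s a ↔ ¬ s b))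
    (hD : ∀ a b, B.Adj a b → c * (g + 8) ≤ (univ.filter (fun z => B.Adj a z)).card)
    (v : V) (hv : ∃ w, B.Adj v w)
    (hcov : ∀ W ⊆ lev B v k, ∃ Z ⊆ W, Z.card ≤ κ ∧ ∀ w ∈ W, ∀ u, B.Adj w u → ∃ z ∈ Z, B.Adj z u) :
    g ^ (k - 1) ≤ 4 * c * κ := by
  have hc0 : 0 < c := by omega
  set n : ℕ → ℕ := fun i => (lev B v i).card with hn
  have hn0 : n 0 = 1 := by
    simp only [hn]
    rw [lev_zero, card_singleton]
  have hdeg : ∀ i, ∀ u ∈ lev B v i, c * (g + 8) ≤ (univ.filter (fun z => B.Adj u z)).card := by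
    intro i u hu
    cases i with
    | zero =>
      rw [lev_zero, mem_singleton] at hu
      subst hu
      obtain ⟨w, hw⟩ := hv
      exact hD _ _ hw
    | succ i =>
      obtain ⟨w, hw, hwu⟩ := lev_par hu
      exact hD _ _ hwu.symm
  -- edges between consecutive levels
  have he : ∀ i, i + 1 ≤ k → cnt B (lev B v i) (lev B v (i + 1)) ≤ c * (n i + n (i + 1)) := by
    intro i hi
    rcases Nat.eq_zero_or_pos i with h0 | h0
    · subst h0
      have h1 : cnt B (lev B v 0) (lev B v (0 + 1)) ≤ n (0 + 1) := by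
        rw [cnt_eq, lev_zero, sum_singleton]
        exact card_filter_le _ _
      refine h1.trans ?_
      calc n (0 + 1) ≤ 1 * (n 0 + n (0 + 1)) := by omega
        _ ≤ c * (n 0 + n (0 + 1)) := Nat.mul_le_mul_right _ hc0
    · rw [hc]
      exact lev_cnt hB v h0 hi _ (Subset.refl _)
  -- degrees
  have hd0 : c * (g + 8) * n 0 ≤ n 1 := by
    have h1 := cnt_deg B (lev B v 0) (lev B v 1) ∅ (c * (g + 8)) (hdeg 0) (by
      intro a ha w haw
      rcases lev_nbr hs ha haw with h | ⟨j, h, -⟩
      · exact Or.inl h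
      · omega)
    have h2 : cnt B (lev B v 0) ∅ = 0 := by
      rw [cnt_eq]
      simp
    have h3 : cnt B (lev B v 0) (lev B v 1) ≤ n 1 := by
      rw [cnt_eq, lev_zero, sum_singleton]
      exact card_filter_le _ _
    rw [h2] at h1
    exact h1.trans (by omega)
  have hd : ∀ i, i + 2 ≤ k → c * (g + 8) * n (i + 1) ≤
      c * (n (i + 1) + n (i + 2)) + c * (n i + n (i + 1)) := by
    intro i hi
    have h1 := cnt_deg B (lev B v (i + 1)) (lev B v (i + 2)) (lev B v i) (c * (g + 8)) (hdeg _) (by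
      intro a ha w haw
      rcases lev_nbr hs ha haw with h | ⟨j, h, h'⟩
      · exact Or.inl h
      · have : i = j := by omega
        exact Or.inr (this ▸ h'))
    refine h1.trans ?_
    have h2 := he (i + 1) (by omega)
    have h3 := he i (by omega)
    rw [cnt_comm B (lev B v (i + 1)) (lev B v i)]
    exact Nat.add_le_add h2 h3
  have hgrow : ∀ i, i + 1 ≤ k → (g + 1) * n i ≤ n (i + 1) := by
    intro i
    induction i with
    | zero =>
      intro _
      refine le_trans ?_ hd0
      apply Nat.mul_le_mul_right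
      calc g + 1 ≤ 1 * (g + 8) := by omega
        _ ≤ c * (g + 8) := Nat.mul_le_mul_right _ hc0
    | succ i ih =>
      intro hi
      have h1 := hd i (by omega)
      have h2 := ih (by omega)
      have h3 : n i ≤ n (i + 1) := by
        refine le_trans ?_ h2
        exact Nat.le_mul_of_pos_left _ (by omega)
      have h4 : c * ((g + 8) * n (i + 1)) ≤ c * (n (i + 1) + n (i + 2) + (n i + n (i + 1))) := by
        calc c * ((g + 8) * n (i + 1)) = c * (g + 8) * n (i + 1) := by ring
          _ ≤ _ := h1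
          _ = _ := by ring
      have h5 := Nat.le_of_mul_le_mul_left h4 hc0
      have h6 : (g + 8) * n (i + 1) = (g + 1) * n (i + 1) + 7 * n (i + 1) := by ring
      change (g + 1) * n (i + 1) ≤ n (i + 2)
      omega
  have hmono : ∀ i, i + 1 ≤ k → n i ≤ n (i + 1) := by
    intro i hi
    exact le_trans (Nat.le_mul_of_pos_left _ (by omega)) (hgrow i hi)
  have hpow : ∀ i, i ≤ k → g ^ i ≤ n i := by
    intro i
    induction i with
    | zero => intro _; rw [hn0, pow_zero]
    | succ i ih =>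
      intro hi
      refine le_trans ?_ (hgrow i hi)
      rw [pow_succ, mul_comm]
      exact Nat.mul_le_mul (by omega) (ih (by omega))
  -- the last step
  obtain ⟨j, rfl⟩ : ∃ j, k = j + 2 := ⟨k - 2, by omega⟩
  set A := lev B v (j + 1) with hA
  set Low := (lev B v (j + 2)).filter (fun z => (A.filter (fun a => B.Adj z a)).card ≤ 2 * c) with hLow
  set High := (lev B v (j + 2)).filter (fun z => ¬ (A.filter (fun a => B.Adj z a)).card ≤ 2 * c)
    with hHigh
  have hHc : cnt B A High ≤ c * (n (j + 1) + High.card) := by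
    rw [hc]
    exact lev_cnt hB v (by omega) le_rfl _ (filter_subset _ _)
  have hHl : (2 * c) * High.card ≤ cnt B A High := by
    rw [cnt_comm, cnt_eq, mul_comm, ← smul_eq_mul]
    apply card_nsmul_le_sum
    intro z hz
    rw [hHigh, mem_filter] at hz
    exact (not_le.1 hz.2).le
  have hHn : High.card ≤ n (j + 1) := by
    have h1 : c * (2 * High.card) ≤ c * (n (j + 1) + High.card) := by
      calc c * (2 * High.card) = 2 * c * High.card := by ring
        _ ≤ _ := hHl.trans hHc
    have h2 := Nat.le_of_mul_le_mul_left h1 hc0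
    omega
  have hH2 : cnt B A High ≤ c * (2 * n (j + 1)) :=
    hHc.trans (Nat.mul_le_mul_left _ (by omega))
  set Y0 := A.filter (fun a => ∃ z ∈ Low, B.Adj z a) with hY0
  set Y1 := A.filter (fun a => ¬ ∃ z ∈ Low, B.Adj z a) with hY1
  have hYY : Y0.card + Y1.card = n (j + 1) := card_filter_add_card_filter_not _
  have h1 := cnt_deg B Y1 High (lev B v j) (c * (g + 8))
    (fun a ha => hdeg (j + 1) a (mem_filter.1 ha).1) (by
      intro a ha w haw
      have ha1 := mem_filter.1 ha
      rcases lev_nbr hs ha1.1 haw with h | ⟨i, h, h'⟩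
      · left
        rw [hHigh, mem_filter]
        refine ⟨h, fun hcon => ha1.2 ⟨w, ?_, haw.symm⟩⟩
        rw [hLow, mem_filter]
        exact ⟨h, hcon⟩
      · have : j = i := by omega
        exact Or.inr (this ▸ h'))
  have h2 : cnt B Y1 High ≤ c * (2 * n (j + 1)) :=
    (cnt_mono B (filter_subset _ _) (Subset.refl _)).trans hH2
  have h3 : cnt B Y1 (lev B v j) ≤ c * (2 * n (j + 1)) := by
    refine (cnt_mono B (filter_subset _ _) (Subset.refl _)).trans ?_
    rw [cnt_comm]
    refine (he j (by omega)).trans (Nat.mul_le_mul_left _ ?_)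
    have := hmono j (by omega)
    omega
  have h4 : Y1.card * 2 ≤ n (j + 1) := by
    have h5 : c * (8 * Y1.card) ≤ c * (4 * n (j + 1)) := by
      calc c * (8 * Y1.card) ≤ c * ((g + 8) * Y1.card) :=
            Nat.mul_le_mul_left _ (Nat.mul_le_mul_right _ (by omega))
        _ = c * (g + 8) * Y1.card := by ring
        _ ≤ c * (2 * n (j + 1)) + c * (2 * n (j + 1)) := h1.trans (Nat.add_le_add h2 h3)
        _ = c * (4 * n (j + 1)) := by ring
    have h6 := Nat.le_of_mul_le_mul_left h5 hc0
    omega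
  obtain ⟨Z, hZ, hZκ, hZc⟩ := hcov Low (filter_subset _ _)
  have h5 : Y0.card ≤ 2 * c * κ := by
    have h6 : Y0 ⊆ Z.biUnion (fun z => A.filter (fun a => B.Adj z a)) := by
      intro a ha
      rw [hY0, mem_filter] at ha
      obtain ⟨ha1, z, hz, hza⟩ := ha
      obtain ⟨z', hz', hz'a⟩ := hZc z hz a hza
      rw [mem_biUnion]
      exact ⟨z', hz', mem_filter.2 ⟨ha1, hz'a⟩⟩
    refine (card_le_card h6).trans (card_biUnion_le.trans ?_)
    have h7 : ∑ z ∈ Z, (A.filter (fun a => B.Adj z a)).card ≤ ∑ _z ∈ Z, 2 * c := by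
      apply sum_le_sum
      intro z hz
      have := hZ hz
      rw [hLow, mem_filter] at this
      exact this.2
    refine h7.trans ?_
    rw [sum_const, smul_eq_mul, mul_comm]
    exact Nat.mul_le_mul_left _ hZκ
  have h6 := hpow (j + 1) (by omega)
  rw [show j + 2 - 1 = j + 1 by omega]
  refine h6.trans ?_
  have h7 : n (j + 1) ≤ 2 * Y0.card := by omega
  calc n (j + 1) ≤ 2 * Y0.card := h7
    _ ≤ 2 * (2 * c * κ) := Nat.mul_le_mul_left _ h5
    _ = 4 * c * κ := by ring

end Run7.h203.SC
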