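import Pool.Agent.Run7.h203.SC.Even3

set_option autoImplicit false

namespace Run7.h203.SC

open Finset Pool.Agent.H268R2.LB

variable {V : Type} [Fintype V]

/-- the absence of cycles of a given length is inherited by subgraphs -/
lemma cycle_mono {V : Type} {G G' : SimpleGraph V} (h : G' ≤ G) {M : ℕ}
    (hg : ∀ (v : V) (p : G.Walk v v), p.IsCycle → p.length ≠ M) :
    ∀ (v : V) (p : G'.Walk v v), p.IsCycle → p.length ≠ M := by
  intro v p hp
  have := hg v (p.mapLe h) (by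
    rw [SimpleGraph.Walk.isCycle_mapLe]
    exact hp)
  rwa [SimpleGraph.Walk.length_map] at this

open Classical in
/-- a bipartite relation without cycles of length `2 k` and without induced matchings with more than
`κ` edges -/
theorem even_matching {k κ g : ℕ} (hk : 2 ≤ k) (hgκ : 4 * (2 * k + 2) * κ < g ^ (k - 1))
    {R : V → V → Prop} (hR : NoMatching κ R) (X Y : Finset V) (hXY : Disjoint X Y)
    (hg : ∀ (v : V) (p : (bip R X Y).Walk v v), p.IsCycle → p.length ≠ 2 * k) :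
    ((X ×ˢ Y).filter (fun p => R p.1 p.2)).card ≤
      (2 * k + 2) * (g + 8) * (X.card + Y.card) := by
  by_contra hcon
  push Not at hcon
  set D := (2 * k + 2) * (g + 8) with hDdef
  set S := (X ×ˢ Y).filter (fun p => R p.1 p.2) with hS
  have hi1 : S.image Prod.fst ⊆ X := by
    intro x hx
    rw [mem_image] at hx
    obtain ⟨q, hq, rfl⟩ := hx
    exact (mem_product.1 (mem_filter.1 hq).1).1
  have hi2 : S.image Prod.snd ⊆ Y := by
    intro x hx
    rw [mem_image] at hx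
    obtain ⟨q, hq, rfl⟩ := hx
    exact (mem_product.1 (mem_filter.1 hq).1).2
  obtain ⟨S', hS', hne, hrow, hcol⟩ := Pool.TH815.GR.clean S (D : ℕ) (D : ℕ)
    (Nat.cast_nonneg _) (Nat.cast_nonneg _) (by
      have h1 : ((D : ℕ) : ℝ) * ((S.image Prod.fst).card : ℝ) ≤ ((D : ℕ) : ℝ) * X.card :=
        mul_le_mul_of_nonneg_left (Nat.cast_le.2 (card_le_card hi1)) (Nat.cast_nonneg _)
      have h2 : ((D : ℕ) : ℝ) * ((S.image Prod.snd).card : ℝ) ≤ ((D : ℕ) : ℝ) * Y.card :=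
        mul_le_mul_of_nonneg_left (Nat.cast_le.2 (card_le_card hi2)) (Nat.cast_nonneg _)
      have h3 : ((D * (X.card + Y.card) : ℕ) : ℝ) < S.card := Nat.cast_lt.2 hcon
      push_cast at h1 h2 h3 ⊢
      linarith)
  have hmem : ∀ q ∈ S', q.1 ∈ X ∧ q.2 ∈ Y ∧ R q.1 q.2 := by
    intro q hq
    have h1 := mem_filter.1 (hS' hq)
    have h2 := mem_product.1 h1.1
    exact ⟨h2.1, h2.2, h1.2⟩
  set X' := S'.image Prod.fst with hX'
  set Y' := S'.image Prod.snd with hY'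
  have hX'X : X' ⊆ X := by
    intro x hx
    rw [hX', mem_image] at hx
    obtain ⟨q, hq, rfl⟩ := hx
    exact (hmem q hq).1
  have hY'Y : Y' ⊆ Y := by
    intro x hx
    rw [hY', mem_image] at hx
    obtain ⟨q, hq, rfl⟩ := hx
    exact (hmem q hq).2.1
  have hdisj : ∀ x ∈ X', x ∉ Y' := fun x hx hy => disjoint_left.1 hXY (hX'X hx) (hY'Y hy)
  set B := bip R X' Y' with hB
  have hBle : B ≤ bip R X Y := by
    intro u v huv
    refine ⟨huv.1, ?_⟩
    rcases huv.2 with ⟨h1, h2, h3⟩ | ⟨h1, h2, h3⟩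
    · exact Or.inl ⟨hX'X h1, hY'Y h2, h3⟩
    · exact Or.inr ⟨hX'X h1, hY'Y h2, h3⟩
  have hadj : ∀ q ∈ S', B.Adj q.1 q.2 := by
    intro q hq
    have h1 : q.1 ∈ X' := mem_image_of_mem _ hq
    have h2 : q.2 ∈ Y' := mem_image_of_mem _ hq
    exact ⟨fun h => hdisj _ h1 (h ▸ h2), Or.inl ⟨h1, h2, (hmem q hq).2.2⟩⟩
  have hs : ∀ a b, B.Adj a b → (a ∈ X' ↔ ¬ b ∈ X') := by
    intro a b hab
    rcases hab.2 with ⟨h1, h2, -⟩ | ⟨h1, h2, -⟩
    · exact ⟨fun _ h => hdisj _ h h2, fun _ => h1⟩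
    · exact ⟨fun h => absurd h2 (hdisj _ h), fun h => absurd h1 h⟩
  have hD : ∀ a b, B.Adj a b → D ≤ (univ.filter (fun z => B.Adj a z)).card := by
    intro a b hab
    have hcase : a ∈ X' ∨ a ∈ Y' := by
      rcases hab.2 with ⟨h1, -, -⟩ | ⟨-, h1, -⟩
      · exact Or.inl h1
      · exact Or.inr h1
    rcases hcase with h | h
    · rw [hX', mem_image] at h
      obtain ⟨r, hr, rfl⟩ := h
      have h1 : D ≤ (S'.filter (fun q => q.1 = r.1)).card := by
        have := hrow _ hr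
        exact_mod_cast this
      refine h1.trans ?_
      apply card_le_card_of_injOn (fun q => q.2)
      · intro q hq
        rw [mem_coe, mem_filter] at hq
        rw [mem_coe, mem_filter]
        refine ⟨mem_univ _, ?_⟩
        have := hadj q hq.1
        rwa [hq.2] at this
      · intro q hq q' hq' hqq
        rw [mem_coe, mem_filter] at hq hq'
        exact Prod.ext (hq.2.trans hq'.2.symm) hqq
    · rw [hY', mem_image] at h
      obtain ⟨r, hr, rfl⟩ := h
      have h1 : D ≤ (S'.filter (fun q => q.2 = r.2)).card := by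
        have := hcol _ hr
        exact_mod_cast this
      refine h1.trans ?_
      apply card_le_card_of_injOn (fun q => q.1)
      · intro q hq
        rw [mem_coe, mem_filter] at hq
        rw [mem_coe, mem_filter]
        refine ⟨mem_univ _, ?_⟩
        have := (hadj q hq.1).symm
        rwa [hq.2] at this
      · intro q hq q' hq' hqq
        rw [mem_coe, mem_filter] at hq hq'
        exact Prod.ext hqq (hq.2.trans hq'.2.symm)
  obtain ⟨q0, hq0⟩ := hne
  obtain ⟨v, hv, hvw⟩ : ∃ v, (Even k ↔ v ∈ X') ∧ ∃ w, B.Adj v w := by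
    by_cases hp : Even k
    · exact ⟨q0.1, ⟨fun _ => mem_image_of_mem _ hq0, fun _ => hp⟩, q0.2, hadj q0 hq0⟩
    · refine ⟨q0.2, ⟨fun h => absurd h hp, fun h => ?_⟩, q0.1, (hadj q0 hq0).symm⟩
      exact absurd (mem_image_of_mem _ hq0) (hdisj _ h)
  have hlev : ∀ u ∈ lev B v k, u ∈ X' := by
    intro u hu
    have := lev_side (s := fun u => u ∈ X') hs v k u hu
    exact this.2 hv
  have h := level_bound hk rfl B (cycle_mono hBle hg) (fun u => u ∈ X') hs
    (fun a b hab => by convert hD a b hab) v hvw (κ := κ) (by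
      intro W hW
      obtain ⟨Z, hZ, hZκ, hZc⟩ := cover_rows hR W
      refine ⟨Z, hZ, hZκ, ?_⟩
      intro w hw u hwu
      have hwX := hlev w (hW hw)
      rcases hwu.2 with ⟨-, h2, h3⟩ | ⟨-, h2, -⟩
      · obtain ⟨z, hz, hzu⟩ := hZc w hw u h3
        have hzX := hlev z (hW (hZ hz))
        exact ⟨z, hz, fun h => hdisj _ hzX (h ▸ h2), Or.inl ⟨hzX, h2, hzu⟩⟩
      · exact absurd h2 (hdisj _ hwX))
  omega

/-- the bound for the leaves -/
noncomputable def lame (k κ : ℕ) : ℕ :=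
  if κ = 0 then 0 else
    (2 * k + 2) * (⌊((4 * (2 * k + 2) * κ : ℕ) : ℝ) ^ (1 / ((k : ℝ) - 1))⌋₊ + 1 + 8)

lemma lame_le {k : ℕ} (hk : 2 ≤ k) (κ : ℕ) :
    (lame k κ : ℝ) ≤ 13 * (2 * (k : ℝ) + 2) ^ 2 * (κ : ℝ) ^ (1 / ((k : ℝ) - 1)) := by
  have hk2 : (2 : ℝ) ≤ k := by exact_mod_cast hk
  have hk1 : (1 : ℝ) ≤ (k : ℝ) - 1 := by linarith
  unfold lame
  split_ifs with h
  · subst h
    simp only [Nat.cast_zero]
    positivity
  · have h1 : (1 : ℝ) ≤ κ := by
      have : 1 ≤ κ := Nat.one_le_iff_ne_zero.2 h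
      exact_mod_cast this
    set e : ℝ := 1 / ((k : ℝ) - 1) with he
    have he0 : 0 ≤ e := by positivity
    have he1 : e ≤ 1 := by
      rw [he, div_le_one (by linarith)]
      exact hk1
    have h2 : (1 : ℝ) ≤ (κ : ℝ) ^ e := Real.one_le_rpow h1 he0
    set c : ℝ := 2 * (k : ℝ) + 2 with hc
    have hc1 : 1 ≤ c := by
      rw [hc]
      linarith
    have h3 : ((4 * (2 * k + 2) * κ : ℕ) : ℝ) ^ e ≤ 4 * c * (κ : ℝ) ^ e := by
      have h4 : ((4 * (2 * k + 2) * κ : ℕ) : ℝ) = (4 * c) * κ := by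
        rw [hc]
        push_cast
        ring
      rw [h4, Real.mul_rpow (by positivity) (by positivity)]
      apply mul_le_mul_of_nonneg_right _ (by positivity)
      calc (4 * c) ^ e ≤ (4 * c) ^ (1 : ℝ) :=
            Real.rpow_le_rpow_of_exponent_le (by linarith) he1
        _ = 4 * c := Real.rpow_one _
    have h5 := Nat.floor_le (a := ((4 * (2 * k + 2) * κ : ℕ) : ℝ) ^ e) (by positivity)
    have h6 : ((⌊((4 * (2 * k + 2) * κ : ℕ) : ℝ) ^ e⌋₊ : ℕ) : ℝ) + 9 ≤ 13 * c * (κ : ℝ) ^ e := by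
      have h7 : (9 : ℝ) ≤ 9 * c * (κ : ℝ) ^ e := by
        have : 1 ≤ c * (κ : ℝ) ^ e := one_le_mul_of_one_le_of_one_le hc1 h2
        calc (9 : ℝ) = 9 * 1 := by ring
          _ ≤ 9 * (c * (κ : ℝ) ^ e) := by linarith
          _ = _ := by ring
      have h8 := h5.trans h3
      calc _ ≤ 4 * c * (κ : ℝ) ^ e + 9 * c * (κ : ℝ) ^ e := add_le_add h8 h7
        _ = _ := by ring
    have h9 : (((2 * k + 2) * (⌊((4 * (2 * k + 2) * κ : ℕ) : ℝ) ^ e⌋₊ + 1 + 8) : ℕ) : ℝ) =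
        c * (((⌊((4 * (2 * k + 2) * κ : ℕ) : ℝ) ^ e⌋₊ : ℕ) : ℝ) + 9) := by
      rw [hc, Nat.cast_mul, Nat.cast_add, Nat.cast_add]
      push_cast
      ring
    rw [h9]
    calc c * (((⌊((4 * (2 * k + 2) * κ : ℕ) : ℝ) ^ e⌋₊ : ℕ) : ℝ) + 9) ≤
        c * (13 * c * (κ : ℝ) ^ e) := mul_le_mul_of_nonneg_left h6 (by positivity)
      _ = _ := by ring

open Classical in
/-- a bipartite relation without cycles of length `2 k` and without large induced matchings -/
theorem even_leaf {k : ℕ} (hk : 2 ≤ k) (κ : ℕ) (R : V → V → Prop)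
    (X Y : Finset V) (hR : NoMatching κ R) (hF : Disjoint X Y ∧
      ∀ (v : V) (p : (bip R X Y).Walk v v), p.IsCycle → p.length ≠ 2 * k) :
    ((X ×ˢ Y).filter (fun p => R p.1 p.2)).card ≤ lame k κ * (X.card + Y.card) := by
  unfold lame
  split_ifs with h0
  · subst h0
    have : (X ×ˢ Y).filter (fun p => R p.1 p.2) = ∅ := by
      rw [filter_eq_empty_iff]
      intro p _ hp
      refine hR (fun _ => p.1) (fun _ => p.2) ?_
      intro i j
      exact ⟨fun _ => Fin.ext (by have := i.2; have := j.2; omega), fun _ => hp⟩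
    rw [this, card_empty]
    exact Nat.zero_le _
  · have hk1 : (0 : ℝ) < (k : ℝ) - 1 := by
      have : (2 : ℝ) ≤ k := by exact_mod_cast hk
      linarith
    set x : ℝ := ((4 * (2 * k + 2) * κ : ℕ) : ℝ) ^ (1 / ((k : ℝ) - 1)) with hx
    have hx0 : 0 ≤ x := by positivity
    have h1 : x < ((⌊x⌋₊ + 1 : ℕ) : ℝ) := by
      push_cast
      exact Nat.lt_floor_add_one x
    have h2 : 4 * (2 * k + 2) * κ < (⌊x⌋₊ + 1) ^ (k - 1) := by
      have h3 : x ^ (k - 1) = ((4 * (2 * k + 2) * κ : ℕ) : ℝ) := by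
        rw [hx, ← Real.rpow_natCast, ← Real.rpow_mul (Nat.cast_nonneg _)]
        have : ((k - 1 : ℕ) : ℝ) = (k : ℝ) - 1 := by
          rw [Nat.cast_sub (by omega)]
          simp
        rw [this, one_div, inv_mul_cancel₀ hk1.ne', Real.rpow_one]
      have h4 : x ^ (k - 1) < ((⌊x⌋₊ + 1 : ℕ) : ℝ) ^ (k - 1) :=
        pow_lt_pow_left₀ h1 hx0 (by omega)
      rw [h3] at h4
      exact_mod_cast h4
    exact even_matching hk h2 hR X Y hF.1 hF.2

open Classical in
/-- graphs without cycles of length `2 k` and random protocols with equality queries -/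
theorem even_protocols {k : ℕ} (hk : 2 ≤ k) (G : SimpleGraph V)
    (hg : ∀ (v : V) (p : G.Walk v v), p.IsCycle → p.length ≠ 2 * k) (N : ℕ) (T : Fin N → Prot V)
    (κ : Fin N → ℕ) (q : Fin N → ℝ) (hκ : ∀ i, (T i).Leaves (NoMatching (κ i)))
    (hq : ∀ i, 0 ≤ q i) (hT : ∀ i u v, u ≠ v → (T i).Accepts u v → G.Adj u v) (p : ℝ)
    (hp : ∀ u v, G.Adj u v → p ≤ ∑ i, if (T i).Accepts u v then q i else 0) :
    p * Nat.card G.edgeSet ≤ 26 * (2 * (k : ℝ) + 2) ^ 2 * Fintype.card V *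
      ∑ i, q i * (3 ^ (T i).cost * (κ i : ℝ) ^ (1 / ((k : ℝ) - 1))) := by
  have h := mprot_random (fun R X Y => Disjoint X Y ∧
      ∀ (v : V) (p : (bip R X Y).Walk v v), p.IsCycle → p.length ≠ 2 * k)
    (fun R R' X X' Y Y' hX hY hR hF => ⟨hF.1.mono hX hY, cycle_mono (by
      intro u v huv
      refine ⟨huv.1, ?_⟩
      rcases huv.2 with ⟨h1, h2, h3⟩ | ⟨h1, h2, h3⟩
      · exact Or.inl ⟨hX h1, hY h2, hR _ h1 _ h2 h3⟩
      · exact Or.inr ⟨hX h1, hY h2, hR _ h1 _ h2 h3⟩) hF.2⟩)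
    (fun k R => NoMatching k R) (lame k)
    (fun κ R X Y hR hF => even_leaf hk κ R X Y hR hF)
    G N T κ q hκ hq
    (fun i X Y hXY => ⟨hXY, cycle_mono (bip_le G _ X Y fun u _ v _ huv h => hT i u v huv h) hg⟩) p hp
  refine h.trans ?_
  have h1 : ∑ i, q i * (3 ^ (T i).cost * (lame k (κ i) : ℝ)) ≤
      13 * (2 * (k : ℝ) + 2) ^ 2 *
        ∑ i, q i * (3 ^ (T i).cost * (κ i : ℝ) ^ (1 / ((k : ℝ) - 1))) := by
    rw [mul_sum]
    apply sum_le_sum
    intro i _
    have h2 := lame_le hk (κ i)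
    have h3 : (0 : ℝ) ≤ 3 ^ (T i).cost := by positivity
    calc q i * (3 ^ (T i).cost * (lame k (κ i) : ℝ)) ≤
        q i * (3 ^ (T i).cost * (13 * (2 * (k : ℝ) + 2) ^ 2 *
          (κ i : ℝ) ^ (1 / ((k : ℝ) - 1)))) :=
          mul_le_mul_of_nonneg_left (mul_le_mul_of_nonneg_left h2 h3) (hq i)
      _ = _ := by ring
  calc 2 * (Fintype.card V : ℝ) * ∑ i, q i * (3 ^ (T i).cost * (lame k (κ i) : ℝ))
      ≤ 2 * (Fintype.card V : ℝ) *
        (13 * (2 * (k : ℝ) + 2) ^ 2 *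
          ∑ i, q i * (3 ^ (T i).cost * (κ i : ℝ) ^ (1 / ((k : ℝ) - 1)))) :=
        mul_le_mul_of_nonneg_left h1 (by positivity)
    _ = _ := by ring

end Run7.h203.SC
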