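import Pool.Agent.Run7.h203.SC.Tree
import Pool.Agent.Run7.h203.SC.Cfour

set_option autoImplicit false

namespace Run7.h203.SC

open Finset Matrix

section field

variable {V W : Type} [Fintype V] [Fintype W] {F : Type*} [Field F]

open Classical in
/-- some column meets a proportion `1 / rank` of the rows -/
lemma cover (B : Matrix V W F) (X : Finset V) (Y : Finset W)
    (hX : ∀ u ∈ X, ∃ v ∈ Y, B u v ≠ 0) (hne : X.Nonempty) :
    ∃ v ∈ Y, X.card ≤ B.rank * (X.filter (fun u => B u v ≠ 0)).card := by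
  set c : Y → (V → F) := fun v => B.col v.1 with hc
  obtain ⟨κ, a, ha, hspan, hli⟩ := exists_linearIndependent' F c
  have : Finite κ := Finite.of_injective a ha
  have : Fintype κ := Fintype.ofFinite κ
  have hcard : Fintype.card κ ≤ B.rank := by
    rw [Matrix.rank_eq_finrank_span_cols]
    have h1 := linearIndependent_iff_card_eq_finrank_span.1 hli
    rw [h1]
    apply Submodule.finrank_mono
    apply Submodule.span_mono
    rintro _ ⟨i, rfl⟩
    exact ⟨(a i).1, rfl⟩
  have hcov : ∀ u ∈ X, ∃ i : κ, B u (a i).1 ≠ 0 := by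
    intro u hu
    by_contra hcon
    push Not at hcon
    obtain ⟨v, hv, hBv⟩ := hX u hu
    have h1 : Submodule.span F (Set.range (c ∘ a)) ≤ LinearMap.ker (LinearMap.proj u : (V → F) →ₗ[F] F) := by
      rw [Submodule.span_le]
      rintro _ ⟨i, rfl⟩
      exact hcon i
    have h2 : c ⟨v, hv⟩ ∈ Submodule.span F (Set.range (c ∘ a)) := by
      rw [hspan]
      exact Submodule.subset_span ⟨_, rfl⟩
    exact hBv (h1 h2)
  have hκ : (univ : Finset κ).Nonempty := by
    obtain ⟨u, hu⟩ := hne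
    obtain ⟨i, _⟩ := hcov u hu
    exact ⟨i, mem_univ _⟩
  obtain ⟨i0, -, hi0⟩ := Finset.exists_max_image univ
    (fun i : κ => (X.filter (fun u => B u (a i).1 ≠ 0)).card) hκ
  refine ⟨(a i0).1, (a i0).2, ?_⟩
  have h3 : X ⊆ (univ : Finset κ).biUnion (fun i => X.filter (fun u => B u (a i).1 ≠ 0)) := by
    intro u hu
    obtain ⟨i, hi⟩ := hcov u hu
    rw [mem_biUnion]
    exact ⟨i, mem_univ _, mem_filter.2 ⟨hu, hi⟩⟩
  calc X.card ≤ ∑ i : κ, (X.filter (fun u => B u (a i).1 ≠ 0)).card :=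
        (card_le_card h3).trans card_biUnion_le
    _ ≤ ∑ _i : κ, (X.filter (fun u => B u (a i0).1 ≠ 0)).card := sum_le_sum hi0
    _ = Fintype.card κ * (X.filter (fun u => B u (a i0).1 ≠ 0)).card := by
        rw [sum_const, smul_eq_mul, card_univ]
    _ ≤ _ := Nat.mul_le_mul_right _ hcard

open Classical in
lemma greedy (B : Matrix V W F) (j : ℕ) : ∀ (X : Finset V) (Y : Finset W), X.Nonempty →
    (∀ u ∈ X, j ≤ (Y.filter (fun v => B u v ≠ 0)).card) →
    ∃ S ⊆ Y, S.card = j ∧
      X.card ≤ B.rank ^ j * (X.filter (fun u => ∀ v ∈ S, B u v ≠ 0)).card := by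
  induction j with
  | zero =>
    intro X Y _ _
    exact ⟨∅, empty_subset _, rfl, by simp⟩
  | succ j ih =>
    intro X Y hne hX
    obtain ⟨v, hv, hXv⟩ := cover B X Y (by
      intro u hu
      have h1 : 0 < (Y.filter (fun v => B u v ≠ 0)).card := lt_of_lt_of_le (Nat.succ_pos _) (hX u hu)
      obtain ⟨v, hv⟩ := card_pos.1 h1
      exact ⟨v, (mem_filter.1 hv).1, (mem_filter.1 hv).2⟩) hne
    have hne1 : (X.filter (fun u => B u v ≠ 0)).Nonempty := by
      rw [← card_pos]
      by_contra h0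
      have h1 : (X.filter (fun u => B u v ≠ 0)).card = 0 := by omega
      rw [h1, mul_zero] at hXv
      have := card_pos.2 hne
      omega
    obtain ⟨S, hS, hSc, hSX⟩ := ih (X.filter (fun u => B u v ≠ 0)) (Y.erase v) hne1 (by
      intro u hu
      have h1 := hX u (mem_filter.1 hu).1
      have h2 : (Y.erase v).filter (fun w => B u w ≠ 0) = (Y.filter (fun w => B u w ≠ 0)).erase v := by
        rw [filter_erase]
      rw [h2, card_erase_of_mem (mem_filter.2 ⟨hv, (mem_filter.1 hu).2⟩)]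
      omega)
    have hvS : v ∉ S := fun h => (mem_erase.1 (hS h)).1 rfl
    refine ⟨insert v S, ?_, ?_, ?_⟩
    · intro w hw
      rw [mem_insert] at hw
      rcases hw with rfl | hw
      · exact hv
      · exact mem_of_mem_erase (hS hw)
    · rw [card_insert_of_notMem hvS, hSc]
    · calc X.card ≤ B.rank * (X.filter (fun u => B u v ≠ 0)).card := hXv
        _ ≤ B.rank * (B.rank ^ j * ((X.filter (fun u => B u v ≠ 0)).filter
            (fun u => ∀ w ∈ S, B u w ≠ 0)).card) := Nat.mul_le_mul_left _ hSX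
        _ = B.rank ^ (j + 1) * ((X.filter (fun u => B u v ≠ 0)).filter
            (fun u => ∀ w ∈ S, B u w ≠ 0)).card := by ring
        _ ≤ _ := by
          apply Nat.mul_le_mul_left
          apply card_le_card
          intro u hu
          rw [mem_filter, mem_filter] at hu
          rw [mem_filter]
          refine ⟨hu.1.1, ?_⟩
          intro w hw
          rw [mem_insert] at hw
          rcases hw with rfl | hw
          · exact hu.1.2
          · exact hu.2 w hw

open Classical in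
/-- a matrix supported on the edges of a graph without `K_{s,t}` -/
theorem rows_le (G : SimpleGraph V) (s t : ℕ) (hs : 1 ≤ s)
    (hG : (completeBipartiteGraph (Fin s) (Fin t)).Free G) (B : Matrix V V F) (X Y : Finset V)
    (hB : ∀ u ∈ X, ∀ v ∈ Y, B u v ≠ 0 → G.Adj u v)
    (hX : ∀ u ∈ X, t ≤ (Y.filter (fun v => B u v ≠ 0)).card) :
    X.card ≤ (s - 1) * B.rank ^ t := by
  rcases X.eq_empty_or_nonempty with h | hne
  · rw [h]; simp
  obtain ⟨S, hS, hSc, hSX⟩ := greedy B t X Y hne hX
  have h1 : (X.filter (fun u => ∀ v ∈ S, B u v ≠ 0)).card ≤ s - 1 := by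
    by_contra hc
    push Not at hc
    obtain ⟨A, hA, hA'⟩ := Finset.exists_subset_card_eq
      (s := X.filter (fun u => ∀ v ∈ S, B u v ≠ 0)) (n := s) (by omega)
    apply hG
    rw [SimpleGraph.completeBipartiteGraph_isContained_iff]
    refine ⟨A, S, by simpa using hA', by simpa using hSc, ?_⟩
    intro u hu v hv
    rw [mem_coe] at hu hv
    have h2 := mem_filter.1 (hA hu)
    exact hB u h2.1 v (hS hv) (h2.2 v hv)
  calc X.card ≤ B.rank ^ t * (X.filter (fun u => ∀ v ∈ S, B u v ≠ 0)).card := hSX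
    _ ≤ B.rank ^ t * (s - 1) := Nat.mul_le_mul_left _ h1
    _ = _ := mul_comm _ _

end field

variable {V : Type} [Fintype V]

lemma real_aux (a b c n x Q : ℝ) (hb : 0 ≤ b)
    (h1 : a ^ 2 ≤ n * b) (h2 : b ≤ c) (h3 : c ^ 2 ≤ x ^ 2 * Q) : a ^ 4 ≤ n ^ 2 * (x ^ 2 * Q) := by
  have h4 : b ^ 2 ≤ c ^ 2 := pow_le_pow_left₀ hb h2 2
  calc a ^ 4 = (a ^ 2) ^ 2 := by ring
    _ ≤ (n * b) ^ 2 := pow_le_pow_left₀ (sq_nonneg _) h1 2
    _ = n ^ 2 * b ^ 2 := by ring
    _ ≤ n ^ 2 * (x ^ 2 * Q) := mul_le_mul_of_nonneg_left (h4.trans h3) (sq_nonneg _)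

open Classical in
lemma sum_card_sq (G : SimpleGraph V) (X : Finset V) :
    ∑ v : V, ((X.filter (fun u => G.Adj u v)).card : ℝ) ^ 2 =
      ∑ p ∈ X ×ˢ X, ((cd G p.1 p.2 : ℕ) : ℝ) := by
  calc ∑ v : V, ((X.filter (fun u => G.Adj u v)).card : ℝ) ^ 2
      = ∑ v : V, ∑ u ∈ X, ∑ u' ∈ X, (if G.Adj u v ∧ G.Adj u' v then (1 : ℝ) else 0) := by
        apply sum_congr rfl
        intro v _
        rw [card_filter, Nat.cast_sum, sq, sum_mul_sum]
        apply sum_congr rfl; intro u _; apply sum_congr rfl; intro u' _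
        by_cases e1 : G.Adj u v
        · by_cases e2 : G.Adj u' v
          · simp [e1, e2]
          · simp [e2]
        · simp [e1]
    _ = ∑ u ∈ X, ∑ u' ∈ X, ∑ v : V, (if G.Adj u v ∧ G.Adj u' v then (1 : ℝ) else 0) := by
        rw [sum_comm]
        exact sum_congr rfl fun u _ => sum_comm
    _ = ∑ p ∈ X ×ˢ X, ((cd G p.1 p.2 : ℕ) : ℝ) := by
        rw [sum_product]
        apply sum_congr rfl; intro u _; apply sum_congr rfl; intro u' _
        unfold cd
        rw [card_filter, Nat.cast_sum]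
        apply sum_congr rfl; intro v _
        split_ifs <;> simp

open Classical in
/-- many edges out of a set -/
lemma edges_out (G : SimpleGraph V) (X Y : Finset V) :
    ((∑ u ∈ X, (Y.filter (fun v => G.Adj u v)).card : ℕ) : ℝ) ^ 4 ≤
      (Fintype.card V : ℝ) ^ 2 * ((X.card : ℝ) ^ 2 *
        ∑ u : V, ∑ u' : V, ((cd G u u' : ℕ) : ℝ) ^ 2) := by
  -- interchange
  have h1 : ((∑ u ∈ X, (Y.filter (fun v => G.Adj u v)).card : ℕ) : ℝ) =
      ∑ v ∈ Y, ((X.filter (fun u => G.Adj u v)).card : ℝ) := by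
    simp only [card_filter, Nat.cast_sum, Nat.cast_ite, Nat.cast_one, Nat.cast_zero]
    exact sum_comm
  have h2 : (∑ v ∈ Y, ((X.filter (fun u => G.Adj u v)).card : ℝ)) ^ 2 ≤
      (Fintype.card V : ℝ) * ∑ v ∈ Y, ((X.filter (fun u => G.Adj u v)).card : ℝ) ^ 2 := by
    refine sq_sum_le_card_mul_sum_sq.trans ?_
    exact mul_le_mul_of_nonneg_right (by exact_mod_cast card_le_univ Y)
      (sum_nonneg fun _ _ => sq_nonneg _)
  have h3 : ∑ v ∈ Y, ((X.filter (fun u => G.Adj u v)).card : ℝ) ^ 2 ≤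
      ∑ p ∈ X ×ˢ X, ((cd G p.1 p.2 : ℕ) : ℝ) := by
    rw [← sum_card_sq]
    exact sum_le_sum_of_subset_of_nonneg (subset_univ _) (fun _ _ _ => sq_nonneg _)
  have h4 : (∑ p ∈ X ×ˢ X, ((cd G p.1 p.2 : ℕ) : ℝ)) ^ 2 ≤ (X.card : ℝ) ^ 2 *
      ∑ u : V, ∑ u' : V, ((cd G u u' : ℕ) : ℝ) ^ 2 := by
    refine sq_sum_le_card_mul_sum_sq.trans ?_
    rw [card_product, Nat.cast_mul, ← sq]
    refine mul_le_mul_of_nonneg_left ?_ (sq_nonneg _)
    rw [← Fintype.sum_prod_type (f := fun p : V × V => ((cd G p.1 p.2 : ℕ) : ℝ) ^ 2)]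
    exact sum_le_sum_of_subset_of_nonneg (subset_univ _) (fun _ _ _ => sq_nonneg _)
  rw [h1]
  exact real_aux _ _ _ _ _ _ (sum_nonneg fun _ _ => sq_nonneg _) h2 h3 h4

open Classical in
/-- a cut with a quarter of the ordered adjacent pairs -/
lemma exists_cut' (G : SimpleGraph V) : ∃ X Y : Finset V, Disjoint X Y ∧
    Nat.card G.edgeSet ≤ 2 * ∑ u ∈ X, (Y.filter (fun v => G.Adj u v)).card := by
  set E := (univ : Finset (V × V)).filter (fun p => G.Adj p.1 p.2) with hE
  set M := Fintype.card (V → Bool) with hM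
  have e1 : ∑ χ : V → Bool, 4 * (E.filter (fun p => χ p.1 = true ∧ χ p.2 = false)).card
      = E.card * M := by
    simp only [card_filter]
    rw [← mul_sum, sum_comm, mul_sum]
    have e2 : ∀ p ∈ E, 4 * ∑ χ : V → Bool,
        (if χ p.1 = true ∧ χ p.2 = false then 1 else 0) = M := by
      intro p hp
      rw [← card_filter]
      exact quarter p.1 p.2 (mem_filter.1 hp).2.ne
    rw [sum_congr rfl e2, sum_const, smul_eq_mul, card_filter]
  have e3 : ∃ χ : V → Bool, E.card ≤ 4 * (E.filter (fun p => χ p.1 = true ∧ χ p.2 = false)).card := by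
    by_contra hc
    push Not at hc
    have e4 : ∑ χ : V → Bool, 4 * (E.filter (fun p => χ p.1 = true ∧ χ p.2 = false)).card <
        ∑ χ : V → Bool, E.card := by
      apply sum_lt_sum_of_nonempty univ_nonempty
      intro χ _
      exact hc χ
    rw [e1, sum_const, smul_eq_mul, card_univ, ← hM, mul_comm] at e4
    exact lt_irrefl _ e4
  obtain ⟨χ, hχ⟩ := e3
  refine ⟨univ.filter (fun u => χ u = true), univ.filter (fun u => χ u = false), ?_, ?_⟩
  · rw [disjoint_left]
    intro x hx hx'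
    rw [mem_filter] at hx hx'
    rw [hx.2] at hx'
    exact absurd hx'.2 (by decide)
  · have e5 := card_pairs G
    rw [← hE] at e5
    have e6 : (E.filter (fun p => χ p.1 = true ∧ χ p.2 = false)).card =
        ∑ u ∈ univ.filter (fun u => χ u = true),
          ((univ.filter (fun u => χ u = false)).filter (fun v => G.Adj u v)).card := by
      rw [hE, filter_filter, card_filter, ← univ_product_univ, sum_product, sum_filter]
      apply sum_congr rfl
      intro u _
      split_ifs with h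
      · rw [filter_filter, card_filter]
        apply sum_congr rfl
        intro v _
        simp only [h, true_and]
        congr 1
        exact propext and_comm
      · simp [h]
    rw [← e6]
    omega

end Run7.h203.SC
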