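import Pool.Agent.Run7.h203.SC.Core
import Pool.Agent.Run7.h203.SC.Minrank

set_option autoImplicit false

namespace Run7.h203.SC

open Finset Matrix

variable {V : Type} [Fintype V]

lemma Q_le (r : ℕ) (hr : 2 ≤ r) (G : SimpleGraph V)
    (hG : (completeBipartiteGraph (Fin r) (Fin r)).Free G) :
    ∑ u : V, ∑ u' : V, ((cd G u u' : ℕ) : ℝ) ^ 2 ≤
      (r : ℝ) ^ 4 * (Fintype.card V : ℝ) ^ (4 - 4 / (r : ℝ)) := by
  have h := sum_cd_sq r r hr (by omega) G hG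
  refine h.trans ?_
  have hr1 : (1 : ℝ) ≤ r := by exact_mod_cast (by omega : 1 ≤ r)
  have hr2 : (2 : ℝ) ≤ r := by exact_mod_cast hr
  have h1 : (r : ℝ) ^ (4 / (r : ℝ)) ≤ (r : ℝ) ^ 2 := by
    rw [← Real.rpow_natCast (r : ℝ) 2]
    apply Real.rpow_le_rpow_of_exponent_le hr1
    rw [div_le_iff₀ (by linarith)]
    push_cast
    linarith
  calc (r : ℝ) ^ 2 * (r : ℝ) ^ (4 / (r : ℝ)) * (Fintype.card V : ℝ) ^ (4 - 4 / (r : ℝ))
      ≤ (r : ℝ) ^ 2 * (r : ℝ) ^ 2 * (Fintype.card V : ℝ) ^ (4 - 4 / (r : ℝ)) := by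
        gcongr
    _ = _ := by ring

/-- every field -/
theorem part_field (r : ℕ) (hr : 2 ≤ r) (c : ℝ) (hc : 0 < c) (G : SimpleGraph V)
    (hG : (completeBipartiteGraph (Fin r) (Fin r)).Free G) (hn0 : (0 : ℝ) < Fintype.card V)
    (hn : 4 * ((r : ℝ) - 1) / c ≤ (Fintype.card V : ℝ) ^ (1 - 1 / (r : ℝ)))
    (he : c * (Fintype.card V : ℝ) ^ (2 - 1 / (r : ℝ)) ≤ Nat.card G.edgeSet)
    (F : Type) [Field F] (B : Matrix V V F) (hB : ∀ u v, u ≠ v → (B u v ≠ 0 ↔ G.Adj u v)) :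
    (c ^ 2 / (16 * (r : ℝ) ^ 3)) ^ (1 / (r : ℝ)) * (Fintype.card V : ℝ) ^ (1 / (r : ℝ)) ≤ B.rank := by
  classical
  set n : ℝ := (Fintype.card V : ℝ) with hndef
  have hr2 : (2 : ℝ) ≤ r := by exact_mod_cast hr
  have hr0 : (0 : ℝ) < r := by linarith
  obtain ⟨X, Y, hXY, hcut⟩ := exists_cut' G
  set Xr := X.filter (fun u => r ≤ (Y.filter (fun v => G.Adj u v)).card) with hXr
  set D := ∑ u ∈ Xr, (Y.filter (fun v => G.Adj u v)).card with hD
  have hsum : ∑ u ∈ X, (Y.filter (fun v => G.Adj u v)).card ≤ D + (r - 1) * Fintype.card V := by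
    rw [← sum_filter_add_sum_filter_not X (fun u => r ≤ (Y.filter (fun v => G.Adj u v)).card)]
    apply Nat.add_le_add le_rfl
    calc ∑ u ∈ X.filter (fun u => ¬ r ≤ (Y.filter (fun v => G.Adj u v)).card),
          (Y.filter (fun v => G.Adj u v)).card
        ≤ ∑ u ∈ X.filter (fun u => ¬ r ≤ (Y.filter (fun v => G.Adj u v)).card), (r - 1) := by
          apply sum_le_sum
          intro u hu
          have := (mem_filter.1 hu).2
          omega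
      _ = (X.filter (fun u => ¬ r ≤ (Y.filter (fun v => G.Adj u v)).card)).card * (r - 1) := by
          rw [sum_const, smul_eq_mul]
      _ ≤ Fintype.card V * (r - 1) := Nat.mul_le_mul_right _ (card_le_univ _)
      _ = _ := mul_comm _ _
  have hDr : c / 4 * n ^ (2 - 1 / (r : ℝ)) ≤ (D : ℝ) := by
    have h1 : (Nat.card G.edgeSet : ℝ) ≤ 2 * ((D : ℝ) + ((r : ℝ) - 1) * n) := by
      have h2 : Nat.card G.edgeSet ≤ 2 * (D + (r - 1) * Fintype.card V) :=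
        hcut.trans (Nat.mul_le_mul_left _ hsum)
      have h3 : ((Nat.card G.edgeSet : ℕ) : ℝ) ≤ ((2 * (D + (r - 1) * Fintype.card V) : ℕ) : ℝ) := by
        exact_mod_cast h2
      rw [Nat.cast_mul, Nat.cast_add, Nat.cast_mul, Nat.cast_sub (by omega : 1 ≤ r)] at h3
      push_cast at h3
      exact h3
    have h4 : ((r : ℝ) - 1) * n ≤ c / 4 * n ^ (2 - 1 / (r : ℝ)) := by
      have h5 : n ^ (2 - 1 / (r : ℝ)) = n ^ (1 - 1 / (r : ℝ)) * n := by
        rw [← Real.rpow_add_one hn0.ne']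
        congr 1
        ring
      rw [h5]
      have h6 : 4 * ((r : ℝ) - 1) ≤ c * n ^ (1 - 1 / (r : ℝ)) := by
        rw [div_le_iff₀ hc] at hn
        linarith
      nlinarith
    linarith
  have hout := edges_out G Xr Y
  rw [← hD] at hout
  have hQ := Q_le r hr G hG
  rw [← hndef] at hout hQ
  -- the number of rows
  have hrows : c ^ 2 / (16 * (r : ℝ) ^ 2) * n ≤ (Xr.card : ℝ) := by
    have h1 : (c / 4 * n ^ (2 - 1 / (r : ℝ))) ^ 4 ≤
        n ^ 2 * ((Xr.card : ℝ) ^ 2 * ((r : ℝ) ^ 4 * n ^ (4 - 4 / (r : ℝ)))) := by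
      calc (c / 4 * n ^ (2 - 1 / (r : ℝ))) ^ 4 ≤ (D : ℝ) ^ 4 := pow_le_pow_left₀ (by positivity) hDr 4
        _ ≤ _ := hout
        _ ≤ _ := by gcongr
    have h2 : (n ^ (2 - 1 / (r : ℝ))) ^ 4 = n ^ 2 * (n ^ 2 * n ^ (4 - 4 / (r : ℝ))) := by
      rw [← Real.rpow_natCast, ← Real.rpow_mul hn0.le, ← Real.rpow_natCast n 2,
        ← Real.rpow_add hn0, ← Real.rpow_add hn0]
      congr 1
      push_cast
      ring
    rw [mul_pow, h2] at h1
    have hpos : 0 < n ^ 2 * n ^ (4 - 4 / (r : ℝ)) := by positivity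
    have h3 : (c / 4) ^ 4 * n ^ 2 ≤ (Xr.card : ℝ) ^ 2 * (r : ℝ) ^ 4 := by
      have : (c / 4) ^ 4 * n ^ 2 * (n ^ 2 * n ^ (4 - 4 / (r : ℝ))) ≤
          (Xr.card : ℝ) ^ 2 * (r : ℝ) ^ 4 * (n ^ 2 * n ^ (4 - 4 / (r : ℝ))) := by
        calc _ = (c / 4) ^ 4 * (n ^ 2 * (n ^ 2 * n ^ (4 - 4 / (r : ℝ)))) := by ring
          _ ≤ _ := h1
          _ = _ := by ring
      exact le_of_mul_le_mul_right this hpos
    have h4 : ((c / 4) ^ 2 * n) ^ 2 ≤ ((Xr.card : ℝ) * (r : ℝ) ^ 2) ^ 2 := by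
      calc _ = (c / 4) ^ 4 * n ^ 2 := by ring
        _ ≤ _ := h3
        _ = _ := by ring
    have h5 := (sq_le_sq₀ (by positivity) (by positivity)).1 h4
    have h6 : c ^ 2 / (16 * (r : ℝ) ^ 2) * n = (c / 4) ^ 2 * n / (r : ℝ) ^ 2 := by
      field_simp
      ring
    rw [h6, div_le_iff₀ (by positivity)]
    exact h5
  have hrank := rows_le G r r (by omega) hG B Xr Y
    (by
      intro u hu v hv h
      have hne : u ≠ v := by
        rintro rfl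
        exact (disjoint_left.1 hXY) (mem_filter.1 hu).1 hv
      exact (hB u v hne).1 h)
    (by
      intro u hu
      have h1 := (mem_filter.1 hu).2
      refine h1.trans (card_le_card ?_)
      intro v hv
      rw [mem_filter] at hv ⊢
      refine ⟨hv.1, ?_⟩
      have hne : u ≠ v := by
        rintro rfl
        exact (disjoint_left.1 hXY) (mem_filter.1 hu).1 hv.1
      exact (hB u v hne).2 hv.2)
  have h7 : (Xr.card : ℝ) ≤ r * (B.rank : ℝ) ^ r := by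
    calc (Xr.card : ℝ) ≤ (((r - 1) * B.rank ^ r : ℕ) : ℝ) := by exact_mod_cast hrank
      _ ≤ ((r * B.rank ^ r : ℕ) : ℝ) := by
          exact_mod_cast Nat.mul_le_mul_right _ (by omega : r - 1 ≤ r)
      _ = _ := by push_cast; rfl
  have h8 : c ^ 2 / (16 * (r : ℝ) ^ 3) * n ≤ (B.rank : ℝ) ^ r := by
    have h9 : c ^ 2 / (16 * (r : ℝ) ^ 3) * n = c ^ 2 / (16 * (r : ℝ) ^ 2) * n / r := by
      field_simp
    rw [h9, div_le_iff₀ hr0]
    linarith
  have h10 : (c ^ 2 / (16 * (r : ℝ) ^ 3) * n) ^ (1 / (r : ℝ)) ≤ ((B.rank : ℝ) ^ r) ^ (1 / (r : ℝ)) :=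
    Real.rpow_le_rpow (by positivity) h8 (by positivity)
  rw [Real.mul_rpow (by positivity) hn0.le] at h10
  have h11 : ((B.rank : ℝ) ^ r) ^ (1 / (r : ℝ)) = B.rank := by
    rw [← Real.rpow_natCast, ← Real.rpow_mul (Nat.cast_nonneg _)]
    have : (r : ℝ) * (1 / r) = 1 := by field_simp
    rw [this, Real.rpow_one]
  rw [h11] at h10
  exact h10

/-- real weights of bounded ratio: rank -/
theorem part_rank (r : ℕ) (hr : 2 ≤ r) (c : ℝ) (hc : 0 < c) (G : SimpleGraph V)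
    (hG : (completeBipartiteGraph (Fin r) (Fin r)).Free G) (hn0 : (0 : ℝ) < Fintype.card V)
    (he : c * (Fintype.card V : ℝ) ^ (2 - 1 / (r : ℝ)) ≤ Nat.card G.edgeSet)
    (K : ℝ) (B : Matrix V V ℝ) (h1 : ∀ u v, G.Adj u v → 1 ≤ |B u v| ∧ |B u v| ≤ K)
    (h0 : ∀ u v, u ≠ v → ¬ G.Adj u v → B u v = 0) :
    c ^ 2 / (4 * (r : ℝ) ^ 4) * (Fintype.card V : ℝ) ^ (2 / (r : ℝ)) ≤ K ^ 4 * B.rank := by
  set n : ℝ := (Fintype.card V : ℝ) with hndef
  have hr2 : (2 : ℝ) ≤ r := by exact_mod_cast hr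
  have hr0 : (0 : ℝ) < r := by linarith
  have hb := rank_bound G K B (fun u v h => (h1 u v h).1) (fun u v h => (h1 u v h).2) h0
  have hQ := Q_le r hr G hG
  rw [← hndef] at hQ
  have h2 : (c * n ^ (2 - 1 / (r : ℝ)) / 2) ^ 2 ≤
      (B.rank : ℝ) * (K ^ 4 * ((r : ℝ) ^ 4 * n ^ (4 - 4 / (r : ℝ)))) := by
    calc (c * n ^ (2 - 1 / (r : ℝ)) / 2) ^ 2 ≤ ((Nat.card G.edgeSet : ℝ) / 2) ^ 2 := by gcongr
      _ ≤ _ := hb
      _ ≤ _ := by gcongr
  have h3 : (n ^ (2 - 1 / (r : ℝ))) ^ 2 = n ^ (2 / (r : ℝ)) * n ^ (4 - 4 / (r : ℝ)) := by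
    rw [← Real.rpow_natCast, ← Real.rpow_mul hn0.le, ← Real.rpow_add hn0]
    congr 1
    push_cast
    ring
  have hpos : 0 < n ^ (4 - 4 / (r : ℝ)) := by positivity
  have h4 : c ^ 2 / 4 * n ^ (2 / (r : ℝ)) ≤ K ^ 4 * B.rank * (r : ℝ) ^ 4 := by
    have : c ^ 2 / 4 * n ^ (2 / (r : ℝ)) * n ^ (4 - 4 / (r : ℝ)) ≤
        K ^ 4 * B.rank * (r : ℝ) ^ 4 * n ^ (4 - 4 / (r : ℝ)) := by
      calc _ = c ^ 2 / 4 * (n ^ (2 / (r : ℝ)) * n ^ (4 - 4 / (r : ℝ))) := by ring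
        _ = (c * n ^ (2 - 1 / (r : ℝ)) / 2) ^ 2 := by rw [← h3]; ring
        _ ≤ _ := h2
        _ = _ := by ring
    exact le_of_mul_le_mul_right this hpos
  have h5 : c ^ 2 / (4 * (r : ℝ) ^ 4) * n ^ (2 / (r : ℝ)) =
      c ^ 2 / 4 * n ^ (2 / (r : ℝ)) / (r : ℝ) ^ 4 := by
    field_simp
  rw [h5, div_le_iff₀ (by positivity)]
  exact h4

/-- factorisations -/
theorem part_factor (r : ℕ) (hr : 2 ≤ r) (c : ℝ) (hc : 0 < c) (G : SimpleGraph V)
    (hG : (completeBipartiteGraph (Fin r) (Fin r)).Free G) (hn0 : (0 : ℝ) < Fintype.card V)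
    (he : c * (Fintype.card V : ℝ) ^ (2 - 1 / (r : ℝ)) ≤ Nat.card G.edgeSet)
    (K : ℝ) {H : Type*} [NormedAddCommGroup H] [InnerProductSpace ℝ H] (x y : V → H)
    (h1 : ∀ u v, G.Adj u v → 1 ≤ |inner ℝ (x u) (y v)| ∧ |inner ℝ (x u) (y v)| ≤ K)
    (h0 : ∀ u v, u ≠ v → ¬ G.Adj u v → inner ℝ (x u) (y v) = 0) :
    c ^ 3 / (8 * (r : ℝ) ^ 4) * (Fintype.card V : ℝ) ^ (2 + 1 / (r : ℝ)) ≤
      K ^ 4 * ((∑ u, ‖x u‖ ^ 2) * ∑ v, ‖y v‖ ^ 2) := by
  set n : ℝ := (Fintype.card V : ℝ) with hndef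
  have hr2 : (2 : ℝ) ≤ r := by exact_mod_cast hr
  have hr0 : (0 : ℝ) < r := by linarith
  have hb := factor_bound G K x y (fun u v h => (h1 u v h).1) (fun u v h => (h1 u v h).2) h0
  have hQ := Q_le r hr G hG
  rw [← hndef] at hQ
  set P := (∑ u, ‖x u‖ ^ 2) * ∑ v, ‖y v‖ ^ 2 with hP
  have hP0 : 0 ≤ P := by positivity
  have h2 : (c * n ^ (2 - 1 / (r : ℝ)) / 2) ^ 3 ≤
      P * (K ^ 4 * ((r : ℝ) ^ 4 * n ^ (4 - 4 / (r : ℝ)))) := by
    calc (c * n ^ (2 - 1 / (r : ℝ)) / 2) ^ 3 ≤ ((Nat.card G.edgeSet : ℝ) / 2) ^ 3 := by gcongr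
      _ ≤ _ := hb
      _ ≤ _ := by gcongr
  have h3 : (n ^ (2 - 1 / (r : ℝ))) ^ 3 = n ^ (2 + 1 / (r : ℝ)) * n ^ (4 - 4 / (r : ℝ)) := by
    rw [← Real.rpow_natCast, ← Real.rpow_mul hn0.le, ← Real.rpow_add hn0]
    congr 1
    push_cast
    ring
  have hpos : 0 < n ^ (4 - 4 / (r : ℝ)) := by positivity
  have h4 : c ^ 3 / 8 * n ^ (2 + 1 / (r : ℝ)) ≤ K ^ 4 * P * (r : ℝ) ^ 4 := by
    have : c ^ 3 / 8 * n ^ (2 + 1 / (r : ℝ)) * n ^ (4 - 4 / (r : ℝ)) ≤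
        K ^ 4 * P * (r : ℝ) ^ 4 * n ^ (4 - 4 / (r : ℝ)) := by
      calc _ = c ^ 3 / 8 * (n ^ (2 + 1 / (r : ℝ)) * n ^ (4 - 4 / (r : ℝ))) := by ring
        _ = (c * n ^ (2 - 1 / (r : ℝ)) / 2) ^ 3 := by rw [← h3]; ring
        _ ≤ _ := h2
        _ = _ := by ring
    exact le_of_mul_le_mul_right this hpos
  have h5 : c ^ 3 / (8 * (r : ℝ) ^ 4) * n ^ (2 + 1 / (r : ℝ)) =
      c ^ 3 / 8 * n ^ (2 + 1 / (r : ℝ)) / (r : ℝ) ^ 4 := by
    field_simp
  rw [h5, div_le_iff₀ (by positivity)]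
  exact h4

/-- combinations of equalities -/
theorem part_equal (r : ℕ) (hr : 2 ≤ r) (c : ℝ) (hc : 0 < c) (G : SimpleGraph V)
    (hG : (completeBipartiteGraph (Fin r) (Fin r)).Free G) (hn0 : (0 : ℝ) < Fintype.card V)
    (he : c * (Fintype.card V : ℝ) ^ (2 - 1 / (r : ℝ)) ≤ Nat.card G.edgeSet)
    (K : ℝ) (k N : ℕ) (a : Fin k → ℝ) (f g : Fin k → V → Fin N)
    (h1 : ∀ u v, G.Adj u v → 1 ≤ |∑ i, if f i u = g i v then a i else 0| ∧
      |∑ i, if f i u = g i v then a i else 0| ≤ K)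
    (h0 : ∀ u v, u ≠ v → ¬ G.Adj u v → (∑ i, if f i u = g i v then a i else 0) = 0) :
    Real.sqrt (c ^ 3 / (8 * (r : ℝ) ^ 4)) * (Fintype.card V : ℝ) ^ (1 / (2 * (r : ℝ))) ≤
      K ^ 2 * ∑ i, |a i| := by
  classical
  set n : ℝ := (Fintype.card V : ℝ) with hndef
  have hr2 : (2 : ℝ) ≤ r := by exact_mod_cast hr
  have hr0 : (0 : ℝ) < r := by linarith
  set x : V → EuclideanSpace ℝ (Fin k × Fin N) := fun u =>
    WithLp.toLp 2 (fun p => if f p.1 u = p.2 then √|a p.1| else 0) with hx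
  set y : V → EuclideanSpace ℝ (Fin k × Fin N) := fun v =>
    WithLp.toLp 2 (fun p => if g p.1 v = p.2 then SignType.sign (a p.1) * √|a p.1| else 0) with hy
  have hxy : ∀ u v, inner ℝ (x u) (y v) = ∑ i, if f i u = g i v then a i else 0 := by
    intro u v
    rw [PiLp.inner_apply, Fintype.sum_prod_type]
    apply sum_congr rfl
    intro i _
    have e1 : ∀ l : Fin N, inner ℝ ((x u) (i, l)) ((y v) (i, l)) =
        if l = g i v then (if f i u = g i v then a i else 0) else 0 := by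
      intro l
      simp only [hx, hy]
      by_cases e2 : l = g i v
      · subst e2
        by_cases e3 : f i u = g i v
        · rw [if_pos e3, if_pos rfl, if_pos rfl, if_pos e3]
          rw [real_inner_comm]
          simp only [RCLike.inner_apply, conj_trivial]
          calc √|a i| * (SignType.sign (a i) * √|a i|) = SignType.sign (a i) * (√|a i| * √|a i|) := by ring
            _ = SignType.sign (a i) * |a i| := by rw [Real.mul_self_sqrt (abs_nonneg _)]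
            _ = a i := sign_mul_abs (a i)
        · simp [e3]
      · have e3 : ¬ g i v = l := fun h => e2 h.symm
        simp [e2, e3]
    rw [sum_congr rfl (fun l _ => e1 l), sum_ite_eq' univ (g i v), if_pos (mem_univ _)]
  have hxn : ∀ u, ‖x u‖ ^ 2 ≤ ∑ i, |a i| := by
    intro u
    rw [EuclideanSpace.norm_sq_eq, Fintype.sum_prod_type]
    apply sum_le_sum
    intro i _
    have e1 : ∀ l : Fin N, ‖(x u) (i, l)‖ ^ 2 = if l = f i u then |a i| else 0 := by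
      intro l
      simp only [hx]
      by_cases e2 : f i u = l
      · rw [if_pos e2, if_pos e2.symm, Real.norm_eq_abs, sq_abs, Real.sq_sqrt (abs_nonneg _)]
      · rw [if_neg e2, if_neg (fun h => e2 h.symm)]; simp
    rw [sum_congr rfl (fun l _ => e1 l), sum_ite_eq' univ (f i u), if_pos (mem_univ _)]
  have hyn : ∀ v, ‖y v‖ ^ 2 ≤ ∑ i, |a i| := by
    intro v
    rw [EuclideanSpace.norm_sq_eq, Fintype.sum_prod_type]
    apply sum_le_sum
    intro i _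
    have e1 : ∀ l : Fin N, ‖(y v) (i, l)‖ ^ 2 = if l = g i v then |a i| else 0 := by
      intro l
      simp only [hy]
      by_cases e2 : g i v = l
      · rw [if_pos e2, if_pos e2.symm, Real.norm_eq_abs, sq_abs, mul_pow, Real.sq_sqrt (abs_nonneg _)]
        rcases lt_trichotomy (a i) 0 with h | h | h
        · simp [sign_neg h]
        · simp [h]
        · simp [sign_pos h]
      · rw [if_neg e2, if_neg (fun h => e2 h.symm)]; simp
    rw [sum_congr rfl (fun l _ => e1 l), sum_ite_eq' univ (g i v), if_pos (mem_univ _)]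
  have hf := part_factor r hr c hc G hG hn0 he K x y
    (by intro u v h; rw [hxy]; exact h1 u v h) (by intro u v hne h; rw [hxy]; exact h0 u v hne h)
  rw [← hndef] at hf
  set W := ∑ i, |a i| with hW
  have hW0 : 0 ≤ W := sum_nonneg fun _ _ => abs_nonneg _
  have hX : ∑ u, ‖x u‖ ^ 2 ≤ n * W := by
    refine (sum_le_sum fun u _ => hxn u).trans (le_of_eq ?_)
    rw [sum_const, card_univ, nsmul_eq_mul]
  have hY : ∑ u, ‖y u‖ ^ 2 ≤ n * W := by
    refine (sum_le_sum fun u _ => hyn u).trans (le_of_eq ?_)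
    rw [sum_const, card_univ, nsmul_eq_mul]
  have hK0 : 0 ≤ K ^ 4 := by positivity
  have h2 : c ^ 3 / (8 * (r : ℝ) ^ 4) * n ^ (2 + 1 / (r : ℝ)) ≤ K ^ 4 * ((n * W) * (n * W)) := by
    refine hf.trans (mul_le_mul_of_nonneg_left ?_ hK0)
    exact mul_le_mul hX hY (by positivity) (by positivity)
  have h3 : n ^ (2 + 1 / (r : ℝ)) = n ^ 2 * n ^ (1 / (r : ℝ)) := by
    rw [Real.rpow_add hn0]
    congr 1
    exact_mod_cast Real.rpow_natCast n 2
  rw [h3] at h2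
  have hn2 : 0 < n ^ 2 := by positivity
  have h4 : c ^ 3 / (8 * (r : ℝ) ^ 4) * n ^ (1 / (r : ℝ)) ≤ (K ^ 2 * W) ^ 2 := by
    have : n ^ 2 * (c ^ 3 / (8 * (r : ℝ) ^ 4) * n ^ (1 / (r : ℝ))) ≤ n ^ 2 * (K ^ 2 * W) ^ 2 := by
      calc _ = c ^ 3 / (8 * (r : ℝ) ^ 4) * (n ^ 2 * n ^ (1 / (r : ℝ))) := by ring
        _ ≤ _ := h2
        _ = _ := by ring
    exact le_of_mul_le_mul_left this hn2
  have h5 := Real.sqrt_le_sqrt h4
  rw [Real.sqrt_sq (by positivity), Real.sqrt_mul (by positivity)] at h5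
  have h6 : √(n ^ (1 / (r : ℝ))) = n ^ (1 / (2 * (r : ℝ))) := by
    rw [Real.sqrt_eq_rpow, ← Real.rpow_mul hn0.le]
    congr 1
    field_simp
  rw [h6] at h5
  exact h5

end Run7.h203.SC
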