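import Pool.Agent.Run7.h203.SC.Tree

set_option autoImplicit false

namespace Run7.h203.SC

open Finset

variable {V : Type} [Fintype V]

open Classical in
/-- the pairs accepted by a protocol which accepts only edges -/
theorem pairs_le_of_prot (t : ℕ) (ht : 1 ≤ t) (G : SimpleGraph V)
    (hG : (completeBipartiteGraph (Fin t) (Fin t)).Free G) (T : EqProt V)
    (hT : ∀ u v, u ≠ v → T.eval u v = true → G.Adj u v) :
    ((univ : Finset (V × V)).filter (fun p => p.1 ≠ p.2 ∧ T.eval p.1 p.2 = true)).card ≤
      4 * (t - 1) * 3 ^ T.cost * Fintype.card V := by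
  set E := (univ : Finset (V × V)).filter (fun p => p.1 ≠ p.2 ∧ T.eval p.1 p.2 = true) with hE
  set M := Fintype.card (V → Bool) with hM
  have hM0 : 0 < M := Fintype.card_pos
  have e1 : ∑ χ : V → Bool, 4 * (E.filter (fun p => χ p.1 = true ∧ χ p.2 = false)).card
      = E.card * M := by
    simp only [card_filter]
    rw [← mul_sum, sum_comm, mul_sum]
    have e2 : ∀ p ∈ E, 4 * ∑ χ : V → Bool,
        (if χ p.1 = true ∧ χ p.2 = false then 1 else 0) = M := by
      intro p hp
      rw [← card_filter]
      exact quarter p.1 p.2 (mem_filter.1 hp).2.1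
    rw [sum_congr rfl e2, sum_const, smul_eq_mul, card_filter]
  have e3 : ∀ χ : V → Bool, (E.filter (fun p => χ p.1 = true ∧ χ p.2 = false)).card ≤
      3 ^ T.cost * ((t - 1) * Fintype.card V) := by
    intro χ
    have e4 : E.filter (fun p => χ p.1 = true ∧ χ p.2 = false) ⊆
        (((univ.filter (fun u => χ u = true)) ×ˢ (univ.filter (fun v => χ v = false))).filter
          (fun p => T.eval p.1 p.2 = true)) := by
      intro p hp
      rw [mem_filter, hE, mem_filter] at hp
      obtain ⟨⟨-, hp3⟩, hp5, hp6⟩ := hp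
      rw [mem_filter, mem_product, mem_filter, mem_filter]
      exact ⟨⟨⟨mem_univ _, hp5⟩, ⟨mem_univ _, hp6⟩⟩, hp3.2⟩
    refine (card_le_card e4).trans ?_
    refine (prot_bound t ht T _ _ ?_).trans ?_
    · intro A hA B hB hA' hB'
      by_contra hc
      push Not at hc
      apply hG
      rw [SimpleGraph.completeBipartiteGraph_isContained_iff]
      refine ⟨A, B, by simpa using hA', by simpa using hB', ?_⟩
      intro u hu v hv
      rw [mem_coe] at hu hv
      have h4 := (mem_filter.1 (hA hu)).2
      have h5 := (mem_filter.1 (hB hv)).2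
      have huv : u ≠ v := by
        rintro rfl
        rw [h5] at h4
        exact absurd h4 (by decide)
      have h6 := hc u hu v hv
      apply hT u v huv
      simpa using h6
    · apply Nat.mul_le_mul_left
      apply Nat.mul_le_mul_left
      rw [← card_union_of_disjoint]
      · exact card_le_univ _
      · rw [disjoint_left]
        intro x hx hx'
        rw [mem_filter] at hx hx'
        rw [hx.2] at hx'
        exact absurd hx'.2 (by decide)
  have e8 : E.card * M ≤ (4 * (3 ^ T.cost * ((t - 1) * Fintype.card V))) * M := by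
    rw [← e1]
    calc ∑ χ : V → Bool, 4 * (E.filter (fun p => χ p.1 = true ∧ χ p.2 = false)).card
        ≤ ∑ χ : V → Bool, 4 * (3 ^ T.cost * ((t - 1) * Fintype.card V)) :=
          sum_le_sum (fun χ _ => Nat.mul_le_mul_left _ (e3 χ))
      _ = _ := by
          rw [sum_const, smul_eq_mul, card_univ]
          ring
  refine (Nat.le_of_mul_le_mul_right e8 hM0).trans (le_of_eq ?_)
  ring

/-- protocols with random choices which accept only edges, and every edge with weight `≥ p` -/
theorem prot_random (t : ℕ) (ht : 1 ≤ t) (G : SimpleGraph V)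
    (hG : (completeBipartiteGraph (Fin t) (Fin t)).Free G) (N : ℕ) (T : Fin N → EqProt V)
    (q : Fin N → ℝ) (hq : ∀ i, 0 ≤ q i) (p : ℝ)
    (hT : ∀ i u v, u ≠ v → (T i).eval u v = true → G.Adj u v)
    (hp : ∀ u v, G.Adj u v → p ≤ ∑ i, if (T i).eval u v = true then q i else 0) :
    p * Nat.card G.edgeSet ≤ 2 * (t - 1 : ℕ) * Fintype.card V * ∑ i, q i * 3 ^ (T i).cost := by
  classical
  have h1 : ∀ i, (((univ : Finset (V × V)).filter
      (fun p => p.1 ≠ p.2 ∧ (T i).eval p.1 p.2 = true)).card : ℝ) ≤
      4 * (t - 1 : ℕ) * 3 ^ (T i).cost * Fintype.card V := by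
    intro i
    exact_mod_cast pairs_le_of_prot t ht G hG (T i) (hT i)
  have h2 : (2 : ℝ) * Nat.card G.edgeSet * p ≤
      ∑ x ∈ (univ : Finset (V × V)).filter (fun x => G.Adj x.1 x.2),
        ∑ i, (if (T i).eval x.1 x.2 = true then q i else 0) := by
    have h3 : (2 : ℝ) * Nat.card G.edgeSet * p =
        ∑ x ∈ (univ : Finset (V × V)).filter (fun x => G.Adj x.1 x.2), p := by
      have e5 : ((univ : Finset (V × V)).filter (fun x => G.Adj x.1 x.2)).card =
          2 * Nat.card G.edgeSet := by
        convert card_pairs G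
      rw [sum_const, nsmul_eq_mul, e5]
      push_cast
      ring
    rw [h3]
    apply sum_le_sum
    intro x hx
    exact hp x.1 x.2 (mem_filter.1 hx).2
  rw [sum_comm] at h2
  have h4 : ∀ i, ∑ x ∈ (univ : Finset (V × V)).filter (fun x => G.Adj x.1 x.2),
      (if (T i).eval x.1 x.2 = true then q i else 0) ≤
      q i * (4 * (t - 1 : ℕ) * 3 ^ (T i).cost * Fintype.card V) := by
    intro i
    rw [← sum_filter, sum_const, nsmul_eq_mul, mul_comm]
    apply mul_le_mul_of_nonneg_left _ (hq i)
    refine le_trans ?_ (h1 i)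
    rw [filter_filter]
    apply Nat.cast_le.2
    apply card_le_card
    intro x hx
    rw [mem_filter] at hx ⊢
    exact ⟨mem_univ _, hx.2.1.ne, hx.2.2⟩
  have h5 := h2.trans (sum_le_sum fun i _ => h4 i)
  have h6 : ∑ i, q i * (4 * ((t - 1 : ℕ) : ℝ) * 3 ^ (T i).cost * Fintype.card V) =
      2 * (2 * ((t - 1 : ℕ) : ℝ) * Fintype.card V * ∑ i, q i * 3 ^ (T i).cost) := by
    rw [mul_sum, mul_sum]
    apply sum_congr rfl
    intro i _
    ring
  rw [h6] at h5
  linarith

end Run7.h203.SC
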