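import Pool.Agent.Run7.h203.SC.Final
import Pool.Agent.Run7.h203.SC.Prot
import Pool.Agent.TH815.GR8

set_option autoImplicit false

namespace Run7.h203.SC

open Finset Matrix

variable {V : Type} [Fintype V]

/-- no `K_{2,2}` -/
lemma free_of_girth (G : SimpleGraph V) {k : ℕ} (hk : 2 ≤ k)
    (hg : ∀ (v : V) (p : G.Walk v v), p.IsCycle → 2 * k < p.length) :
    (completeBipartiteGraph (Fin 2) (Fin 2)).Free G := by
  classical
  intro h
  rw [SimpleGraph.completeBipartiteGraph_isContained_iff] at h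
  obtain ⟨L, R, hL, hR, hLR⟩ := h
  rw [Fintype.card_fin] at hL hR
  obtain ⟨x, x', hx, rfl⟩ := card_eq_two.1 hL
  obtain ⟨y, y', hy, rfl⟩ := card_eq_two.1 hR
  have h1 : G.Adj x y := hLR (by simp) (by simp)
  have h2 : G.Adj x' y := hLR (by simp) (by simp)
  have h3 : G.Adj x y' := hLR (by simp) (by simp)
  have h4 : G.Adj x' y' := hLR (by simp) (by simp)
  exact hy (Pool.TH815.GR.c4_free G hk hg hx h1 h2 h3 h4)

/-- the graph inside a set of vertices -/
def insideOf (G : SimpleGraph V) (U : Finset V) : SimpleGraph V where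
  Adj x y := G.Adj x y ∧ x ∈ U ∧ y ∈ U
  symm := ⟨fun _ _ h => ⟨h.1.symm, h.2.2, h.2.1⟩⟩
  loopless := ⟨fun _ h => h.1.ne rfl⟩

open Classical in
lemma Q_le_girth (G : SimpleGraph V) {k : ℕ} (hk : 2 ≤ k)
    (hg : ∀ (v : V) (p : G.Walk v v), p.IsCycle → 2 * k < p.length) (U : Finset V) (D : ℝ)
    (hD : ∀ x ∈ U, (G.degree x : ℝ) ≤ D) (hD0 : 0 ≤ D) :
    ∑ u : V, ∑ u' : V, ((cd (insideOf G U) u u' : ℕ) : ℝ) ^ 2 ≤
      2 * (Fintype.card V * D ^ 2) := by
  set G' := insideOf G U with hG'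
  have hdeg : ∀ u, ((univ.filter (fun v => G'.Adj u v)).card : ℝ) ≤ D := by
    intro u
    by_cases hu : u ∈ U
    · refine le_trans ?_ (hD u hu)
      rw [← SimpleGraph.card_neighborFinset_eq_degree]
      apply Nat.cast_le.2
      apply card_le_card
      intro v hv
      rw [mem_filter] at hv
      rw [SimpleGraph.mem_neighborFinset]
      exact hv.2.1
    · have : univ.filter (fun v => G'.Adj u v) = ∅ := by
        apply filter_eq_empty_iff.2
        intro v _ h
        exact hu h.2.1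
      rw [this]
      simpa using hD0
  have hdeg' : ∀ u, ((univ.filter (fun v => G'.Adj v u)).card : ℝ) ≤ D := by
    intro u
    have : univ.filter (fun v => G'.Adj v u) = univ.filter (fun v => G'.Adj u v) := by
      apply filter_congr
      intro v _
      exact G'.adj_comm v u
    rw [this]
    exact hdeg u
  -- diagonal and off-diagonal terms
  have h1 : ∀ u u', ((cd G' u u' : ℕ) : ℝ) ^ 2 ≤
      (if u = u' then D ^ 2 else 0) + ((cd G' u u' : ℕ) : ℝ) := by
    intro u u'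
    by_cases h : u = u'
    · subst h
      rw [if_pos rfl]
      have h2 : ((cd G' u u : ℕ) : ℝ) ≤ D := by
        unfold cd
        simp only [and_self]
        exact hdeg u
      have h3 : ((cd G' u u : ℕ) : ℝ) ^ 2 ≤ D ^ 2 := pow_le_pow_left₀ (Nat.cast_nonneg _) h2 2
      have h4 : (0 : ℝ) ≤ ((cd G' u u : ℕ) : ℝ) := Nat.cast_nonneg _
      linarith
    · rw [if_neg h, zero_add]
      have h2 : cd G' u u' ≤ 1 := by
        unfold cd
        rw [card_le_one]
        intro y hy y' hy'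
        rw [mem_filter] at hy hy'
        exact Pool.TH815.GR.c4_free G hk hg h hy.2.1.1 hy.2.2.1 hy'.2.1.1 hy'.2.2.1
      have h3 : ((cd G' u u' : ℕ) : ℝ) ≤ 1 := by exact_mod_cast h2
      have h4 : (0 : ℝ) ≤ ((cd G' u u' : ℕ) : ℝ) := Nat.cast_nonneg _
      nlinarith
  have h5 : ∑ u : V, ∑ u' : V, ((cd G' u u' : ℕ) : ℝ) ≤ Fintype.card V * D ^ 2 := by
    have h6 := sum_card_sq G' univ
    rw [univ_product_univ, Fintype.sum_prod_type] at h6
    have h7 : ∀ v : V, (((univ : Finset V).filter (fun u => G'.Adj u v)).card : ℝ) ^ 2 ≤ D ^ 2 :=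
      fun v => pow_le_pow_left₀ (Nat.cast_nonneg _) (hdeg' v) 2
    calc ∑ u : V, ∑ u' : V, ((cd G' u u' : ℕ) : ℝ) =
        ∑ v : V, (((univ : Finset V).filter (fun u => G'.Adj u v)).card : ℝ) ^ 2 := h6.symm
      _ ≤ ∑ _v : V, D ^ 2 := sum_le_sum fun v _ => h7 v
      _ = _ := by rw [sum_const, card_univ, nsmul_eq_mul]
  calc ∑ u : V, ∑ u' : V, ((cd G' u u' : ℕ) : ℝ) ^ 2
      ≤ ∑ u : V, ∑ u' : V, ((if u = u' then D ^ 2 else 0) + ((cd G' u u' : ℕ) : ℝ)) :=
        sum_le_sum fun u _ => sum_le_sum fun u' _ => h1 u u'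
    _ = Fintype.card V * D ^ 2 + ∑ u : V, ∑ u' : V, ((cd G' u u' : ℕ) : ℝ) := by
        simp only [sum_add_distrib]
        congr 1
        simp only [sum_ite_eq, mem_univ, if_true, sum_const, card_univ, nsmul_eq_mul]
    _ ≤ _ := by linarith

open Classical in
/-- the almost regular part -/
lemma regular_part (G : SimpleGraph V) {k : ℕ} (hk : 2 ≤ k)
    (hg : ∀ (v : V) (p : G.Walk v v), p.IsCycle → 2 * k < p.length) (c : ℝ) (hc : 0 < c)
    (hn : 64 / c ≤ (Fintype.card V : ℝ) ^ (1 / (k : ℝ)))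
    (he : c * (Fintype.card V : ℝ) ^ (1 + 1 / (k : ℝ)) ≤ Nat.card G.edgeSet) :
    ∃ U : Finset V,
      (Nat.card G.edgeSet : ℝ) / 2 ≤ Nat.card (insideOf G U).edgeSet ∧
      ∀ x ∈ U, (G.degree x : ℝ) ≤ 512 / c * (Fintype.card V : ℝ) ^ (1 / (k : ℝ)) := by
  have hcard : (Nat.card G.edgeSet : ℝ) = (G.edgeFinset.card : ℝ) := by
    rw [Nat.card_eq_fintype_card, ← SimpleGraph.edgeFinset_card]
  rw [hcard] at he
  obtain ⟨U, hU, hU'⟩ := Pool.TH815.GR.almost_all G (by omega : 1 ≤ k) hg c (1 / 2) hc (by norm_num)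
    (by
      have : 32 / (1 / 2 * c) = 64 / c := by field_simp; norm_num
      rw [this]; exact hn) he
  refine ⟨U, ?_, ?_⟩
  · have h1 := card_pairs (insideOf G U)
    have h2 : (((univ : Finset (V × V)).filter (fun p => (insideOf G U).Adj p.1 p.2)).card : ℝ) =
        ∑ x ∈ U, ((U.filter fun y => G.Adj x y).card : ℝ) := by
      rw [card_filter, ← univ_product_univ, sum_product, Nat.cast_sum]
      have h3 : ∀ x, x ∉ U → (((∑ y : V, if (insideOf G U).Adj (x, y).1 (x, y).2 then 1 else 0 : ℕ)) : ℝ) = 0 := by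
        intro x hx
        have : (∑ y : V, if (insideOf G U).Adj (x, y).1 (x, y).2 then 1 else 0 : ℕ) = 0 := by
          apply sum_eq_zero
          intro y _
          rw [if_neg]
          intro h
          exact hx h.2.1
        exact_mod_cast this
      rw [← sum_subset (subset_univ U) (fun x _ hx => h3 x hx)]
      apply sum_congr rfl
      intro x hx
      congr 1
      rw [card_filter, ← sum_subset (subset_univ U)]
      · apply sum_congr rfl
        intro y hy
        have h4 : (insideOf G U).Adj (x, y).1 (x, y).2 ↔ G.Adj x y :=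
          ⟨fun h => h.1, fun h => ⟨h, hx, hy⟩⟩
        by_cases h5 : G.Adj x y
        · rw [if_pos h5, if_pos (h4.2 h5)]
        · rw [if_neg h5, if_neg (fun h => h5 (h4.1 h))]
      · intro y _ hy
        rw [if_neg]
        intro h
        exact hy h.2.2
    rw [hcard]
    have h3 : (((univ : Finset (V × V)).filter (fun p => (insideOf G U).Adj p.1 p.2)).card : ℝ) =
        2 * (Nat.card (insideOf G U).edgeSet : ℝ) := by
      rw [h1]; push_cast; rfl
    rw [h2] at h3
    linarith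
  · intro x hx
    have h1 := (hU' x hx).2
    have : 256 / (1 / 2 * c) = 512 / c := by field_simp; norm_num
    rw [this] at h1
    exact h1

/-- every field -/
theorem girth_field (G : SimpleGraph V) {k : ℕ} (hk : 2 ≤ k)
    (hg : ∀ (v : V) (p : G.Walk v v), p.IsCycle → 2 * k < p.length) (c : ℝ) (hc : 0 < c)
    (hn0 : (0 : ℝ) < Fintype.card V)
    (hn : 64 / c ≤ (Fintype.card V : ℝ) ^ (1 / (k : ℝ)))
    (he : c * (Fintype.card V : ℝ) ^ (1 + 1 / (k : ℝ)) ≤ Nat.card G.edgeSet)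
    (F : Type) [Field F] (B : Matrix V V F) (hB : ∀ u v, u ≠ v → (B u v ≠ 0 ↔ G.Adj u v)) :
    c ^ 3 / 1048576 * (Fintype.card V : ℝ) ^ (1 - 1 / (k : ℝ)) ≤ B.rank := by
  classical
  obtain ⟨U, hU, hdeg⟩ := regular_part G hk hg c hc hn he
  set n : ℝ := (Fintype.card V : ℝ) with hndef
  set D : ℝ := 512 / c * n ^ (1 / (k : ℝ)) with hD
  have hDpos : 0 < D := by positivity
  obtain ⟨X, Y, hXY, hcut⟩ := exists_cut' (insideOf G U)
  set X' := X.filter (fun u => ∃ v ∈ Y, (insideOf G U).Adj u v) with hX'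
  have h1 : (∑ u ∈ X, (Y.filter (fun v => (insideOf G U).Adj u v)).card : ℕ) ≤
      ∑ u ∈ X', (Y.filter (fun v => (insideOf G U).Adj u v)).card := by
    rw [← sum_filter_add_sum_filter_not X (fun u => ∃ v ∈ Y, (insideOf G U).Adj u v)]
    have h2 : ∑ u ∈ X.filter (fun u => ¬ ∃ v ∈ Y, (insideOf G U).Adj u v),
        (Y.filter (fun v => (insideOf G U).Adj u v)).card = 0 := by
      apply sum_eq_zero
      intro u hu
      have h3 := (mem_filter.1 hu).2
      rw [card_eq_zero, filter_eq_empty_iff]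
      intro v hv h
      exact h3 ⟨v, hv, h⟩
    rw [h2, add_zero]
  have h2 : ((∑ u ∈ X', (Y.filter (fun v => (insideOf G U).Adj u v)).card : ℕ) : ℝ) ≤ X'.card * D := by
    rw [Nat.cast_sum]
    refine (sum_le_sum (g := fun _ => D) ?_).trans (le_of_eq ?_)
    · intro u hu
      obtain ⟨v, hv, huv⟩ := (mem_filter.1 hu).2
      refine le_trans ?_ (hdeg u huv.2.1)
      rw [← SimpleGraph.card_neighborFinset_eq_degree]
      apply Nat.cast_le.2
      apply card_le_card
      intro w hw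
      rw [mem_filter] at hw
      rw [SimpleGraph.mem_neighborFinset]
      exact hw.2.1
    · rw [sum_const, nsmul_eq_mul]
  have h3 : (Nat.card (insideOf G U).edgeSet : ℝ) ≤ 2 * (X'.card * D) := by
    have h4 : ((Nat.card (insideOf G U).edgeSet : ℕ) : ℝ) ≤
        ((2 * ∑ u ∈ X', (Y.filter (fun v => (insideOf G U).Adj u v)).card : ℕ) : ℝ) := by
      exact_mod_cast hcut.trans (Nat.mul_le_mul_left _ h1)
    rw [Nat.cast_mul] at h4
    push_cast at h4 h2
    linarith
  -- the number of rows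
  have hn1 : n ^ (1 + 1 / (k : ℝ)) = n * n ^ (1 / (k : ℝ)) := by
    rw [Real.rpow_add hn0, Real.rpow_one]
  have hpk : 0 < n ^ (1 / (k : ℝ)) := by positivity
  have h4 : c ^ 2 / 2048 * n ≤ X'.card := by
    have h5 : c * (n * n ^ (1 / (k : ℝ))) ≤ 4 * (X'.card * (512 / c * n ^ (1 / (k : ℝ)))) := by
      rw [← hn1]; linarith
    have h6 : c * n * n ^ (1 / (k : ℝ)) ≤ (2048 / c * X'.card) * n ^ (1 / (k : ℝ)) := by
      calc _ = c * (n * n ^ (1 / (k : ℝ))) := by ring
        _ ≤ _ := h5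
        _ = _ := by ring
    have h7 := le_of_mul_le_mul_right h6 hpk
    have h8 : c ^ 2 / 2048 * n = c / 2048 * (c * n) := by ring
    rw [h8]
    calc c / 2048 * (c * n) ≤ c / 2048 * (2048 / c * X'.card) :=
          mul_le_mul_of_nonneg_left h7 (by positivity)
      _ = X'.card := by field_simp
  have hne : X'.Nonempty := by
    rw [← card_pos]
    have : (0 : ℝ) < X'.card := lt_of_lt_of_le (by positivity) h4
    exact_mod_cast this
  obtain ⟨v, hv, hcov⟩ := cover B X' (Y.filter (fun v => v ∈ U)) (by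
    intro u hu
    have hu' := mem_filter.1 hu
    obtain ⟨v, hv, huv⟩ := hu'.2
    refine ⟨v, mem_filter.2 ⟨hv, huv.2.2⟩, ?_⟩
    have : u ≠ v := huv.1.ne
    exact (hB u v this).2 huv.1) hne
  rw [mem_filter] at hv
  have h5 : ((X'.filter (fun u => B u v ≠ 0)).card : ℝ) ≤ D := by
    refine le_trans ?_ (hdeg v hv.2)
    rw [← SimpleGraph.card_neighborFinset_eq_degree]
    apply Nat.cast_le.2
    apply card_le_card
    intro u hu
    rw [mem_filter] at hu
    rw [SimpleGraph.mem_neighborFinset]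
    have hne' : u ≠ v := by
      rintro rfl
      exact (disjoint_left.1 hXY) (mem_filter.1 hu.1).1 hv.1
    exact ((hB u v hne').1 hu.2).symm
  have h6 : (X'.card : ℝ) ≤ B.rank * D := by
    calc (X'.card : ℝ) ≤ ((B.rank * (X'.filter (fun u => B u v ≠ 0)).card : ℕ) : ℝ) := by
          exact_mod_cast hcov
      _ = B.rank * ((X'.filter (fun u => B u v ≠ 0)).card : ℝ) := by push_cast; rfl
      _ ≤ _ := mul_le_mul_of_nonneg_left h5 (Nat.cast_nonneg _)
  have h7 : c ^ 2 / 2048 * n ≤ B.rank * (512 / c * n ^ (1 / (k : ℝ))) := h4.trans h6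
  have h8 : n = n ^ (1 - 1 / (k : ℝ)) * n ^ (1 / (k : ℝ)) := by
    rw [← Real.rpow_add hn0]
    have : (1 - 1 / (k : ℝ)) + 1 / (k : ℝ) = 1 := by ring
    rw [this, Real.rpow_one]
  have h9 : (c ^ 2 / 2048 * n ^ (1 - 1 / (k : ℝ))) * n ^ (1 / (k : ℝ)) ≤
      (B.rank * (512 / c)) * n ^ (1 / (k : ℝ)) := by
    calc _ = c ^ 2 / 2048 * (n ^ (1 - 1 / (k : ℝ)) * n ^ (1 / (k : ℝ))) := by ring
      _ = c ^ 2 / 2048 * n := by rw [← h8]
      _ ≤ _ := h7
      _ = _ := by ring
  have h10 := le_of_mul_le_mul_right h9 hpk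
  have h11 : c ^ 3 / 1048576 * n ^ (1 - 1 / (k : ℝ)) =
      c / 512 * (c ^ 2 / 2048 * n ^ (1 - 1 / (k : ℝ))) := by ring
  rw [h11]
  calc c / 512 * (c ^ 2 / 2048 * n ^ (1 - 1 / (k : ℝ))) ≤ c / 512 * (B.rank * (512 / c)) :=
        mul_le_mul_of_nonneg_left h10 (by positivity)
    _ = B.rank := by field_simp

/-- factorisations -/
theorem girth_factor (G : SimpleGraph V) {k : ℕ} (hk : 2 ≤ k)
    (hg : ∀ (v : V) (p : G.Walk v v), p.IsCycle → 2 * k < p.length) (c : ℝ) (hc : 0 < c)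
    (hn0 : (0 : ℝ) < Fintype.card V)
    (hn : 64 / c ≤ (Fintype.card V : ℝ) ^ (1 / (k : ℝ)))
    (he : c * (Fintype.card V : ℝ) ^ (1 + 1 / (k : ℝ)) ≤ Nat.card G.edgeSet)
    (K : ℝ) {H : Type*} [NormedAddCommGroup H] [InnerProductSpace ℝ H] (x y : V → H)
    (h1 : ∀ u v, G.Adj u v → 1 ≤ |inner ℝ (x u) (y v)| ∧ |inner ℝ (x u) (y v)| ≤ K)
    (h0 : ∀ u v, u ≠ v → ¬ G.Adj u v → inner ℝ (x u) (y v) = 0) :
    c ^ 5 / 33554432 * (Fintype.card V : ℝ) ^ (2 + 1 / (k : ℝ)) ≤
      K ^ 4 * ((∑ u, ‖x u‖ ^ 2) * ∑ v, ‖y v‖ ^ 2) := by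
  classical
  obtain ⟨U, hU, hdeg⟩ := regular_part G hk hg c hc hn he
  set n : ℝ := (Fintype.card V : ℝ) with hndef
  set D : ℝ := 512 / c * n ^ (1 / (k : ℝ)) with hD
  have hDpos : 0 < D := by positivity
  have hQ := Q_le_girth G hk hg U D hdeg hDpos.le
  set x' : V → H := fun u => if u ∈ U then x u else 0 with hx'
  set y' : V → H := fun v => if v ∈ U then y v else 0 with hy'
  have hin : ∀ u v, u ∈ U → v ∈ U → inner ℝ (x' u) (y' v) = inner ℝ (x u) (y v) := by
    intro u v hu hv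
    simp only [hx', hy', if_pos hu, if_pos hv]
  have hb := factor_bound (insideOf G U) K x' y'
    (fun u v h => by rw [hin u v h.2.1 h.2.2]; exact (h1 u v h.1).1)
    (fun u v h => by rw [hin u v h.2.1 h.2.2]; exact (h1 u v h.1).2)
    (fun u v hne h => by
      by_cases hu : u ∈ U
      · by_cases hv : v ∈ U
        · rw [hin u v hu hv]
          exact h0 u v hne (fun h' => h ⟨h', hu, hv⟩)
        · simp [hy', hv]
      · simp [hx', hu])
  have hx : ∑ u, ‖x' u‖ ^ 2 ≤ ∑ u, ‖x u‖ ^ 2 := by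
    apply sum_le_sum
    intro u _
    simp only [hx']
    split_ifs
    · exact le_rfl
    · simp
  have hy : ∑ u, ‖y' u‖ ^ 2 ≤ ∑ u, ‖y u‖ ^ 2 := by
    apply sum_le_sum
    intro u _
    simp only [hy']
    split_ifs
    · exact le_rfl
    · simp
  set P := (∑ u, ‖x u‖ ^ 2) * ∑ v, ‖y v‖ ^ 2 with hP
  have hP' : (∑ u, ‖x' u‖ ^ 2) * ∑ v, ‖y' v‖ ^ 2 ≤ P :=
    mul_le_mul hx hy (by positivity) (by positivity)
  have hP0 : 0 ≤ P := by positivity
  have hn1 : n ^ (1 + 1 / (k : ℝ)) = n * n ^ (1 / (k : ℝ)) := by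
    rw [Real.rpow_add hn0, Real.rpow_one]
  have hn2 : n ^ (2 + 1 / (k : ℝ)) = n ^ 2 * n ^ (1 / (k : ℝ)) := by
    rw [Real.rpow_add hn0]
    congr 1
    exact_mod_cast Real.rpow_natCast n 2
  set N := n ^ (1 / (k : ℝ)) with hN
  have hpk : 0 < N := by positivity
  have h2 : (c * (n * N) / 4) ^ 3 ≤ P * (K ^ 4 * (2 * (n * D ^ 2))) := by
    calc (c * (n * N) / 4) ^ 3 ≤ ((Nat.card (insideOf G U).edgeSet : ℝ) / 2) ^ 3 := by
          apply pow_le_pow_left₀ (by positivity)
          rw [hn1] at he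
          linarith
      _ ≤ _ := hb
      _ ≤ P * (K ^ 4 * ∑ u : V, ∑ u' : V, ((cd (insideOf G U) u u' : ℕ) : ℝ) ^ 2) :=
          mul_le_mul_of_nonneg_right hP' (by positivity)
      _ ≤ _ := by gcongr
  rw [hn2]
  have hpos : 0 < 2 * n * D ^ 2 := by positivity
  have h3 : (c ^ 5 / 33554432 * (n ^ 2 * N)) * (2 * n * D ^ 2) ≤ (K ^ 4 * P) * (2 * n * D ^ 2) := by
    calc (c ^ 5 / 33554432 * (n ^ 2 * N)) * (2 * n * D ^ 2) = (c * (n * N) / 4) ^ 3 := by
          rw [hD]
          field_simp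
          ring
      _ ≤ _ := h2
      _ = _ := by ring
  exact le_of_mul_le_mul_right h3 hpos

omit [Fintype V] in
/-- combinations of equalities as inner products -/
lemma equal_vectors (k N : ℕ) (a : Fin k → ℝ) (f g : Fin k → V → Fin N) :
    ∃ x y : V → EuclideanSpace ℝ (Fin k × Fin N),
      (∀ u v, inner ℝ (x u) (y v) = ∑ i, if f i u = g i v then a i else 0) ∧
      (∀ u, ‖x u‖ ^ 2 ≤ ∑ i, |a i|) ∧ (∀ v, ‖y v‖ ^ 2 ≤ ∑ i, |a i|) := by
  classical
  refine ⟨fun u => WithLp.toLp 2 (fun p => if f p.1 u = p.2 then √|a p.1| else 0),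
    fun v => WithLp.toLp 2 (fun p => if g p.1 v = p.2 then SignType.sign (a p.1) * √|a p.1| else 0),
    ?_, ?_, ?_⟩
  · intro u v
    rw [PiLp.inner_apply, Fintype.sum_prod_type]
    apply sum_congr rfl
    intro i _
    have e1 : ∀ l : Fin N, inner ℝ
        ((WithLp.toLp 2 (fun p : Fin k × Fin N => if f p.1 u = p.2 then √|a p.1| else 0) :
          EuclideanSpace ℝ (Fin k × Fin N)) (i, l))
        ((WithLp.toLp 2 (fun p : Fin k × Fin N => if g p.1 v = p.2 then
          SignType.sign (a p.1) * √|a p.1| else 0) : EuclideanSpace ℝ (Fin k × Fin N)) (i, l)) =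
        if l = g i v then (if f i u = g i v then a i else 0) else 0 := by
      intro l
      by_cases e2 : l = g i v
      · subst e2
        by_cases e3 : f i u = g i v
        · rw [if_pos rfl, if_pos e3]
          simp only [e3, if_true, RCLike.inner_apply, conj_trivial]
          calc SignType.sign (a i) * √|a i| * √|a i| = SignType.sign (a i) * (√|a i| * √|a i|) := by ring
            _ = SignType.sign (a i) * |a i| := by rw [Real.mul_self_sqrt (abs_nonneg _)]
            _ = a i := sign_mul_abs (a i)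
        · simp [e3]
      · have e3 : ¬ g i v = l := fun h => e2 h.symm
        simp [e2, e3]
    rw [sum_congr rfl (fun l _ => e1 l), sum_ite_eq' univ (g i v), if_pos (mem_univ _)]
  · intro u
    rw [EuclideanSpace.norm_sq_eq, Fintype.sum_prod_type]
    apply sum_le_sum
    intro i _
    have e1 : ∀ l : Fin N, ‖((WithLp.toLp 2 (fun p : Fin k × Fin N => if f p.1 u = p.2 then √|a p.1| else 0) :
          EuclideanSpace ℝ (Fin k × Fin N)) (i, l))‖ ^ 2 = if l = f i u then |a i| else 0 := by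
      intro l
      by_cases e2 : f i u = l
      · rw [if_pos e2.symm]
        simp only [e2, if_true]
        rw [Real.norm_eq_abs, sq_abs, Real.sq_sqrt (abs_nonneg _)]
      · rw [if_neg (fun h => e2 h.symm)]; simp [e2]
    rw [sum_congr rfl (fun l _ => e1 l), sum_ite_eq' univ (f i u), if_pos (mem_univ _)]
  · intro v
    rw [EuclideanSpace.norm_sq_eq, Fintype.sum_prod_type]
    apply sum_le_sum
    intro i _
    have e1 : ∀ l : Fin N, ‖((WithLp.toLp 2 (fun p : Fin k × Fin N => if g p.1 v = p.2 then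
          SignType.sign (a p.1) * √|a p.1| else 0) :
          EuclideanSpace ℝ (Fin k × Fin N)) (i, l))‖ ^ 2 = if l = g i v then |a i| else 0 := by
      intro l
      by_cases e2 : g i v = l
      · rw [if_pos e2.symm]
        simp only [e2, if_true]
        rw [Real.norm_eq_abs, sq_abs, mul_pow, Real.sq_sqrt (abs_nonneg _)]
        rcases lt_trichotomy (a i) 0 with h | h | h
        · simp [sign_neg h]
        · simp [h]
        · simp [sign_pos h]
      · rw [if_neg (fun h => e2 h.symm)]; simp [e2]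
    rw [sum_congr rfl (fun l _ => e1 l), sum_ite_eq' univ (g i v), if_pos (mem_univ _)]

end Run7.h203.SC
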