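import Pool.Agent.Run7.h203.SC.MProt

set_option autoImplicit false

namespace Run7.h203.SC

open Finset Matrix

/-- A protocol with equality queries and comparisons for two players who know one element of `V` each.
In a query each player assigns a label to his element, and both learn whether the two labels are equal,
or whether the first label (a number less than `2 ^ l`) is less than the second one. A leaf accepts
the pairs of a relation `R`. -/
inductive LProt (V : Type) : Type
  | leaf (R : V → V → Prop) : LProt V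
  | query (N : ℕ) (f g : V → Fin N) (yes no : LProt V) : LProt V
  | less (l : ℕ) (f g : V → Fin (2 ^ l)) (yes no : LProt V) : LProt V

namespace LProt

variable {V : Type}

/-- the pair of the first player's element `u` and the second player's element `v` is accepted -/
def Accepts : LProt V → V → V → Prop
  | leaf R, u, v => R u v
  | query _ f g yes no, u, v => (f u = g v ∧ yes.Accepts u v) ∨ (f u ≠ g v ∧ no.Accepts u v)
  | less _ f g yes no, u, v => ((f u).1 < (g v).1 ∧ yes.Accepts u v) ∨
      (¬ (f u).1 < (g v).1 ∧ no.Accepts u v)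

/-- The weight of a protocol. It is at most `3 ^ q` for `q` equality queries, and at most
`(2 l + 1) ^ q` for `q` comparisons of numbers less than `2 ^ l`. -/
def wt : LProt V → ℕ
  | leaf _ => 1
  | query _ _ _ yes no => yes.wt + 2 * no.wt
  | less l _ _ yes no => l * yes.wt + (l + 1) * no.wt

/-- the relations at the leaves satisfy `L` -/
def Leaves (L : (V → V → Prop) → Prop) : LProt V → Prop
  | leaf R => L R
  | query _ _ _ yes no => yes.Leaves L ∧ no.Leaves L
  | less _ _ _ yes no => yes.Leaves L ∧ no.Leaves L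

end LProt

section blocks

variable {V : Type}

open Classical in
/-- pairs with equal labels -/
lemma eq_blocks (P : V → V → Prop) (B : ℕ) (f g : V → ℕ) (X Y : Finset V)
    (h : ∀ X' ⊆ X, ∀ Y' ⊆ Y, (∀ u ∈ X', ∀ v ∈ Y', f u = g v) →
      ((X' ×ˢ Y').filter (fun p => P p.1 p.2)).card ≤ B * (X'.card + Y'.card)) :
    ((X ×ˢ Y).filter (fun p => P p.1 p.2 ∧ f p.1 = g p.2)).card ≤ B * (X.card + Y.card) := by
  set I := X.image f ∪ Y.image g with hI
  have h2 : (X ×ˢ Y).filter (fun p => P p.1 p.2 ∧ f p.1 = g p.2) ⊆ I.biUnion (fun l =>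
      (((X.filter (fun u => f u = l)) ×ˢ (Y.filter (fun v => g v = l))).filter
        (fun p => P p.1 p.2))) := by
    intro p hp
    rw [mem_filter, mem_product] at hp
    obtain ⟨⟨hp1, hp2⟩, hp3, hp4⟩ := hp
    rw [mem_biUnion]
    refine ⟨g p.2, mem_union_right _ (mem_image_of_mem _ hp2), ?_⟩
    rw [mem_filter, mem_product, mem_filter, mem_filter]
    exact ⟨⟨⟨hp1, hp4⟩, ⟨hp2, rfl⟩⟩, hp3⟩
  refine (card_le_card h2).trans (card_biUnion_le.trans ?_)
  have h3 : ∀ l ∈ I, (((X.filter (fun u => f u = l)) ×ˢ (Y.filter (fun v => g v = l))).filter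
        (fun p => P p.1 p.2)).card ≤
      B * ((X.filter (fun u => f u = l)).card + (Y.filter (fun v => g v = l)).card) := by
    intro l _
    apply h _ (filter_subset _ _) _ (filter_subset _ _)
    intro u hu v hv
    rw [(mem_filter.1 hu).2, (mem_filter.1 hv).2]
  refine (sum_le_sum h3).trans ?_
  rw [← mul_sum, sum_add_distrib]
  have h4 : ∑ l ∈ I, (X.filter (fun u => f u = l)).card = X.card :=
    (card_eq_sum_card_fiberwise (f := f) (t := I)
      (fun u hu => mem_coe.2 (mem_union_left _ (mem_image_of_mem _ (mem_coe.1 hu))))).symm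
  have h5 : ∑ l ∈ I, (Y.filter (fun v => g v = l)).card = Y.card :=
    (card_eq_sum_card_fiberwise (f := g) (t := I)
      (fun u hu => mem_coe.2 (mem_union_right _ (mem_image_of_mem _ (mem_coe.1 hu))))).symm
  rw [h4, h5]

open Classical in
/-- pairs with a smaller first label -/
lemma lt_blocks (P : V → V → Prop) (B L : ℕ) : ∀ (f g : V → ℕ) (X Y : Finset V),
    (∀ u ∈ X, f u < 2 ^ L) → (∀ v ∈ Y, g v < 2 ^ L) →
    (∀ X' ⊆ X, ∀ Y' ⊆ Y, (∀ u ∈ X', ∀ v ∈ Y', f u < g v) →
      ((X' ×ˢ Y').filter (fun p => P p.1 p.2)).card ≤ B * (X'.card + Y'.card)) →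
    ((X ×ˢ Y).filter (fun p => P p.1 p.2 ∧ f p.1 < g p.2)).card ≤ L * B * (X.card + Y.card) := by
  induction L with
  | zero =>
    intro f g X Y hf hg _
    have : (X ×ˢ Y).filter (fun p => P p.1 p.2 ∧ f p.1 < g p.2) = ∅ := by
      rw [filter_eq_empty_iff]
      intro p hp h
      rw [mem_product] at hp
      have h1 := hg p.2 hp.2
      have h2 := h.2
      rw [pow_zero] at h1
      omega
    rw [this, card_empty]
    exact Nat.zero_le _
  | succ L ih =>
    intro f g X Y hf hg h
    have h1 := ih (fun u => f u / 2) (fun v => g v / 2) X Y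
      (by intro u hu; have := hf u hu; rw [pow_succ] at this; omega)
      (by intro u hu; have := hg u hu; rw [pow_succ] at this; omega)
      (by
        intro X' hX Y' hY hlt
        apply h X' hX Y' hY
        intro u hu v hv
        have := hlt u hu v hv
        omega)
    set X0 := X.filter (fun u => f u % 2 = 0) with hX0
    set Y1 := Y.filter (fun v => g v % 2 = 1) with hY1
    have h2 := eq_blocks P B (fun u => f u / 2) (fun v => g v / 2) X0 Y1
      (by
        intro X' hX Y' hY heq
        apply h X' (hX.trans (filter_subset _ _)) Y' (hY.trans (filter_subset _ _))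
        intro u hu v hv
        have e1 := heq u hu v hv
        have e2 := (mem_filter.1 (hX hu)).2
        have e3 := (mem_filter.1 (hY hv)).2
        omega)
    have h3 : (X ×ˢ Y).filter (fun p => P p.1 p.2 ∧ f p.1 < g p.2) ⊆
        (X ×ˢ Y).filter (fun p => P p.1 p.2 ∧ f p.1 / 2 < g p.2 / 2) ∪
        (X0 ×ˢ Y1).filter (fun p => P p.1 p.2 ∧ f p.1 / 2 = g p.2 / 2) := by
      intro p hp
      rw [mem_filter, mem_product] at hp
      obtain ⟨⟨hp1, hp2⟩, hp3, hp4⟩ := hp
      rw [mem_union]
      by_cases hc : f p.1 / 2 < g p.2 / 2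
      · left
        rw [mem_filter, mem_product]
        exact ⟨⟨hp1, hp2⟩, hp3, hc⟩
      · right
        rw [mem_filter, mem_product, hX0, hY1, mem_filter, mem_filter]
        exact ⟨⟨⟨hp1, by omega⟩, ⟨hp2, by omega⟩⟩, hp3, by omega⟩
    have h4 : X0.card ≤ X.card := card_filter_le _ _
    have h5 : Y1.card ≤ Y.card := card_filter_le _ _
    have h6 : B * (X0.card + Y1.card) ≤ B * (X.card + Y.card) :=
      Nat.mul_le_mul_left _ (by omega)
    calc _ ≤ _ := card_le_card h3
      _ ≤ _ := card_union_le _ _
      _ ≤ L * B * (X.card + Y.card) + B * (X.card + Y.card) := Nat.add_le_add h1 (h2.trans h6)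
      _ = (L + 1) * B * (X.card + Y.card) := by ring

open Classical in
/-- the other pairs -/
lemma ge_blocks (P : V → V → Prop) (B L : ℕ) (f g : V → ℕ) (X Y : Finset V)
    (hf : ∀ u ∈ X, f u < 2 ^ L) (hg : ∀ v ∈ Y, g v < 2 ^ L)
    (h : ∀ X' ⊆ X, ∀ Y' ⊆ Y, (∀ u ∈ X', ∀ v ∈ Y', ¬ f u < g v) →
      ((X' ×ˢ Y').filter (fun p => P p.1 p.2)).card ≤ B * (X'.card + Y'.card)) :
    ((X ×ˢ Y).filter (fun p => P p.1 p.2 ∧ ¬ f p.1 < g p.2)).card ≤
      (L + 1) * B * (X.card + Y.card) := by
  have hsw : ∀ (Q : V → V → Prop) (A C : Finset V), ((C ×ˢ A).filter (fun p => Q p.2 p.1)).card =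
      ((A ×ˢ C).filter (fun p => Q p.1 p.2)).card := by
    intro Q A C
    apply card_bij (fun q _ => (q.2, q.1))
    · intro q hq
      rw [mem_filter, mem_product] at hq ⊢
      exact ⟨⟨hq.1.2, hq.1.1⟩, hq.2⟩
    · intro q _ r _ h
      rw [Prod.mk.injEq] at h
      exact Prod.ext h.2 h.1
    · intro q hq
      rw [mem_filter, mem_product] at hq
      exact ⟨(q.2, q.1), by rw [mem_filter, mem_product]; exact ⟨⟨hq.1.2, hq.1.1⟩, hq.2⟩, rfl⟩
  have h1 := lt_blocks (fun v u => P u v) B L g f Y X hg hf (by
    intro Y' hY X' hX hlt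
    rw [hsw P X' Y', add_comm]
    apply h X' hX Y' hY
    intro u hu v hv
    have := hlt v hv u hu
    omega)
  have h2 := eq_blocks P B f g X Y (by
    intro X' hX Y' hY heq
    apply h X' hX Y' hY
    intro u hu v hv
    have := heq u hu v hv
    omega)
  have h1' : ((X ×ˢ Y).filter (fun p => P p.1 p.2 ∧ g p.2 < f p.1)).card ≤
      L * B * (X.card + Y.card) := by
    rw [add_comm X.card]
    refine le_trans (le_of_eq ?_) h1
    convert (hsw (fun u v => P u v ∧ g v < f u) X Y).symm
  have h3 : (X ×ˢ Y).filter (fun p => P p.1 p.2 ∧ ¬ f p.1 < g p.2) ⊆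
      (X ×ˢ Y).filter (fun p => P p.1 p.2 ∧ g p.2 < f p.1) ∪
      (X ×ˢ Y).filter (fun p => P p.1 p.2 ∧ f p.1 = g p.2) := by
    intro p hp
    rw [mem_filter] at hp
    obtain ⟨hp1, hp3, hp4⟩ := hp
    rw [mem_union, mem_filter, mem_filter]
    by_cases hc : g p.2 < f p.1
    · exact Or.inl ⟨hp1, hp3, hc⟩
    · exact Or.inr ⟨hp1, hp3, by omega⟩
  calc _ ≤ _ := card_le_card h3
    _ ≤ _ := card_union_le _ _
    _ ≤ L * B * (X.card + Y.card) + B * (X.card + Y.card) := Nat.add_le_add h1' h2
    _ = (L + 1) * B * (X.card + Y.card) := by ring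

end blocks

variable {V : Type} [Fintype V]

open Classical in
/-- The number of accepted pairs. `Free R X Y` is any property of the relation `R` between `X` and `Y`
which is inherited by smaller relations and smaller sets. -/
lemma lprot_bound (Free : (V → V → Prop) → Finset V → Finset V → Prop)
    (hFree : ∀ R R' X X' Y Y', X' ⊆ X → Y' ⊆ Y → (∀ u ∈ X', ∀ v ∈ Y', R' u v → R u v) →
      Free R X Y → Free R' X' Y')
    (L : (V → V → Prop) → Prop) (Λ : ℕ)
    (hL : ∀ R X Y, L R → Free R X Y →
      ((X ×ˢ Y).filter (fun p => R p.1 p.2)).card ≤ Λ * (X.card + Y.card))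
    (T : LProt V) : T.Leaves L → ∀ X Y : Finset V, Free T.Accepts X Y →
    ((X ×ˢ Y).filter (fun p => T.Accepts p.1 p.2)).card ≤
      T.wt * (Λ * (X.card + Y.card)) := by
  induction T with
  | leaf R =>
    intro hT X Y h
    have h1 := hL R X Y hT h
    simp only [LProt.wt, one_mul]
    exact h1
  | query N f g yes no ihy ihn =>
    intro hT X Y h
    obtain ⟨hTy, hTn⟩ := hT
    have ihy := ihy hTy
    have ihn := ihn hTn
    set S := X.card + Y.card with hS
    set E := (X ×ˢ Y).filter (fun p => (LProt.query N f g yes no).Accepts p.1 p.2) with hE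
    have hsplit := Finset.card_filter_add_card_filter_not (s := E) (fun p => f p.1 = g p.2)
    -- equal labels
    have h1 : (E.filter (fun p => f p.1 = g p.2)).card ≤ yes.wt * (Λ * S) := by
      have h2 : (E.filter (fun p => f p.1 = g p.2)) ⊆ (univ : Finset (Fin N)).biUnion (fun l =>
          (((X.filter (fun u => f u = l)) ×ˢ (Y.filter (fun v => g v = l))).filter
            (fun p => yes.Accepts p.1 p.2))) := by
        intro p hp
        rw [mem_filter, hE, mem_filter, mem_product] at hp
        obtain ⟨⟨⟨hp1, hp2⟩, hp3⟩, hp4⟩ := hp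
        rw [mem_biUnion]
        refine ⟨g p.2, mem_univ _, ?_⟩
        rw [mem_filter, mem_product, mem_filter, mem_filter]
        refine ⟨⟨⟨hp1, hp4⟩, ⟨hp2, rfl⟩⟩, ?_⟩
        rcases hp3 with h' | h'
        · exact h'.2
        · exact absurd hp4 h'.1
      refine (card_le_card h2).trans (card_biUnion_le.trans ?_)
      have h3 : ∀ l : Fin N, (((X.filter (fun u => f u = l)) ×ˢ (Y.filter (fun v => g v = l))).filter
            (fun p => yes.Accepts p.1 p.2)).card ≤
          yes.wt * (Λ * ((X.filter (fun u => f u = l)).card +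
            (Y.filter (fun v => g v = l)).card)) := by
        intro l
        apply ihy
        refine hFree _ _ _ _ _ _ (filter_subset _ _) (filter_subset _ _) ?_ h
        intro u hu v hv huv
        exact Or.inl ⟨by rw [(mem_filter.1 hu).2, (mem_filter.1 hv).2], huv⟩
      refine (sum_le_sum (fun l _ => h3 l)).trans ?_
      rw [← mul_sum, ← mul_sum, sum_add_distrib]
      have h4 : ∑ l : Fin N, (X.filter (fun u => f u = l)).card = X.card :=
        (card_eq_sum_card_fiberwise (f := f) (t := univ) (fun _ _ => mem_coe.2 (mem_univ _))).symm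
      have h5 : ∑ l : Fin N, (Y.filter (fun v => g v = l)).card = Y.card :=
        (card_eq_sum_card_fiberwise (f := g) (t := univ) (fun _ _ => mem_coe.2 (mem_univ _))).symm
      rw [h4, h5]
    -- different labels
    have h0 : (E.filter (fun p => ¬ f p.1 = g p.2)).card ≤ 2 * (no.wt * (Λ * S)) := by
      set E0 := E.filter (fun p => ¬ f p.1 = g p.2) with hE0
      set M := Fintype.card (Fin N → Bool) with hM
      have hM0 : 0 < M := Fintype.card_pos
      have e1 : ∑ χ : Fin N → Bool, 4 * (E0.filter (fun p => χ (f p.1) = true ∧ χ (g p.2) = false)).card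
          = E0.card * M := by
        simp only [card_filter]
        rw [← mul_sum, sum_comm, mul_sum]
        have e2 : ∀ p ∈ E0, 4 * ∑ χ : Fin N → Bool,
            (if χ (f p.1) = true ∧ χ (g p.2) = false then 1 else 0) = M := by
          intro p hp
          rw [← card_filter]
          exact quarter (f p.1) (g p.2) (mem_filter.1 hp).2
        rw [sum_congr rfl e2, sum_const, smul_eq_mul]
      have e3 : ∀ χ : Fin N → Bool, (E0.filter (fun p => χ (f p.1) = true ∧ χ (g p.2) = false)).card ≤
          no.wt * (Λ * ((X.filter (fun u => χ (f u) = true)).card +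
            (Y.filter (fun v => χ (g v) = false)).card)) := by
        intro χ
        have e4 : E0.filter (fun p => χ (f p.1) = true ∧ χ (g p.2) = false) ⊆
            (((X.filter (fun u => χ (f u) = true)) ×ˢ (Y.filter (fun v => χ (g v) = false))).filter
              (fun p => no.Accepts p.1 p.2)) := by
          intro p hp
          rw [mem_filter, hE0, mem_filter, hE, mem_filter, mem_product] at hp
          obtain ⟨⟨⟨⟨hp1, hp2⟩, hp3⟩, hp4⟩, hp5, hp6⟩ := hp
          rw [mem_filter, mem_product, mem_filter, mem_filter]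
          refine ⟨⟨⟨hp1, hp5⟩, ⟨hp2, hp6⟩⟩, ?_⟩
          rcases hp3 with h' | h'
          · exact absurd h'.1 hp4
          · exact h'.2
        refine (card_le_card e4).trans ?_
        apply ihn
        refine hFree _ _ _ _ _ _ (filter_subset _ _) (filter_subset _ _) ?_ h
        intro u hu v hv huv
        have h4 := (mem_filter.1 hu).2
        have h5 := (mem_filter.1 hv).2
        have h6 : ¬ f u = g v := by
          intro h7
          rw [h7, h5] at h4
          exact absurd h4 (by decide)
        exact Or.inr ⟨h6, huv⟩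
      have e5 : ∑ χ : Fin N → Bool, 2 * ((X.filter (fun u => χ (f u) = true)).card +
            (Y.filter (fun v => χ (g v) = false)).card) = S * M := by
        simp only [card_filter, mul_add]
        rw [sum_add_distrib, ← mul_sum, ← mul_sum, sum_comm, mul_sum]
        have e6 : ∀ u ∈ X, 2 * ∑ χ : Fin N → Bool, (if χ (f u) = true then 1 else 0) = M := by
          intro u _
          rw [← card_filter]
          exact half_true (f u)
        rw [sum_congr rfl e6, sum_comm, mul_sum]
        have e7 : ∀ v ∈ Y, 2 * ∑ χ : Fin N → Bool, (if χ (g v) = false then 1 else 0) = M := by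
          intro v _
          rw [← card_filter]
          exact half_false (g v)
        rw [sum_congr rfl e7, sum_const, sum_const, smul_eq_mul, smul_eq_mul, hS]
        ring
      have e8 : E0.card * M ≤ (2 * (no.wt * (Λ * S))) * M := by
        rw [← e1]
        calc ∑ χ : Fin N → Bool, 4 * (E0.filter (fun p => χ (f p.1) = true ∧ χ (g p.2) = false)).card
            ≤ ∑ χ : Fin N → Bool, 4 * (no.wt * (Λ *
              ((X.filter (fun u => χ (f u) = true)).card +
              (Y.filter (fun v => χ (g v) = false)).card))) :=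
              sum_le_sum (fun χ _ => Nat.mul_le_mul_left _ (e3 χ))
          _ = (2 * (no.wt * Λ)) * ∑ χ : Fin N → Bool,
              2 * ((X.filter (fun u => χ (f u) = true)).card +
              (Y.filter (fun v => χ (g v) = false)).card) := by
              rw [mul_sum]
              apply sum_congr rfl
              intro χ _
              ring
          _ = _ := by rw [e5]; ring
      exact Nat.le_of_mul_le_mul_right e8 hM0
    calc E.card = (E.filter (fun p => f p.1 = g p.2)).card + (E.filter (fun p => ¬ f p.1 = g p.2)).card :=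
          hsplit.symm
      _ ≤ yes.wt * (Λ * S) + 2 * (no.wt * (Λ * S)) := Nat.add_le_add h1 h0
      _ = (LProt.query N f g yes no).wt * (Λ * S) := by
          simp only [LProt.wt]
          ring
  | less l f g yes no ihy ihn =>
    intro hT X Y h
    obtain ⟨hTy, hTn⟩ := hT
    have ihy := ihy hTy
    have ihn := ihn hTn
    set S := X.card + Y.card with hS
    set E := (X ×ˢ Y).filter (fun p => (LProt.less l f g yes no).Accepts p.1 p.2) with hE
    have hsplit := Finset.card_filter_add_card_filter_not (s := E) (fun p => (f p.1).1 < (g p.2).1)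
    have h1 : (E.filter (fun p => (f p.1).1 < (g p.2).1)).card ≤ l * (yes.wt * Λ) * S := by
      refine le_trans (card_le_card ?_) (lt_blocks yes.Accepts (yes.wt * Λ) l (fun u => (f u).1)
        (fun v => (g v).1) X Y (fun u _ => (f u).2) (fun v _ => (g v).2) ?_)
      · intro p hp
        rw [mem_filter, hE, mem_filter] at hp
        obtain ⟨⟨hp1, hp2⟩, hp3⟩ := hp
        rw [mem_filter]
        refine ⟨hp1, ?_, hp3⟩
        rcases hp2 with h' | h'
        · exact h'.2
        · exact absurd hp3 h'.1
      · intro X' hX Y' hY hlt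
        rw [mul_assoc]
        exact ihy X' Y' (hFree _ _ _ _ _ _ hX hY
          (fun u hu v hv huv => Or.inl ⟨hlt u hu v hv, huv⟩) h)
    have h0 : (E.filter (fun p => ¬ (f p.1).1 < (g p.2).1)).card ≤ (l + 1) * (no.wt * Λ) * S := by
      refine le_trans (card_le_card ?_) (ge_blocks no.Accepts (no.wt * Λ) l (fun u => (f u).1)
        (fun v => (g v).1) X Y (fun u _ => (f u).2) (fun v _ => (g v).2) ?_)
      · intro p hp
        rw [mem_filter, hE, mem_filter] at hp
        obtain ⟨⟨hp1, hp2⟩, hp3⟩ := hp
        rw [mem_filter]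
        refine ⟨hp1, ?_, hp3⟩
        rcases hp2 with h' | h'
        · exact absurd h'.1 hp3
        · exact h'.2
      · intro X' hX Y' hY hlt
        rw [mul_assoc]
        exact ihn X' Y' (hFree _ _ _ _ _ _ hX hY
          (fun u hu v hv huv => Or.inr ⟨hlt u hu v hv, huv⟩) h)
    calc E.card = (E.filter (fun p => (f p.1).1 < (g p.2).1)).card +
          (E.filter (fun p => ¬ (f p.1).1 < (g p.2).1)).card := hsplit.symm
      _ ≤ l * (yes.wt * Λ) * S + (l + 1) * (no.wt * Λ) * S := Nat.add_le_add h1 h0
      _ = (LProt.less l f g yes no).wt * (Λ * S) := by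
          simp only [LProt.wt]
          ring

open Classical in
/-- the pairs of different elements accepted by a protocol -/
theorem lpairs_le (Free : (V → V → Prop) → Finset V → Finset V → Prop)
    (hFree : ∀ R R' X X' Y Y', X' ⊆ X → Y' ⊆ Y → (∀ u ∈ X', ∀ v ∈ Y', R' u v → R u v) →
      Free R X Y → Free R' X' Y')
    (L : (V → V → Prop) → Prop) (Λ : ℕ)
    (hL : ∀ R X Y, L R → Free R X Y →
      ((X ×ˢ Y).filter (fun p => R p.1 p.2)).card ≤ Λ * (X.card + Y.card))
    (T : LProt V) (hT : T.Leaves L) (hTF : ∀ X Y, Disjoint X Y → Free T.Accepts X Y) :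
    ((univ : Finset (V × V)).filter (fun p => p.1 ≠ p.2 ∧ T.Accepts p.1 p.2)).card ≤
      4 * (T.wt * Λ) * Fintype.card V := by
  set E := (univ : Finset (V × V)).filter (fun p => p.1 ≠ p.2 ∧ T.Accepts p.1 p.2) with hE
  set M := Fintype.card (V → Bool) with hM
  have hM0 : 0 < M := Fintype.card_pos
  have e1 : ∑ χ : V → Bool, 4 * (E.filter (fun p => χ p.1 = true ∧ χ p.2 = false)).card
      = E.card * M := by
    simp only [card_filter]
    rw [← mul_sum, sum_comm, mul_sum]
    have e2 : ∀ p ∈ E, 4 * ∑ χ : V → Bool,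
        (if χ p.1 = true ∧ χ p.2 = false then 1 else 0) = M := by
      intro p hp
      rw [← card_filter]
      exact quarter p.1 p.2 (mem_filter.1 hp).2.1
    rw [sum_congr rfl e2, sum_const, smul_eq_mul]
  have e3 : ∀ χ : V → Bool, (E.filter (fun p => χ p.1 = true ∧ χ p.2 = false)).card ≤
      T.wt * (Λ * Fintype.card V) := by
    intro χ
    have e4 : E.filter (fun p => χ p.1 = true ∧ χ p.2 = false) ⊆
        (((univ.filter (fun u => χ u = true)) ×ˢ (univ.filter (fun v => χ v = false))).filter
          (fun p => T.Accepts p.1 p.2)) := by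
      intro p hp
      rw [mem_filter, hE, mem_filter] at hp
      obtain ⟨⟨-, hp3⟩, hp5, hp6⟩ := hp
      rw [mem_filter, mem_product, mem_filter, mem_filter]
      exact ⟨⟨⟨mem_univ _, hp5⟩, ⟨mem_univ _, hp6⟩⟩, hp3.2⟩
    have hdisj : Disjoint (univ.filter (fun u => χ u = true)) (univ.filter (fun v => χ v = false)) := by
      rw [disjoint_left]
      intro x hx hx'
      rw [mem_filter] at hx hx'
      rw [hx.2] at hx'
      exact absurd hx'.2 (by decide)
    refine (card_le_card e4).trans ?_
    refine (lprot_bound Free hFree L Λ hL T hT _ _ (hTF _ _ hdisj)).trans ?_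
    apply Nat.mul_le_mul_left
    apply Nat.mul_le_mul_left
    rw [← card_union_of_disjoint hdisj]
    exact card_le_univ _
  have e8 : E.card * M ≤ (4 * (T.wt * (Λ * Fintype.card V))) * M := by
    rw [← e1]
    calc ∑ χ : V → Bool, 4 * (E.filter (fun p => χ p.1 = true ∧ χ p.2 = false)).card
        ≤ ∑ χ : V → Bool, 4 * (T.wt * (Λ * Fintype.card V)) :=
          sum_le_sum (fun χ _ => Nat.mul_le_mul_left _ (e3 χ))
      _ = _ := by
          rw [sum_const, smul_eq_mul, card_univ]
          ring
  refine (Nat.le_of_mul_le_mul_right e8 hM0).trans (le_of_eq ?_)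
  ring

open Classical in
/-- the edges of a graph and random protocols with one-sided error -/
theorem lprot_random (Free : (V → V → Prop) → Finset V → Finset V → Prop)
    (hFree : ∀ R R' X X' Y Y', X' ⊆ X → Y' ⊆ Y → (∀ u ∈ X', ∀ v ∈ Y', R' u v → R u v) →
      Free R X Y → Free R' X' Y')
    (L : ℕ → (V → V → Prop) → Prop) (Λ : ℕ → ℕ)
    (hL : ∀ κ R X Y, L κ R → Free R X Y →
      ((X ×ˢ Y).filter (fun p => R p.1 p.2)).card ≤ Λ κ * (X.card + Y.card))
    (G : SimpleGraph V) (N : ℕ) (T : Fin N → LProt V)
    (κ : Fin N → ℕ) (q : Fin N → ℝ) (hκ : ∀ i, (T i).Leaves (L (κ i))) (hq : ∀ i, 0 ≤ q i)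
    (hTF : ∀ i X Y, Disjoint X Y → Free (T i).Accepts X Y) (p : ℝ)
    (hp : ∀ u v, G.Adj u v → p ≤ ∑ i, if (T i).Accepts u v then q i else 0) :
    p * Nat.card G.edgeSet ≤ 2 * Fintype.card V *
      ∑ i, q i * ((T i).wt * (Λ (κ i) : ℝ)) := by
  have h1 : ∀ i, (((univ : Finset (V × V)).filter
      (fun p => p.1 ≠ p.2 ∧ (T i).Accepts p.1 p.2)).card : ℝ) ≤
      4 * ((T i).wt * (Λ (κ i) : ℝ)) * Fintype.card V := by
    intro i
    exact_mod_cast lpairs_le Free hFree (L (κ i)) (Λ (κ i)) (hL (κ i)) (T i) (hκ i) (hTF i)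
  have h2 : (2 : ℝ) * Nat.card G.edgeSet * p ≤
      ∑ x ∈ (univ : Finset (V × V)).filter (fun x => G.Adj x.1 x.2),
        ∑ i, (if (T i).Accepts x.1 x.2 then q i else 0) := by
    have h3 : (2 : ℝ) * Nat.card G.edgeSet * p =
        ∑ x ∈ (univ : Finset (V × V)).filter (fun x => G.Adj x.1 x.2), p := by
      have e5 : ((univ : Finset (V × V)).filter (fun x => G.Adj x.1 x.2)).card =
          2 * Nat.card G.edgeSet := by
        convert card_pairs G
      rw [sum_const, nsmul_eq_mul, e5]
      push_cast
      ring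
    rw [h3]
    apply sum_le_sum
    intro x hx
    exact hp x.1 x.2 (mem_filter.1 hx).2
  rw [sum_comm] at h2
  have h4 : ∀ i, ∑ x ∈ (univ : Finset (V × V)).filter (fun x => G.Adj x.1 x.2),
      (if (T i).Accepts x.1 x.2 then q i else 0) ≤
      q i * (4 * ((T i).wt * (Λ (κ i) : ℝ)) * Fintype.card V) := by
    intro i
    rw [← sum_filter, sum_const, nsmul_eq_mul, mul_comm]
    apply mul_le_mul_of_nonneg_left _ (hq i)
    refine le_trans ?_ (h1 i)
    rw [filter_filter]
    apply Nat.cast_le.2
    apply card_le_card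
    intro x hx
    rw [mem_filter] at hx ⊢
    exact ⟨mem_univ _, hx.2.1.ne, hx.2.2⟩
  have h5 := h2.trans (sum_le_sum fun i _ => h4 i)
  have h6 : ∑ i, q i * (4 * ((T i).wt * (Λ (κ i) : ℝ)) * Fintype.card V) =
      2 * (2 * Fintype.card V * ∑ i, q i * ((T i).wt * (Λ (κ i) : ℝ))) := by
    rw [mul_sum, mul_sum]
    apply sum_congr rfl
    intro i _
    ring
  rw [h6] at h5
  linarith

end Run7.h203.SC
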