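import Pool.Agent.Run7.h203.SC.Degen
import Pool.Agent.Run7.h203.SC.Prot

set_option autoImplicit false

namespace Run7.h203.SC

open Finset Matrix

/-- A protocol with equality queries for two players who know one element of `V` each. In a query
each player assigns a label to his element, and both learn whether the two labels are equal. A leaf
accepts the pairs of a relation `R`. -/
inductive Prot (V : Type) : Type
  | leaf (R : V → V → Prop) : Prot V
  | query (N : ℕ) (f g : V → Fin N) (yes no : Prot V) : Prot V

namespace Prot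

variable {V : Type}

/-- the pair of the first player's element `u` and the second player's element `v` is accepted -/
def Accepts : Prot V → V → V → Prop
  | leaf R, u, v => R u v
  | query _ f g yes no, u, v => (f u = g v ∧ yes.Accepts u v) ∨ (f u ≠ g v ∧ no.Accepts u v)

/-- the largest number of queries on a run -/
def cost : Prot V → ℕ
  | leaf _ => 0
  | query _ _ _ yes no => max yes.cost no.cost + 1

/-- the relations at the leaves satisfy `L` -/
def Leaves (L : (V → V → Prop) → Prop) : Prot V → Prop
  | leaf R => L R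
  | query _ _ _ yes no => yes.Leaves L ∧ no.Leaves L

lemma Leaves.mono {L L' : (V → V → Prop) → Prop} (h : ∀ R, L R → L' R) :
    ∀ T : Prot V, T.Leaves L → T.Leaves L'
  | leaf R, hT => h R hT
  | query _ _ _ yes no, hT => ⟨Leaves.mono h yes hT.1, Leaves.mono h no hT.2⟩

end Prot

variable {V : Type} [Fintype V]

open Classical in
/-- The number of accepted pairs. `Free R X Y` is any property of the relation `R` between `X` and `Y`
which is inherited by smaller relations and smaller sets. -/
lemma mprot_bound (Free : (V → V → Prop) → Finset V → Finset V → Prop)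
    (hFree : ∀ R R' X X' Y Y', X' ⊆ X → Y' ⊆ Y → (∀ u ∈ X', ∀ v ∈ Y', R' u v → R u v) →
      Free R X Y → Free R' X' Y')
    (L : (V → V → Prop) → Prop) (Λ : ℕ)
    (hL : ∀ R X Y, L R → Free R X Y →
      ((X ×ˢ Y).filter (fun p => R p.1 p.2)).card ≤ Λ * (X.card + Y.card))
    (T : Prot V) : T.Leaves L → ∀ X Y : Finset V, Free T.Accepts X Y →
    ((X ×ˢ Y).filter (fun p => T.Accepts p.1 p.2)).card ≤
      3 ^ T.cost * (Λ * (X.card + Y.card)) := by
  induction T with
  | leaf R =>
    intro hT X Y h
    have h1 := hL R X Y hT h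
    simp only [Prot.cost, pow_zero, one_mul]
    exact h1
  | query N f g yes no ihy ihn =>
    intro hT X Y h
    obtain ⟨hTy, hTn⟩ := hT
    have ihy := ihy hTy
    have ihn := ihn hTn
    set S := X.card + Y.card with hS
    set E := (X ×ˢ Y).filter (fun p => (Prot.query N f g yes no).Accepts p.1 p.2) with hE
    have hsplit := Finset.card_filter_add_card_filter_not (s := E) (fun p => f p.1 = g p.2)
    -- equal labels
    have h1 : (E.filter (fun p => f p.1 = g p.2)).card ≤ 3 ^ yes.cost * (Λ * S) := by
      have h2 : (E.filter (fun p => f p.1 = g p.2)) ⊆ (univ : Finset (Fin N)).biUnion (fun l =>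
          (((X.filter (fun u => f u = l)) ×ˢ (Y.filter (fun v => g v = l))).filter
            (fun p => yes.Accepts p.1 p.2))) := by
        intro p hp
        rw [mem_filter, hE, mem_filter, mem_product] at hp
        obtain ⟨⟨⟨hp1, hp2⟩, hp3⟩, hp4⟩ := hp
        rw [mem_biUnion]
        refine ⟨g p.2, mem_univ _, ?_⟩
        rw [mem_filter, mem_product, mem_filter, mem_filter]
        refine ⟨⟨⟨hp1, hp4⟩, ⟨hp2, rfl⟩⟩, ?_⟩
        rcases hp3 with h' | h'
        · exact h'.2
        · exact absurd hp4 h'.1
      refine (card_le_card h2).trans (card_biUnion_le.trans ?_)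
      have h3 : ∀ l : Fin N, (((X.filter (fun u => f u = l)) ×ˢ (Y.filter (fun v => g v = l))).filter
            (fun p => yes.Accepts p.1 p.2)).card ≤
          3 ^ yes.cost * (Λ * ((X.filter (fun u => f u = l)).card +
            (Y.filter (fun v => g v = l)).card)) := by
        intro l
        apply ihy
        refine hFree _ _ _ _ _ _ (filter_subset _ _) (filter_subset _ _) ?_ h
        intro u hu v hv huv
        exact Or.inl ⟨by rw [(mem_filter.1 hu).2, (mem_filter.1 hv).2], huv⟩
      refine (sum_le_sum (fun l _ => h3 l)).trans ?_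
      rw [← mul_sum, ← mul_sum, sum_add_distrib]
      have h4 : ∑ l : Fin N, (X.filter (fun u => f u = l)).card = X.card :=
        (card_eq_sum_card_fiberwise (f := f) (t := univ) (fun _ _ => mem_coe.2 (mem_univ _))).symm
      have h5 : ∑ l : Fin N, (Y.filter (fun v => g v = l)).card = Y.card :=
        (card_eq_sum_card_fiberwise (f := g) (t := univ) (fun _ _ => mem_coe.2 (mem_univ _))).symm
      rw [h4, h5]
    -- different labels
    have h0 : (E.filter (fun p => ¬ f p.1 = g p.2)).card ≤ 2 * (3 ^ no.cost * (Λ * S)) := by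
      set E0 := E.filter (fun p => ¬ f p.1 = g p.2) with hE0
      set M := Fintype.card (Fin N → Bool) with hM
      have hM0 : 0 < M := Fintype.card_pos
      have e1 : ∑ χ : Fin N → Bool, 4 * (E0.filter (fun p => χ (f p.1) = true ∧ χ (g p.2) = false)).card
          = E0.card * M := by
        simp only [card_filter]
        rw [← mul_sum, sum_comm, mul_sum]
        have e2 : ∀ p ∈ E0, 4 * ∑ χ : Fin N → Bool,
            (if χ (f p.1) = true ∧ χ (g p.2) = false then 1 else 0) = M := by
          intro p hp
          rw [← card_filter]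
          exact quarter (f p.1) (g p.2) (mem_filter.1 hp).2
        rw [sum_congr rfl e2, sum_const, smul_eq_mul]
      have e3 : ∀ χ : Fin N → Bool, (E0.filter (fun p => χ (f p.1) = true ∧ χ (g p.2) = false)).card ≤
          3 ^ no.cost * (Λ * ((X.filter (fun u => χ (f u) = true)).card +
            (Y.filter (fun v => χ (g v) = false)).card)) := by
        intro χ
        have e4 : E0.filter (fun p => χ (f p.1) = true ∧ χ (g p.2) = false) ⊆
            (((X.filter (fun u => χ (f u) = true)) ×ˢ (Y.filter (fun v => χ (g v) = false))).filter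
              (fun p => no.Accepts p.1 p.2)) := by
          intro p hp
          rw [mem_filter, hE0, mem_filter, hE, mem_filter, mem_product] at hp
          obtain ⟨⟨⟨⟨hp1, hp2⟩, hp3⟩, hp4⟩, hp5, hp6⟩ := hp
          rw [mem_filter, mem_product, mem_filter, mem_filter]
          refine ⟨⟨⟨hp1, hp5⟩, ⟨hp2, hp6⟩⟩, ?_⟩
          rcases hp3 with h' | h'
          · exact absurd h'.1 hp4
          · exact h'.2
        refine (card_le_card e4).trans ?_
        apply ihn
        refine hFree _ _ _ _ _ _ (filter_subset _ _) (filter_subset _ _) ?_ h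
        intro u hu v hv huv
        have h4 := (mem_filter.1 hu).2
        have h5 := (mem_filter.1 hv).2
        have h6 : ¬ f u = g v := by
          intro h7
          rw [h7, h5] at h4
          exact absurd h4 (by decide)
        exact Or.inr ⟨h6, huv⟩
      have e5 : ∑ χ : Fin N → Bool, 2 * ((X.filter (fun u => χ (f u) = true)).card +
            (Y.filter (fun v => χ (g v) = false)).card) = S * M := by
        simp only [card_filter, mul_add]
        rw [sum_add_distrib, ← mul_sum, ← mul_sum, sum_comm, mul_sum]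
        have e6 : ∀ u ∈ X, 2 * ∑ χ : Fin N → Bool, (if χ (f u) = true then 1 else 0) = M := by
          intro u _
          rw [← card_filter]
          exact half_true (f u)
        rw [sum_congr rfl e6, sum_comm, mul_sum]
        have e7 : ∀ v ∈ Y, 2 * ∑ χ : Fin N → Bool, (if χ (g v) = false then 1 else 0) = M := by
          intro v _
          rw [← card_filter]
          exact half_false (g v)
        rw [sum_congr rfl e7, sum_const, sum_const, smul_eq_mul, smul_eq_mul, hS]
        ring
      have e8 : E0.card * M ≤ (2 * (3 ^ no.cost * (Λ * S))) * M := by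
        rw [← e1]
        calc ∑ χ : Fin N → Bool, 4 * (E0.filter (fun p => χ (f p.1) = true ∧ χ (g p.2) = false)).card
            ≤ ∑ χ : Fin N → Bool, 4 * (3 ^ no.cost * (Λ *
              ((X.filter (fun u => χ (f u) = true)).card +
              (Y.filter (fun v => χ (g v) = false)).card))) :=
              sum_le_sum (fun χ _ => Nat.mul_le_mul_left _ (e3 χ))
          _ = (2 * (3 ^ no.cost * Λ)) * ∑ χ : Fin N → Bool,
              2 * ((X.filter (fun u => χ (f u) = true)).card +
              (Y.filter (fun v => χ (g v) = false)).card) := by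
              rw [mul_sum]
              apply sum_congr rfl
              intro χ _
              ring
          _ = _ := by rw [e5]; ring
      exact Nat.le_of_mul_le_mul_right e8 hM0
    have h6 : (3 : ℕ) ^ yes.cost ≤ 3 ^ (max yes.cost no.cost) :=
      Nat.pow_le_pow_right (by norm_num) (le_max_left _ _)
    have h7 : (3 : ℕ) ^ no.cost ≤ 3 ^ (max yes.cost no.cost) :=
      Nat.pow_le_pow_right (by norm_num) (le_max_right _ _)
    calc E.card = (E.filter (fun p => f p.1 = g p.2)).card + (E.filter (fun p => ¬ f p.1 = g p.2)).card :=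
          hsplit.symm
      _ ≤ 3 ^ yes.cost * (Λ * S) + 2 * (3 ^ no.cost * (Λ * S)) := Nat.add_le_add h1 h0
      _ ≤ 3 ^ (max yes.cost no.cost) * (Λ * S) +
          2 * (3 ^ (max yes.cost no.cost) * (Λ * S)) := by
          gcongr
      _ = 3 ^ (Prot.query N f g yes no).cost * (Λ * S) := by
          simp only [Prot.cost, pow_succ]
          ring

open Classical in
/-- the pairs of different elements accepted by a protocol -/
theorem mpairs_le (Free : (V → V → Prop) → Finset V → Finset V → Prop)
    (hFree : ∀ R R' X X' Y Y', X' ⊆ X → Y' ⊆ Y → (∀ u ∈ X', ∀ v ∈ Y', R' u v → R u v) →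
      Free R X Y → Free R' X' Y')
    (L : (V → V → Prop) → Prop) (Λ : ℕ)
    (hL : ∀ R X Y, L R → Free R X Y →
      ((X ×ˢ Y).filter (fun p => R p.1 p.2)).card ≤ Λ * (X.card + Y.card))
    (T : Prot V) (hT : T.Leaves L) (hTF : ∀ X Y, Disjoint X Y → Free T.Accepts X Y) :
    ((univ : Finset (V × V)).filter (fun p => p.1 ≠ p.2 ∧ T.Accepts p.1 p.2)).card ≤
      4 * (3 ^ T.cost * Λ) * Fintype.card V := by
  set E := (univ : Finset (V × V)).filter (fun p => p.1 ≠ p.2 ∧ T.Accepts p.1 p.2) with hE
  set M := Fintype.card (V → Bool) with hM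
  have hM0 : 0 < M := Fintype.card_pos
  have e1 : ∑ χ : V → Bool, 4 * (E.filter (fun p => χ p.1 = true ∧ χ p.2 = false)).card
      = E.card * M := by
    simp only [card_filter]
    rw [← mul_sum, sum_comm, mul_sum]
    have e2 : ∀ p ∈ E, 4 * ∑ χ : V → Bool,
        (if χ p.1 = true ∧ χ p.2 = false then 1 else 0) = M := by
      intro p hp
      rw [← card_filter]
      exact quarter p.1 p.2 (mem_filter.1 hp).2.1
    rw [sum_congr rfl e2, sum_const, smul_eq_mul]
  have e3 : ∀ χ : V → Bool, (E.filter (fun p => χ p.1 = true ∧ χ p.2 = false)).card ≤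
      3 ^ T.cost * (Λ * Fintype.card V) := by
    intro χ
    have e4 : E.filter (fun p => χ p.1 = true ∧ χ p.2 = false) ⊆
        (((univ.filter (fun u => χ u = true)) ×ˢ (univ.filter (fun v => χ v = false))).filter
          (fun p => T.Accepts p.1 p.2)) := by
      intro p hp
      rw [mem_filter, hE, mem_filter] at hp
      obtain ⟨⟨-, hp3⟩, hp5, hp6⟩ := hp
      rw [mem_filter, mem_product, mem_filter, mem_filter]
      exact ⟨⟨⟨mem_univ _, hp5⟩, ⟨mem_univ _, hp6⟩⟩, hp3.2⟩
    have hdisj : Disjoint (univ.filter (fun u => χ u = true)) (univ.filter (fun v => χ v = false)) := by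
      rw [disjoint_left]
      intro x hx hx'
      rw [mem_filter] at hx hx'
      rw [hx.2] at hx'
      exact absurd hx'.2 (by decide)
    refine (card_le_card e4).trans ?_
    refine (mprot_bound Free hFree L Λ hL T hT _ _ (hTF _ _ hdisj)).trans ?_
    apply Nat.mul_le_mul_left
    apply Nat.mul_le_mul_left
    rw [← card_union_of_disjoint hdisj]
    exact card_le_univ _
  have e8 : E.card * M ≤ (4 * (3 ^ T.cost * (Λ * Fintype.card V))) * M := by
    rw [← e1]
    calc ∑ χ : V → Bool, 4 * (E.filter (fun p => χ p.1 = true ∧ χ p.2 = false)).card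
        ≤ ∑ χ : V → Bool, 4 * (3 ^ T.cost * (Λ * Fintype.card V)) :=
          sum_le_sum (fun χ _ => Nat.mul_le_mul_left _ (e3 χ))
      _ = _ := by
          rw [sum_const, smul_eq_mul, card_univ]
          ring
  refine (Nat.le_of_mul_le_mul_right e8 hM0).trans (le_of_eq ?_)
  ring

open Classical in
/-- the edges of a graph and random protocols with one-sided error -/
theorem mprot_random (Free : (V → V → Prop) → Finset V → Finset V → Prop)
    (hFree : ∀ R R' X X' Y Y', X' ⊆ X → Y' ⊆ Y → (∀ u ∈ X', ∀ v ∈ Y', R' u v → R u v) →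
      Free R X Y → Free R' X' Y')
    (L : ℕ → (V → V → Prop) → Prop) (Λ : ℕ → ℕ)
    (hL : ∀ κ R X Y, L κ R → Free R X Y →
      ((X ×ˢ Y).filter (fun p => R p.1 p.2)).card ≤ Λ κ * (X.card + Y.card))
    (G : SimpleGraph V) (N : ℕ) (T : Fin N → Prot V)
    (κ : Fin N → ℕ) (q : Fin N → ℝ) (hκ : ∀ i, (T i).Leaves (L (κ i))) (hq : ∀ i, 0 ≤ q i)
    (hTF : ∀ i X Y, Disjoint X Y → Free (T i).Accepts X Y) (p : ℝ)
    (hp : ∀ u v, G.Adj u v → p ≤ ∑ i, if (T i).Accepts u v then q i else 0) :
    p * Nat.card G.edgeSet ≤ 2 * Fintype.card V *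
      ∑ i, q i * (3 ^ (T i).cost * (Λ (κ i) : ℝ)) := by
  have h1 : ∀ i, (((univ : Finset (V × V)).filter
      (fun p => p.1 ≠ p.2 ∧ (T i).Accepts p.1 p.2)).card : ℝ) ≤
      4 * (3 ^ (T i).cost * (Λ (κ i) : ℝ)) * Fintype.card V := by
    intro i
    exact_mod_cast mpairs_le Free hFree (L (κ i)) (Λ (κ i)) (hL (κ i)) (T i) (hκ i) (hTF i)
  have h2 : (2 : ℝ) * Nat.card G.edgeSet * p ≤
      ∑ x ∈ (univ : Finset (V × V)).filter (fun x => G.Adj x.1 x.2),
        ∑ i, (if (T i).Accepts x.1 x.2 then q i else 0) := by
    have h3 : (2 : ℝ) * Nat.card G.edgeSet * p =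
        ∑ x ∈ (univ : Finset (V × V)).filter (fun x => G.Adj x.1 x.2), p := by
      have e5 : ((univ : Finset (V × V)).filter (fun x => G.Adj x.1 x.2)).card =
          2 * Nat.card G.edgeSet := by
        convert card_pairs G
      rw [sum_const, nsmul_eq_mul, e5]
      push_cast
      ring
    rw [h3]
    apply sum_le_sum
    intro x hx
    exact hp x.1 x.2 (mem_filter.1 hx).2
  rw [sum_comm] at h2
  have h4 : ∀ i, ∑ x ∈ (univ : Finset (V × V)).filter (fun x => G.Adj x.1 x.2),
      (if (T i).Accepts x.1 x.2 then q i else 0) ≤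
      q i * (4 * (3 ^ (T i).cost * (Λ (κ i) : ℝ)) * Fintype.card V) := by
    intro i
    rw [← sum_filter, sum_const, nsmul_eq_mul, mul_comm]
    apply mul_le_mul_of_nonneg_left _ (hq i)
    refine le_trans ?_ (h1 i)
    rw [filter_filter]
    apply Nat.cast_le.2
    apply card_le_card
    intro x hx
    rw [mem_filter] at hx ⊢
    exact ⟨mem_univ _, hx.2.1.ne, hx.2.2⟩
  have h5 := h2.trans (sum_le_sum fun i _ => h4 i)
  have h6 : ∑ i, q i * (4 * (3 ^ (T i).cost * (Λ (κ i) : ℝ)) * Fintype.card V) =
      2 * (2 * Fintype.card V * ∑ i, q i * (3 ^ (T i).cost * (Λ (κ i) : ℝ))) := by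
    rw [mul_sum, mul_sum]
    apply sum_congr rfl
    intro i _
    ring
  rw [h6] at h5
  linarith

end Run7.h203.SC
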