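import Pool.Agent.Run7.h203.SC.Pieces

set_option autoImplicit false

namespace Run7.h203.SC

open Finset Matrix

variable {V : Type} [Fintype V]

/-- There are no elements `a 0, …, a κ` and `b 0, …, b κ` such that the relation holds for `a i` and
`b j` exactly if `i = j`. -/
def NoMatching {V : Type} (κ : ℕ) (R : V → V → Prop) : Prop :=
  ∀ a b : Fin (κ + 1) → V, ¬ ∀ i j, R (a i) (b j) ↔ i = j

lemma NoMatching.swap {V : Type} {κ : ℕ} {R : V → V → Prop} (h : NoMatching κ R) :
    NoMatching κ (fun u v => R v u) := by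
  intro a b hab
  exact h b a fun i j => ⟨fun h' => ((hab j i).1 h').symm, fun h' => (hab j i).2 h'.symm⟩

/-- the support of a matrix of rank `κ` contains no induced matching with `κ + 1` edges -/
theorem noMatching_of_rank {F : Type*} [Field F] (B : Matrix V V F) (κ : ℕ) (hB : B.rank ≤ κ)
    (R : V → V → Prop) (hR : ∀ u v, R u v ↔ B u v ≠ 0) : NoMatching κ R := by
  intro a b hab
  have hli : LinearIndependent F (fun i => B.row (a i)) := by
    rw [Fintype.linearIndependent_iff]
    intro g hg j
    have h1 := congrFun hg (b j)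
    rw [Finset.sum_apply] at h1
    have h2 : ∑ i, (g i • B.row (a i)) (b j) = g j * B (a j) (b j) := by
      rw [Finset.sum_eq_single j]
      · rfl
      · intro i _ hij
        have h3 : B (a i) (b j) = 0 := by
          by_contra h4
          exact hij ((hab i j).1 ((hR _ _).2 h4))
        show g i * B (a i) (b j) = 0
        rw [h3, mul_zero]
      · intro h
        exact absurd (mem_univ _) h
    rw [h2] at h1
    have h5 : B (a j) (b j) ≠ 0 := (hR _ _).1 ((hab j j).2 rfl)
    rcases mul_eq_zero.1 h1 with h6 | h6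
    · exact h6
    · exact absurd h6 h5
  have h1 := linearIndependent_iff_card_eq_finrank_span.1 hli
  rw [Fintype.card_fin] at h1
  have h2 : (Set.range (fun i => B.row (a i))).finrank F ≤ B.rank := by
    rw [Matrix.rank_eq_finrank_span_row]
    apply Submodule.finrank_mono
    apply Submodule.span_mono
    rintro _ ⟨i, rfl⟩
    exact ⟨a i, rfl⟩
  omega

open Classical in
/-- at most `κ` rows cover the supports of all rows in `X` -/
lemma cover_rows {κ : ℕ} {R : V → V → Prop} (hR : NoMatching κ R) (X : Finset V) :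
    ∃ Z ⊆ X, Z.card ≤ κ ∧ ∀ u ∈ X, ∀ v, R u v → ∃ z ∈ Z, R z v := by
  have hne : (X.powerset.filter (fun Z => ∀ u ∈ X, ∀ v, R u v → ∃ z ∈ Z, R z v)).Nonempty :=
    ⟨X, mem_filter.2 ⟨mem_powerset.2 (Subset.refl _), fun u hu v huv => ⟨u, hu, huv⟩⟩⟩
  obtain ⟨Z, hZ, hmin⟩ := exists_min_image _ Finset.card hne
  rw [mem_filter, mem_powerset] at hZ
  refine ⟨Z, hZ.1, ?_, hZ.2⟩
  by_contra hc
  push Not at hc
  have hpriv : ∀ z ∈ Z, ∃ v, R z v ∧ ∀ z' ∈ Z, R z' v → z' = z := by
    intro z hz
    by_contra hcon
    push Not at hcon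
    have h1 := hmin (Z.erase z) (by
      rw [mem_filter, mem_powerset]
      refine ⟨(erase_subset _ _).trans hZ.1, ?_⟩
      intro u hu v huv
      obtain ⟨z', hz', hzv⟩ := hZ.2 u hu v huv
      by_cases h2 : z' = z
      · subst h2
        obtain ⟨z'', h3, h4, h5⟩ := hcon v hzv
        exact ⟨z'', mem_erase.2 ⟨h5, h3⟩, h4⟩
      · exact ⟨z', mem_erase.2 ⟨h2, hz'⟩, hzv⟩)
    rw [card_erase_of_mem hz] at h1
    have := card_pos.2 ⟨z, hz⟩
    omega
  choose! g hg using hpriv
  obtain ⟨e⟩ : Nonempty (Fin (κ + 1) ↪ Z) :=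
    Function.Embedding.nonempty_of_card_le (by rw [Fintype.card_fin, Fintype.card_coe]; omega)
  refine hR (fun i => (e i).1) (fun i => g (e i).1) ?_
  intro i j
  constructor
  · intro h
    have := (hg (e j).1 (e j).2).2 (e i).1 (e i).2 h
    exact e.injective (Subtype.ext this)
  · rintro rfl
    exact (hg (e i).1 (e i).2).1

open Classical in
/-- a relation without induced matchings with more than `κ` edges and without `K_{m+1,t}` -/
lemma entries_rel {κ : ℕ} {R : V → V → Prop} (hR : NoMatching κ R) (t : ℕ) (ht : 1 ≤ t) (m : ℕ) :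
    ∀ (X Y : Finset V),
    (∀ A ⊆ X, ∀ C ⊆ Y, A.card = m + 1 → C.card = t → ∃ u ∈ A, ∃ v ∈ C, ¬ R u v) →
    ((X ×ˢ Y).filter (fun p => R p.1 p.2)).card ≤ κ ^ m * ((t - 1) * X.card + m * Y.card) := by
  induction m with
  | zero =>
    intro X Y h
    have h1 : ∀ u ∈ X, (Y.filter (fun v => R u v)).card ≤ t - 1 := by
      intro u hu
      by_contra hc
      push Not at hc
      obtain ⟨C, hC, hC'⟩ := Finset.exists_subset_card_eq
        (s := Y.filter (fun v => R u v)) (n := t) (by omega)
      obtain ⟨u', hu', v, hv, huv⟩ := h {u} (singleton_subset_iff.2 hu) C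
        (hC.trans (filter_subset _ _)) (card_singleton _) hC'
      rw [mem_singleton] at hu'
      subst hu'
      exact huv (mem_filter.1 (hC hv)).2
    rw [card_filter, sum_product]
    simp only [← card_filter]
    refine (sum_le_sum h1).trans (le_of_eq ?_)
    rw [sum_const, smul_eq_mul]
    ring
  | succ m ih =>
    intro X Y h
    obtain ⟨Z, hZX, hZc, hZ⟩ := cover_rows hR X
    have h1 : (X ×ˢ Y).filter (fun p => R p.1 p.2) ⊆
        (Z ×ˢ Y) ∪ Z.biUnion (fun z =>
          ((X \ Z) ×ˢ (Y.filter (fun v => R z v))).filter (fun p => R p.1 p.2)) := by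
      intro p hp
      rw [mem_filter, mem_product] at hp
      rw [mem_union]
      by_cases hpZ : p.1 ∈ Z
      · left
        exact mem_product.2 ⟨hpZ, hp.1.2⟩
      · right
        obtain ⟨z, hz, hzv⟩ := hZ p.1 hp.1.1 p.2 hp.2
        rw [mem_biUnion]
        refine ⟨z, hz, ?_⟩
        rw [mem_filter, mem_product, mem_sdiff, mem_filter]
        exact ⟨⟨⟨hp.1.1, hpZ⟩, ⟨hp.1.2, hzv⟩⟩, hp.2⟩
    have h2 : ∀ z ∈ Z, (((X \ Z) ×ˢ (Y.filter (fun v => R z v))).filter
        (fun p => R p.1 p.2)).card ≤ κ ^ m * ((t - 1) * X.card + m * Y.card) := by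
      intro z hz
      refine (ih (X \ Z) (Y.filter (fun v => R z v)) ?_).trans ?_
      · intro A hA C hC hA' hC'
        have hzA : z ∉ A := fun h' => (mem_sdiff.1 (hA h')).2 hz
        obtain ⟨u, hu, v, hv, huv⟩ := h (insert z A) (by
            intro w hw
            rw [mem_insert] at hw
            rcases hw with rfl | hw
            · exact hZX hz
            · exact (mem_sdiff.1 (hA hw)).1) C (hC.trans (filter_subset _ _))
            (by rw [card_insert_of_notMem hzA, hA']) hC'
        rw [mem_insert] at hu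
        rcases hu with rfl | hu
        · exact absurd (mem_filter.1 (hC hv)).2 huv
        · exact ⟨u, hu, v, hv, huv⟩
      · apply Nat.mul_le_mul_left
        apply Nat.add_le_add
        · exact Nat.mul_le_mul_left _ (card_le_card sdiff_subset)
        · exact Nat.mul_le_mul_left _ (card_filter_le _ _)
    have h3 : ((X ×ˢ Y).filter (fun p => R p.1 p.2)).card ≤
        Z.card * Y.card + Z.card * (κ ^ m * ((t - 1) * X.card + m * Y.card)) := by
      refine (card_le_card h1).trans ((card_union_le _ _).trans ?_)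
      apply Nat.add_le_add
      · rw [card_product]
      · refine card_biUnion_le.trans ((sum_le_sum h2).trans (le_of_eq ?_))
        rw [sum_const, smul_eq_mul]
    rcases Nat.eq_zero_or_pos κ with h0 | hpos
    · have : Z.card = 0 := by omega
      rw [this] at h3
      simp only [zero_mul, add_zero] at h3
      exact h3.trans (Nat.zero_le _)
    · have h4 : 1 ≤ κ ^ m := Nat.one_le_pow _ _ hpos
      calc _ ≤ Z.card * Y.card + Z.card * (κ ^ m * ((t - 1) * X.card + m * Y.card)) := h3
        _ ≤ κ * Y.card + κ * (κ ^ m * ((t - 1) * X.card + m * Y.card)) :=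
            Nat.add_le_add (Nat.mul_le_mul_right _ hZc) (Nat.mul_le_mul_right _ hZc)
        _ ≤ κ * (κ ^ m * Y.card) + κ * (κ ^ m * ((t - 1) * X.card + m * Y.card)) := by
            apply Nat.add_le_add_right
            apply Nat.mul_le_mul_left
            calc Y.card = 1 * Y.card := (one_mul _).symm
              _ ≤ _ := Nat.mul_le_mul_right _ h4
        _ = _ := by
            rw [pow_succ]
            ring

end Run7.h203.SC
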