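import Pool.Agent.Run7.h203.SC.Minrank

set_option autoImplicit false

namespace Run7.h203.SC

open Finset Matrix

section field

variable {V W : Type} [Fintype V] [Fintype W] {F : Type*} [Field F]

open Classical in
/-- at most `rank` rows whose supports cover the supports of all rows in `X` -/
lemma rows_span (B : Matrix V W F) (X : Finset V) :
    ∃ Z ⊆ X, Z.card ≤ B.rank ∧ ∀ u ∈ X, ∀ v, B u v ≠ 0 → ∃ z ∈ Z, B z v ≠ 0 := by
  set c : X → (W → F) := fun u => B.row u.1 with hc
  obtain ⟨κ, a, ha, hspan, hli⟩ := exists_linearIndependent' F c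
  have : Finite κ := Finite.of_injective a ha
  have : Fintype κ := Fintype.ofFinite κ
  have hcard : Fintype.card κ ≤ B.rank := by
    rw [Matrix.rank_eq_finrank_span_row]
    have h1 := linearIndependent_iff_card_eq_finrank_span.1 hli
    rw [h1]
    apply Submodule.finrank_mono
    apply Submodule.span_mono
    rintro _ ⟨i, rfl⟩
    exact ⟨(a i).1, rfl⟩
  refine ⟨univ.image (fun i => (a i).1), ?_, ?_, ?_⟩
  · intro z hz
    rw [mem_image] at hz
    obtain ⟨i, -, rfl⟩ := hz
    exact (a i).2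
  · exact card_image_le.trans (by rw [card_univ]; exact hcard)
  · intro u hu v hv
    by_contra hcon
    push Not at hcon
    have h1 : Submodule.span F (Set.range (c ∘ a)) ≤ LinearMap.ker (LinearMap.proj v : (W → F) →ₗ[F] F) := by
      rw [Submodule.span_le]
      rintro _ ⟨i, rfl⟩
      exact hcon (a i).1 (mem_image.2 ⟨i, mem_univ _, rfl⟩)
    have h2 : c ⟨u, hu⟩ ∈ Submodule.span F (Set.range (c ∘ a)) := by
      rw [hspan]
      exact Submodule.subset_span ⟨_, rfl⟩
    exact hv (h1 h2)

open Classical in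
/-- a matrix of rank `κ` whose support contains no `K_{m+1,t}` -/
lemma entries_le (B : Matrix V W F) (t : ℕ) (ht : 1 ≤ t) (m : ℕ) : ∀ (X : Finset V) (Y : Finset W),
    (∀ A ⊆ X, ∀ C ⊆ Y, A.card = m + 1 → C.card = t → ∃ u ∈ A, ∃ v ∈ C, B u v = 0) →
    ((X ×ˢ Y).filter (fun p => B p.1 p.2 ≠ 0)).card ≤
      B.rank ^ m * ((t - 1) * X.card + m * Y.card) := by
  induction m with
  | zero =>
    intro X Y h
    have h1 : ∀ u ∈ X, (Y.filter (fun v => B u v ≠ 0)).card ≤ t - 1 := by
      intro u hu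
      by_contra hc
      push Not at hc
      obtain ⟨C, hC, hC'⟩ := Finset.exists_subset_card_eq
        (s := Y.filter (fun v => B u v ≠ 0)) (n := t) (by omega)
      obtain ⟨u', hu', v, hv, huv⟩ := h {u} (singleton_subset_iff.2 hu) C
        (hC.trans (filter_subset _ _)) (card_singleton _) hC'
      rw [mem_singleton] at hu'
      subst hu'
      exact (mem_filter.1 (hC hv)).2 huv
    rw [card_filter, sum_product]
    simp only [← card_filter]
    refine (sum_le_sum h1).trans (le_of_eq ?_)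
    rw [sum_const, smul_eq_mul]
    ring
  | succ m ih =>
    intro X Y h
    obtain ⟨Z, hZX, hZc, hZ⟩ := rows_span B X
    have h1 : (X ×ˢ Y).filter (fun p => B p.1 p.2 ≠ 0) ⊆
        (Z ×ˢ Y) ∪ Z.biUnion (fun z =>
          ((X \ Z) ×ˢ (Y.filter (fun v => B z v ≠ 0))).filter (fun p => B p.1 p.2 ≠ 0)) := by
      intro p hp
      rw [mem_filter, mem_product] at hp
      rw [mem_union]
      by_cases hpZ : p.1 ∈ Z
      · left
        exact mem_product.2 ⟨hpZ, hp.1.2⟩
      · right
        obtain ⟨z, hz, hzv⟩ := hZ p.1 hp.1.1 p.2 hp.2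
        rw [mem_biUnion]
        refine ⟨z, hz, ?_⟩
        rw [mem_filter, mem_product, mem_sdiff, mem_filter]
        exact ⟨⟨⟨hp.1.1, hpZ⟩, ⟨hp.1.2, hzv⟩⟩, hp.2⟩
    have h2 : ∀ z ∈ Z, (((X \ Z) ×ˢ (Y.filter (fun v => B z v ≠ 0))).filter
        (fun p => B p.1 p.2 ≠ 0)).card ≤ B.rank ^ m * ((t - 1) * X.card + m * Y.card) := by
      intro z hz
      refine (ih (X \ Z) (Y.filter (fun v => B z v ≠ 0)) ?_).trans ?_
      · intro A hA C hC hA' hC'
        have hzA : z ∉ A := fun h' => (mem_sdiff.1 (hA h')).2 hz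
        obtain ⟨u, hu, v, hv, huv⟩ := h (insert z A) (by
            intro w hw
            rw [mem_insert] at hw
            rcases hw with rfl | hw
            · exact hZX hz
            · exact (mem_sdiff.1 (hA hw)).1) C (hC.trans (filter_subset _ _))
            (by rw [card_insert_of_notMem hzA, hA']) hC'
        rw [mem_insert] at hu
        rcases hu with rfl | hu
        · exact absurd huv (mem_filter.1 (hC hv)).2
        · exact ⟨u, hu, v, hv, huv⟩
      · apply Nat.mul_le_mul_left
        apply Nat.add_le_add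
        · exact Nat.mul_le_mul_left _ (card_le_card sdiff_subset)
        · exact Nat.mul_le_mul_left _ (card_filter_le _ _)
    have h3 : ((X ×ˢ Y).filter (fun p => B p.1 p.2 ≠ 0)).card ≤
        Z.card * Y.card + Z.card * (B.rank ^ m * ((t - 1) * X.card + m * Y.card)) := by
      refine (card_le_card h1).trans ((card_union_le _ _).trans ?_)
      apply Nat.add_le_add
      · rw [card_product]
      · refine card_biUnion_le.trans ((sum_le_sum h2).trans (le_of_eq ?_))
        rw [sum_const, smul_eq_mul]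
    rcases Nat.eq_zero_or_pos B.rank with h0 | hpos
    · have : Z.card = 0 := by omega
      rw [this] at h3
      omega
    · have h4 : 1 ≤ B.rank ^ m := Nat.one_le_pow _ _ hpos
      calc ((X ×ˢ Y).filter (fun p => B p.1 p.2 ≠ 0)).card
          ≤ Z.card * Y.card + Z.card * (B.rank ^ m * ((t - 1) * X.card + m * Y.card)) := h3
        _ ≤ B.rank * Y.card + B.rank * (B.rank ^ m * ((t - 1) * X.card + m * Y.card)) := by
            gcongr
        _ ≤ B.rank * (B.rank ^ m * Y.card) +
            B.rank * (B.rank ^ m * ((t - 1) * X.card + m * Y.card)) := by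
            apply Nat.add_le_add_right
            apply Nat.mul_le_mul_left
            calc Y.card = 1 * Y.card := (one_mul _).symm
              _ ≤ _ := Nat.mul_le_mul_right _ h4
        _ = B.rank ^ (m + 1) * ((t - 1) * X.card + (m + 1) * Y.card) := by ring

end field

variable {V : Type} [Fintype V]

open Classical in
/-- pieces of small rank which cover the edges of a graph without `K_{s,t}`; the fields may differ -/
theorem pieces_bound (G : SimpleGraph V) (s t : ℕ) (hs : 1 ≤ s) (ht : 1 ≤ t)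
    (hG : (completeBipartiteGraph (Fin s) (Fin t)).Free G) (L : ℕ) (F : Fin L → Type)
    [∀ i, Field (F i)] (B : ∀ i, Matrix V V (F i))
    (h1 : ∀ i u v, u ≠ v → B i u v ≠ 0 → G.Adj u v)
    (h2 : ∀ u v, G.Adj u v → ∃ i, B i u v ≠ 0 ∨ B i v u ≠ 0) :
    Nat.card G.edgeSet ≤ 4 * (s + t - 2) * (Fintype.card V * ∑ i, (B i).rank ^ (s - 1)) := by
  obtain ⟨X, Y, hXY, hcut⟩ := exists_cut' G
  obtain ⟨m, rfl⟩ : ∃ m, s = m + 1 := ⟨s - 1, by omega⟩
  have hXYn : X.card ≤ Fintype.card V ∧ Y.card ≤ Fintype.card V :=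
    ⟨card_le_univ _, card_le_univ _⟩
  have key : ∀ (K : Type) [Field K] (A : Matrix V V K), (∀ u ∈ X, ∀ v ∈ Y, A u v ≠ 0 → G.Adj u v) →
      ((X ×ˢ Y).filter (fun p => A p.1 p.2 ≠ 0)).card ≤
        A.rank ^ m * ((m + 1 + t - 2) * Fintype.card V) := by
    intro K _ A hA
    refine (entries_le A t ht m X Y ?_).trans ?_
    · intro R hR C hC hR' hC'
      by_contra hc
      push Not at hc
      apply hG
      rw [SimpleGraph.completeBipartiteGraph_isContained_iff]
      refine ⟨R, C, by simpa using hR', by simpa using hC', ?_⟩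
      intro u hu v hv
      rw [mem_coe] at hu hv
      exact hA u (hR hu) v (hC hv) (hc u hu v hv)
    · apply Nat.mul_le_mul_left
      have e : m + 1 + t - 2 = (t - 1) + m := by omega
      rw [e, add_mul]
      exact Nat.add_le_add (Nat.mul_le_mul_left _ hXYn.1) (Nat.mul_le_mul_left _ hXYn.2)
  have hcov : ∑ u ∈ X, (Y.filter (fun v => G.Adj u v)).card ≤
      ∑ i, (((X ×ˢ Y).filter (fun p => B i p.1 p.2 ≠ 0)).card +
        ((X ×ˢ Y).filter (fun p => (B i)ᵀ p.1 p.2 ≠ 0)).card) := by
    have e1 : ∑ u ∈ X, (Y.filter (fun v => G.Adj u v)).card =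
        ((X ×ˢ Y).filter (fun p => G.Adj p.1 p.2)).card := by
      rw [card_filter, sum_product]
      simp only [← card_filter]
    rw [e1]
    have e2 : (X ×ˢ Y).filter (fun p => G.Adj p.1 p.2) ⊆
        (univ : Finset (Fin L)).biUnion (fun i => (X ×ˢ Y).filter (fun p => B i p.1 p.2 ≠ 0) ∪
          (X ×ˢ Y).filter (fun p => (B i)ᵀ p.1 p.2 ≠ 0)) := by
      intro p hp
      rw [mem_filter] at hp
      obtain ⟨i, hi⟩ := h2 p.1 p.2 hp.2
      rw [mem_biUnion]
      refine ⟨i, mem_univ _, ?_⟩
      rw [mem_union, mem_filter, mem_filter]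
      rcases hi with hi | hi
      · exact Or.inl ⟨hp.1, hi⟩
      · exact Or.inr ⟨hp.1, hi⟩
    exact (card_le_card e2).trans (card_biUnion_le.trans (sum_le_sum fun i _ => card_union_le _ _))
  have hne : ∀ u ∈ X, ∀ v ∈ Y, u ≠ v := by
    rintro u hu v hv rfl
    exact (disjoint_left.1 hXY) hu hv
  have h3 : ∀ i, ((X ×ˢ Y).filter (fun p => B i p.1 p.2 ≠ 0)).card +
        ((X ×ˢ Y).filter (fun p => (B i)ᵀ p.1 p.2 ≠ 0)).card ≤
      2 * ((B i).rank ^ m * ((m + 1 + t - 2) * Fintype.card V)) := by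
    intro i
    have a1 := key (F i) (B i) (fun u hu v hv h => h1 i u v (hne u hu v hv) h)
    have a2 := key (F i) (B i)ᵀ (fun u hu v hv h => (h1 i v u (hne u hu v hv).symm h).symm)
    rw [Matrix.rank_transpose] at a2
    omega
  calc Nat.card G.edgeSet ≤ 2 * ∑ u ∈ X, (Y.filter (fun v => G.Adj u v)).card := hcut
    _ ≤ 2 * ∑ i, 2 * ((B i).rank ^ m * ((m + 1 + t - 2) * Fintype.card V)) :=
        Nat.mul_le_mul_left _ (hcov.trans (sum_le_sum fun i _ => h3 i))
    _ = 4 * (m + 1 + t - 2) * (Fintype.card V * ∑ i, (B i).rank ^ (m + 1 - 1)) := by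
        rw [Nat.add_sub_cancel, mul_sum, mul_sum, mul_sum]
        apply sum_congr rfl
        intro i _
        ring

end Run7.h203.SC
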