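import Pool.Agent.Run7.h203.SC.LProt

set_option autoImplicit false

namespace Run7.h203.SC

open Finset

/-- The edges of `G` are the disjoint union of `t` induced matchings with `r` edges each. -/
def IsRS {V : Type} (G : SimpleGraph V) (r t : ℕ) : Prop :=
  ∃ M : Fin t → Finset (Sym2 V), (∀ i, (M i).card = r) ∧ (∀ i j, i ≠ j → Disjoint (M i) (M j)) ∧
    (∀ e, e ∈ G.edgeSet ↔ ∃ i, e ∈ M i) ∧
    ∀ i, ∀ e ∈ M i, ∀ f ∈ M i, e ≠ f → ∀ x ∈ e, ∀ y ∈ f, x ≠ y ∧ ¬ G.Adj x y

/-- the pairs of the relation between two sets are divided into `t` induced matchings -/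
def RSFree {V : Type} (t : ℕ) (R : V → V → Prop) (X Y : Finset V) : Prop :=
  ∃ col : V → V → ℕ, (∀ u ∈ X, ∀ v ∈ Y, R u v → col u v < t) ∧
    ∀ u ∈ X, ∀ u' ∈ X, ∀ v ∈ Y, ∀ v' ∈ Y, R u v → R u' v' → col u v = col u' v' → R u v' →
      u = u' ∧ v = v'

lemma RSFree.mono {V : Type} {t : ℕ} {R R' : V → V → Prop} {X X' Y Y' : Finset V} (hX : X' ⊆ X)
    (hY : Y' ⊆ Y) (hR : ∀ u ∈ X', ∀ v ∈ Y', R' u v → R u v) (h : RSFree t R X Y) :
    RSFree t R' X' Y' := by
  obtain ⟨col, h1, h2⟩ := h
  refine ⟨col, fun u hu v hv huv => h1 u (hX hu) v (hY hv) (hR u hu v hv huv), ?_⟩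
  intro u hu u' hu' v hv v' hv' a b c d
  exact h2 u (hX hu) u' (hX hu') v (hY hv) v' (hY hv') (hR u hu v hv a) (hR u' hu' v' hv' b) c
    (hR u hu v' hv' d)

/-- the bound for the leaves -/
def lamr (t κ : ℕ) : ℕ := if κ = 0 then 0 else Nat.sqrt (t * κ) + 1

open Classical in
lemma rs_leaf {V : Type} {κ t : ℕ} {R : V → V → Prop} (hR : NoMatching κ R) (X Y : Finset V)
    (h : RSFree t R X Y) :
    ((X ×ˢ Y).filter (fun p => R p.1 p.2)).card ≤ lamr t κ * (X.card + Y.card) := by
  obtain ⟨col, h1, h2⟩ := h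
  set E := (X ×ˢ Y).filter (fun p => R p.1 p.2) with hE
  have hmem : ∀ q ∈ E, q.1 ∈ X ∧ q.2 ∈ Y ∧ R q.1 q.2 := by
    intro q hq
    have a := mem_filter.1 hq
    have b := mem_product.1 a.1
    exact ⟨b.1, b.2, a.2⟩
  unfold lamr
  split_ifs with h0
  · subst h0
    have : E = ∅ := by
      rw [eq_empty_iff_forall_notMem]
      intro p hp
      refine hR (fun _ => p.1) (fun _ => p.2) ?_
      intro i j
      exact ⟨fun _ => Fin.ext (by have := i.2; have := j.2; omega), fun _ => (hmem p hp).2.2⟩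
    rw [this, card_empty]
    exact Nat.zero_le _
  · have e1 : E.card ≤ κ * t := by
      have := card_le_mul_card_image_of_maps_to (s := E) (t := range t)
        (f := fun q => col q.1 q.2)
        (fun q hq => mem_range.2 (h1 _ (hmem q hq).1 _ (hmem q hq).2.1 (hmem q hq).2.2)) κ (by
          intro b _
          by_contra hc
          push Not at hc
          obtain ⟨e⟩ : Nonempty (Fin (κ + 1) ↪ (E.filter (fun q => col q.1 q.2 = b))) :=
            Function.Embedding.nonempty_of_card_le (by rw [Fintype.card_fin, Fintype.card_coe]; omega)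
          refine hR (fun i => (e i).1.1) (fun i => (e i).1.2) ?_
          intro i j
          have hi := mem_filter.1 (e i).2
          have hj := mem_filter.1 (e j).2
          have mi := hmem _ hi.1
          have mj := hmem _ hj.1
          constructor
          · intro hij
            obtain ⟨a, b'⟩ := h2 _ mi.1 _ mj.1 _ mi.2.1 _ mj.2.1 mi.2.2 mj.2.2
              (hi.2.trans hj.2.symm) hij
            exact e.injective (Subtype.ext (Prod.ext a b'))
          · rintro rfl
            exact mi.2.2)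
      rwa [card_range] at this
    have e2 : E.card ≤ X.card * Y.card := by
      rw [← card_product]
      exact card_filter_le _ _
    have e3 : t * κ ≤ (Nat.sqrt (t * κ) + 1) * (Nat.sqrt (t * κ) + 1) :=
      (Nat.lt_succ_sqrt (t * κ)).le
    have e4 : X.card * Y.card ≤ (X.card + Y.card) * (X.card + Y.card) :=
      Nat.mul_le_mul (Nat.le_add_right _ _) (Nat.le_add_left _ _)
    rw [← Nat.mul_self_le_mul_self_iff]
    calc E.card * E.card ≤ (κ * t) * (X.card * Y.card) := Nat.mul_le_mul e1 e2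
      _ = (t * κ) * (X.card * Y.card) := by ring
      _ ≤ ((Nat.sqrt (t * κ) + 1) * (Nat.sqrt (t * κ) + 1)) *
          ((X.card + Y.card) * (X.card + Y.card)) := Nat.mul_le_mul e3 e4
      _ = _ := by ring

lemma lamr_le {t : ℕ} (ht : 1 ≤ t) (κ : ℕ) : (lamr t κ : ℝ) ≤ 2 * (√t * √κ) := by
  unfold lamr
  split_ifs with h
  · subst h
    simp
  · have h1 : 1 ≤ t * κ := Nat.mul_pos ht (Nat.pos_of_ne_zero h)
    have h2 : (1 : ℝ) ≤ √((t * κ : ℕ) : ℝ) := by
      rw [Real.one_le_sqrt]
      exact_mod_cast h1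
    have h3 := Real.nat_sqrt_le_real_sqrt (a := t * κ)
    have h4 : √((t * κ : ℕ) : ℝ) = √t * √κ := by
      rw [Nat.cast_mul, Real.sqrt_mul (Nat.cast_nonneg _)]
    rw [h4] at h2 h3
    push_cast
    linarith

lemma rs_card {V : Type} [Fintype V] {G : SimpleGraph V} {r t : ℕ} (h : IsRS G r t) :
    Nat.card G.edgeSet = t * r := by
  classical
  obtain ⟨M, h1, h2, h3, -⟩ := h
  have e : G.edgeSet = ((univ.biUnion M : Finset (Sym2 V)) : Set (Sym2 V)) := by
    ext x
    rw [h3, mem_coe, mem_biUnion]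
    simp
  rw [e, Nat.card_coe_set_eq, Set.ncard_coe_finset, card_biUnion (fun i _ j _ hij => h2 i j hij),
    sum_congr rfl (fun i _ => h1 i), sum_const, card_univ, Fintype.card_fin, smul_eq_mul]

lemma rs_free {V : Type} {G : SimpleGraph V} {r t : ℕ} (h : IsRS G r t) (R : V → V → Prop)
    (hR : ∀ u v, u ≠ v → R u v → G.Adj u v) (X Y : Finset V) (hXY : Disjoint X Y) :
    RSFree t R X Y := by
  classical
  obtain ⟨M, -, -, h3, h4⟩ := h
  have hne : ∀ u ∈ X, ∀ v ∈ Y, u ≠ v := fun u hu v hv h => disjoint_left.1 hXY hu (h ▸ hv)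
  have hex : ∀ u v, ∃ i : ℕ, G.Adj u v → ∃ hi : i < t, s(u, v) ∈ M ⟨i, hi⟩ := by
    intro u v
    by_cases huv : G.Adj u v
    · obtain ⟨i, hi⟩ := (h3 s(u, v)).1 huv
      exact ⟨i.1, fun _ => ⟨i.2, hi⟩⟩
    · exact ⟨0, fun h => absurd h huv⟩
  choose col hcol using hex
  refine ⟨col, ?_, ?_⟩
  · intro u hu v hv huv
    exact (hcol u v (hR u v (hne u hu v hv) huv)).choose
  · intro u hu u' hu' v hv v' hv' a b c d
    have a' := hR _ _ (hne u hu v hv) a
    have b' := hR _ _ (hne u' hu' v' hv') b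
    have d' := hR _ _ (hne u hu v' hv') d
    obtain ⟨hi, hi'⟩ := hcol u v a'
    obtain ⟨hj, hj'⟩ := hcol u' v' b'
    have hMM : M ⟨col u' v', hj⟩ = M ⟨col u v, hi⟩ := by
      congr 1
      exact Fin.ext c.symm
    rw [hMM] at hj'
    by_cases he : s(u, v) = s(u', v')
    · rw [Sym2.eq_iff] at he
      rcases he with he | he
      · exact he
      · exact absurd he.1 (hne u hu v' hv')
    · exact absurd d' (h4 _ _ hi' _ hj' he u (Sym2.mem_mk_left _ _) v' (Sym2.mem_mk_right _ _)).2

open Classical in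
/-- **Ruzsa-Szemeredi graphs and protocols with equality queries and comparisons** -/
theorem rs_protocols {V : Type} [Fintype V] {G : SimpleGraph V} {r t : ℕ} (h : IsRS G r t)
    (N : ℕ) (T : Fin N → LProt V) (κ : Fin N → ℕ) (q : Fin N → ℝ)
    (hκ : ∀ i, (T i).Leaves (NoMatching (κ i))) (hq : ∀ i, 0 ≤ q i)
    (hT : ∀ i u v, u ≠ v → (T i).Accepts u v → G.Adj u v) (p : ℝ)
    (hp : ∀ u v, G.Adj u v → p ≤ ∑ i, if (T i).Accepts u v then q i else 0) :
    p * (r * √t) ≤ 4 * Fintype.card V * ∑ i, q i * ((T i).wt * √(κ i)) := by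
  rcases Nat.eq_zero_or_pos t with ht | ht
  · subst ht
    simp only [Nat.cast_zero, Real.sqrt_zero, mul_zero]
    refine mul_nonneg (by positivity) (sum_nonneg fun i _ => ?_)
    exact mul_nonneg (hq i) (by positivity)
  have h0 := lprot_random (fun R X Y => RSFree t R X Y)
    (fun R R' X X' Y Y' hX hY hR hF => hF.mono hX hY hR)
    (fun κ R => NoMatching κ R) (lamr t)
    (fun κ R X Y hR hF => rs_leaf hR X Y hF)
    G N T κ q hκ hq (fun i X Y hXY => rs_free h _ (hT i) X Y hXY) p hp
  rw [rs_card h] at h0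
  have ht' : (0 : ℝ) < √t := Real.sqrt_pos.2 (by exact_mod_cast ht)
  have hsq : √(t : ℝ) * √(t : ℝ) = t := Real.mul_self_sqrt (Nat.cast_nonneg _)
  have h1 : ∑ i, q i * ((T i).wt * (lamr t (κ i) : ℝ)) ≤
      2 * √t * ∑ i, q i * ((T i).wt * √(κ i)) := by
    rw [mul_sum]
    apply sum_le_sum
    intro i _
    calc q i * ((T i).wt * (lamr t (κ i) : ℝ)) ≤ q i * ((T i).wt * (2 * (√t * √(κ i)))) :=
          mul_le_mul_of_nonneg_left (mul_le_mul_of_nonneg_left (lamr_le ht _) (Nat.cast_nonneg _))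
            (hq i)
      _ = _ := by ring
  have h2 : √t * (p * (r * √t)) ≤ √t * (4 * Fintype.card V * ∑ i, q i * ((T i).wt * √(κ i))) := by
    calc √t * (p * (r * √t)) = p * ((√t * √t) * r) := by ring
      _ = p * ((t * r : ℕ) : ℝ) := by rw [hsq]; push_cast; ring
      _ ≤ 2 * Fintype.card V * ∑ i, q i * ((T i).wt * (lamr t (κ i) : ℝ)) := h0
      _ ≤ 2 * Fintype.card V * (2 * √t * ∑ i, q i * ((T i).wt * √(κ i))) :=
          mul_le_mul_of_nonneg_left h1 (by positivity)
      _ = _ := by ring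
  exact le_of_mul_le_mul_left h2 ht'

/-! ### Comparisons of real labels -/

/-- real labels can be replaced by small numbers -/
lemma rank_fn {V : Type} [Fintype V] (f g : V → ℝ) (L : ℕ) (hL : 2 * Fintype.card V ≤ 2 ^ L) :
    ∃ f' g' : V → Fin (2 ^ L), ∀ u v, (f' u).1 < (g' v).1 ↔ f u < g v := by
  classical
  set W : Finset ℝ := univ.image f ∪ univ.image g with hW
  have hWc : W.card ≤ 2 * Fintype.card V := by
    refine (card_union_le _ _).trans ?_
    have h1 : (univ.image f).card ≤ Fintype.card V := card_image_le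
    have h2 : (univ.image g).card ≤ Fintype.card V := card_image_le
    omega
  have hlt : ∀ x ∈ W, (W.filter (fun w => w < x)).card < 2 ^ L := by
    intro x hx
    refine lt_of_lt_of_le ?_ (hWc.trans hL)
    apply card_lt_card
    rw [ssubset_iff_of_subset (filter_subset _ _)]
    exact ⟨x, hx, by rw [mem_filter]; exact fun h => lt_irrefl _ h.2⟩
  have hfW : ∀ u, f u ∈ W := fun u => mem_union_left _ (mem_image_of_mem _ (mem_univ _))
  have hgW : ∀ u, g u ∈ W := fun u => mem_union_right _ (mem_image_of_mem _ (mem_univ _))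
  refine ⟨fun u => ⟨_, hlt _ (hfW u)⟩, fun v => ⟨_, hlt _ (hgW v)⟩, ?_⟩
  intro u v
  change (W.filter (fun w => w < f u)).card < (W.filter (fun w => w < g v)).card ↔ f u < g v
  constructor
  · intro h
    by_contra hc
    push Not at hc
    have : W.filter (fun w => w < g v) ⊆ W.filter (fun w => w < f u) := by
      intro w hw
      rw [mem_filter] at hw ⊢
      exact ⟨hw.1, hw.2.trans_le hc⟩
    exact absurd (card_le_card this) (not_le.2 h)
  · intro h
    apply card_lt_card
    have hsub : W.filter (fun w => w < f u) ⊆ W.filter (fun w => w < g v) := by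
      intro w hw
      rw [mem_filter] at hw ⊢
      exact ⟨hw.1, hw.2.trans h⟩
    rw [ssubset_iff_of_subset hsub]
    exact ⟨f u, by rw [mem_filter]; exact ⟨hfW u, h⟩, by
      rw [mem_filter]; exact fun h' => lt_irrefl _ h'.2⟩

lemma noMatching_const {V : Type} (P : Prop) : NoMatching 1 (fun _ _ : V => P) := by
  intro a b h
  have h1 := (h 0 0).2 rfl
  have h2 := (h 0 1).1 h1
  exact absurd h2 (by decide)

/-- the protocol for a Boolean combination of comparisons -/
lemma build {V : Type} [Fintype V] (L : ℕ) (hL : 2 * Fintype.card V ≤ 2 ^ L) : ∀ (s : ℕ)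
    (f g : Fin s → V → ℝ) (φ : (Fin s → Prop) → Prop), ∃ T : LProt V,
      (∀ u v, T.Accepts u v ↔ φ (fun j => f j u < g j v)) ∧ T.wt = (2 * L + 1) ^ s ∧
      T.Leaves (NoMatching 1) := by
  intro s
  induction s with
  | zero =>
    intro f g φ
    refine ⟨LProt.leaf (fun _ _ => φ (fun j => j.elim0)), ?_, ?_, ?_⟩
    · intro u v
      have : (fun j : Fin 0 => f j u < g j v) = (fun j => j.elim0) := funext fun j => j.elim0
      rw [this]
      exact Iff.rfl
    · simp [LProt.wt]
    · exact noMatching_const _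
  | succ s ih =>
    intro f g φ
    obtain ⟨f', g', hfg⟩ := rank_fn (f 0) (g 0) L hL
    obtain ⟨T1, a1, w1, l1⟩ := ih (fun j => f j.succ) (fun j => g j.succ)
      (fun P => φ (Fin.cons True P))
    obtain ⟨T0, a0, w0, l0⟩ := ih (fun j => f j.succ) (fun j => g j.succ)
      (fun P => φ (Fin.cons False P))
    refine ⟨LProt.less L f' g' T1 T0, ?_, ?_, l1, l0⟩
    · intro u v
      have hc : (fun j : Fin (s + 1) => f j u < g j v) =
          Fin.cons (f 0 u < g 0 v) (fun j : Fin s => f j.succ u < g j.succ v) := by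
        funext j
        refine Fin.cases ?_ (fun j => ?_) j
        · rw [Fin.cons_zero]
        · rw [Fin.cons_succ]
      rw [hc]
      change ((f' u).1 < (g' v).1 ∧ T1.Accepts u v) ∨ (¬ (f' u).1 < (g' v).1 ∧ T0.Accepts u v) ↔ _
      rw [hfg, a1, a0]
      by_cases h : f 0 u < g 0 v
      · have ht : (f 0 u < g 0 v) = True := eq_true h
        rw [ht]
        simp
      · have ht : (f 0 u < g 0 v) = False := eq_false h
        rw [ht]
        simp
    · simp only [LProt.wt]
      rw [w1, w0, pow_succ]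
      ring

/-- **Semilinear Ruzsa-Szemeredi graphs** -/
theorem rs_semilinear {V : Type} [Fintype V] {G : SimpleGraph V} {r t : ℕ} (h : IsRS G r t)
    (s : ℕ) (f g : Fin s → V → ℝ) (φ : (Fin s → Prop) → Prop)
    (hG : ∀ u v, u ≠ v → (G.Adj u v ↔ φ (fun j => f j u < g j v))) :
    r * √t ≤ 4 * (2 * (Nat.log 2 (Fintype.card V) : ℝ) + 5) ^ s * Fintype.card V := by
  classical
  set n := Fintype.card V with hn
  have hL : 2 * n ≤ 2 ^ (Nat.log 2 n + 2) := by
    have := Nat.lt_pow_succ_log_self (b := 2) (by norm_num) n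
    rw [pow_succ]
    rw [Nat.succ_eq_add_one] at this
    omega
  obtain ⟨T, ha, hw, hl⟩ := build (V := V) (Nat.log 2 n + 2) hL s f g φ
  have h1 := rs_protocols h 1 (fun _ => T) (fun _ => 1) (fun _ => 1) (fun _ => hl)
    (fun _ => zero_le_one) (fun _ u v huv h => (hG u v huv).2 ((ha u v).1 h)) 1 (by
      intro u v huv
      have : T.Accepts u v := (ha u v).2 ((hG u v huv.ne).1 huv)
      simp [this])
  simp only [univ_unique, sum_singleton, one_mul, Nat.cast_one, Real.sqrt_one, mul_one, hw] at h1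
  refine h1.trans (le_of_eq ?_)
  push_cast
  ring

end Run7.h203.SC
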