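import Mathlib

set_option autoImplicit false

namespace Run7.h203.SC

open Finset

/-- A protocol with equality queries for two players who know one element of `V` each. In a query
each player assigns a label to his element, and both learn whether the two labels are equal. -/
inductive EqProt (V : Type) : Type
  | leaf (b : Bool) : EqProt V
  | query (N : ℕ) (f g : V → Fin N) (yes no : EqProt V) : EqProt V

namespace EqProt

variable {V : Type}

/-- the answer for the first player's element `u` and the second player's element `v` -/
def eval : EqProt V → V → V → Bool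
  | leaf b, _, _ => b
  | query _ f g yes no, u, v => if f u = g v then yes.eval u v else no.eval u v

/-- the largest number of queries on a run -/
def cost : EqProt V → ℕ
  | leaf _ => 0
  | query _ _ _ yes no => max yes.cost no.cost + 1

end EqProt

section avg

variable {L : Type*} [Fintype L] [DecidableEq L]

/-- change one value -/
def flipAt (a : L) : (L → Bool) ≃ (L → Bool) where
  toFun χ := Function.update χ a (!χ a)
  invFun χ := Function.update χ a (!χ a)
  left_inv χ := by
    ext x
    by_cases h : x = a <;> simp [h]
  right_inv χ := by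
    ext x
    by_cases h : x = a <;> simp [h]

lemma flip_card (a : L) (P Q : (L → Bool) → Prop) [DecidablePred P] [DecidablePred Q]
    (h : ∀ χ, P (Function.update χ a (!χ a)) ↔ Q χ) :
    (univ.filter P).card = (univ.filter Q).card := by
  symm
  apply Finset.card_bij (fun χ _ => flipAt a χ)
  · intro χ hχ
    rw [mem_filter] at hχ ⊢
    exact ⟨mem_univ _, (h χ).2 hχ.2⟩
  · intro χ _ χ' _ h'
    exact (flipAt a).injective h'
  · intro χ hχ
    refine ⟨flipAt a χ, ?_, (flipAt a).left_inv χ⟩
    rw [mem_filter] at hχ ⊢
    refine ⟨mem_univ _, (h _).1 ?_⟩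
    have := (flipAt a).left_inv χ
    change flipAt a (flipAt a χ) = χ at this
    change P (flipAt a (flipAt a χ))
    rw [this]
    exact hχ.2

lemma half_true (a : L) : 2 * (univ.filter (fun χ : L → Bool => χ a = true)).card =
    Fintype.card (L → Bool) := by
  have h1 := flip_card a (fun χ : L → Bool => χ a = true) (fun χ : L → Bool => ¬ χ a = true)
    (by intro χ; simp)
  have h2 := Finset.card_filter_add_card_filter_not (s := (univ : Finset (L → Bool)))
    (fun χ : L → Bool => χ a = true)
  rw [← h1] at h2
  rw [two_mul, h2]
  rfl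

lemma half_false (a : L) : 2 * (univ.filter (fun χ : L → Bool => χ a = false)).card =
    Fintype.card (L → Bool) := by
  have h1 := flip_card a (fun χ : L → Bool => χ a = false) (fun χ : L → Bool => χ a = true)
    (by intro χ; simp)
  rw [h1]
  exact half_true a

lemma quarter (a b : L) (hab : a ≠ b) :
    4 * (univ.filter (fun χ : L → Bool => χ a = true ∧ χ b = false)).card =
      Fintype.card (L → Bool) := by
  have h1 := flip_card b (fun χ : L → Bool => χ a = true ∧ χ b = false)
    (fun χ : L → Bool => χ a = true ∧ ¬ χ b = false)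
    (by intro χ; simp [Function.update_of_ne hab])
  have h2 := Finset.card_filter_add_card_filter_not
    (s := (univ.filter (fun χ : L → Bool => χ a = true))) (fun χ : L → Bool => χ b = false)
  rw [Finset.filter_filter, Finset.filter_filter, ← h1] at h2
  have h3 := half_true a
  omega

end avg

section main

variable {V : Type}

lemma prot_bound (t : ℕ) (ht : 1 ≤ t) (T : EqProt V) : ∀ X Y : Finset V,
    (∀ A ⊆ X, ∀ B ⊆ Y, A.card = t → B.card = t → ∃ u ∈ A, ∃ v ∈ B, T.eval u v = false) →
    ((X ×ˢ Y).filter (fun p => T.eval p.1 p.2 = true)).card ≤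
      3 ^ T.cost * ((t - 1) * (X.card + Y.card)) := by
  classical
  induction T with
  | leaf b =>
    intro X Y h
    cases b with
    | false => simp [EqProt.eval]
    | true =>
      have h1 : X.card ≤ t - 1 ∨ Y.card ≤ t - 1 := by
        by_contra hc
        push Not at hc
        obtain ⟨A, hA, hA'⟩ := Finset.exists_subset_card_eq (s := X) (n := t) (by omega)
        obtain ⟨B, hB, hB'⟩ := Finset.exists_subset_card_eq (s := Y) (n := t) (by omega)
        obtain ⟨u, _, v, _, huv⟩ := h A hA B hB hA' hB'
        simp [EqProt.eval] at huv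
      have h2 : ((X ×ˢ Y).filter (fun p : V × V => (EqProt.leaf true : EqProt V).eval p.1 p.2 = true)).card
          ≤ X.card * Y.card := by
        rw [← card_product]
        exact card_filter_le _ _
      refine h2.trans ?_
      simp only [EqProt.cost, pow_zero, one_mul]
      rcases h1 with h1 | h1
      · calc X.card * Y.card ≤ (t - 1) * Y.card := Nat.mul_le_mul_right _ h1
          _ ≤ _ := Nat.mul_le_mul_left _ (Nat.le_add_left _ _)
      · calc X.card * Y.card = Y.card * X.card := mul_comm _ _
          _ ≤ (t - 1) * X.card := Nat.mul_le_mul_right _ h1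
          _ ≤ _ := Nat.mul_le_mul_left _ (Nat.le_add_right _ _)
  | query N f g yes no ihy ihn =>
    intro X Y h
    set S := X.card + Y.card with hS
    set E := (X ×ˢ Y).filter (fun p => (EqProt.query N f g yes no).eval p.1 p.2 = true) with hE
    have hsplit := Finset.card_filter_add_card_filter_not (s := E) (fun p => f p.1 = g p.2)
    -- equal labels
    have h1 : (E.filter (fun p => f p.1 = g p.2)).card ≤ 3 ^ yes.cost * ((t - 1) * S) := by
      have h2 : (E.filter (fun p => f p.1 = g p.2)) ⊆ (univ : Finset (Fin N)).biUnion (fun l =>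
          (((X.filter (fun u => f u = l)) ×ˢ (Y.filter (fun v => g v = l))).filter
            (fun p => yes.eval p.1 p.2 = true))) := by
        intro p hp
        rw [mem_filter, hE, mem_filter, mem_product] at hp
        obtain ⟨⟨⟨hp1, hp2⟩, hp3⟩, hp4⟩ := hp
        rw [mem_biUnion]
        refine ⟨g p.2, mem_univ _, ?_⟩
        rw [mem_filter, mem_product, mem_filter, mem_filter]
        refine ⟨⟨⟨hp1, hp4⟩, ⟨hp2, rfl⟩⟩, ?_⟩
        simpa [EqProt.eval, hp4] using hp3
      refine (card_le_card h2).trans (card_biUnion_le.trans ?_)
      have h3 : ∀ l : Fin N, (((X.filter (fun u => f u = l)) ×ˢ (Y.filter (fun v => g v = l))).filter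
            (fun p => yes.eval p.1 p.2 = true)).card ≤
          3 ^ yes.cost * ((t - 1) * ((X.filter (fun u => f u = l)).card +
            (Y.filter (fun v => g v = l)).card)) := by
        intro l
        apply ihy
        intro A hA B hB hA' hB'
        obtain ⟨u, hu, v, hv, huv⟩ := h A (hA.trans (filter_subset _ _)) B
          (hB.trans (filter_subset _ _)) hA' hB'
        refine ⟨u, hu, v, hv, ?_⟩
        have h4 := (mem_filter.1 (hA hu)).2
        have h5 := (mem_filter.1 (hB hv)).2
        simpa [EqProt.eval, h4, h5] using huv
      refine (sum_le_sum (fun l _ => h3 l)).trans ?_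
      rw [← mul_sum, ← mul_sum, sum_add_distrib]
      have h4 : ∑ l : Fin N, (X.filter (fun u => f u = l)).card = X.card :=
        (card_eq_sum_card_fiberwise (f := f) (t := univ) (fun _ _ => mem_coe.2 (mem_univ _))).symm
      have h5 : ∑ l : Fin N, (Y.filter (fun v => g v = l)).card = Y.card :=
        (card_eq_sum_card_fiberwise (f := g) (t := univ) (fun _ _ => mem_coe.2 (mem_univ _))).symm
      rw [h4, h5]
    -- different labels
    have h0 : (E.filter (fun p => ¬ f p.1 = g p.2)).card ≤ 2 * (3 ^ no.cost * ((t - 1) * S)) := by
      set E0 := E.filter (fun p => ¬ f p.1 = g p.2) with hE0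
      set M := Fintype.card (Fin N → Bool) with hM
      have hM0 : 0 < M := Fintype.card_pos
      have e1 : ∑ χ : Fin N → Bool, 4 * (E0.filter (fun p => χ (f p.1) = true ∧ χ (g p.2) = false)).card
          = E0.card * M := by
        simp only [card_filter]
        rw [← mul_sum, sum_comm, mul_sum]
        have e2 : ∀ p ∈ E0, 4 * ∑ χ : Fin N → Bool,
            (if χ (f p.1) = true ∧ χ (g p.2) = false then 1 else 0) = M := by
          intro p hp
          rw [← card_filter]
          exact quarter (f p.1) (g p.2) (mem_filter.1 hp).2
        rw [sum_congr rfl e2, sum_const, smul_eq_mul]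
      have e3 : ∀ χ : Fin N → Bool, (E0.filter (fun p => χ (f p.1) = true ∧ χ (g p.2) = false)).card ≤
          3 ^ no.cost * ((t - 1) * ((X.filter (fun u => χ (f u) = true)).card +
            (Y.filter (fun v => χ (g v) = false)).card)) := by
        intro χ
        have e4 : E0.filter (fun p => χ (f p.1) = true ∧ χ (g p.2) = false) ⊆
            (((X.filter (fun u => χ (f u) = true)) ×ˢ (Y.filter (fun v => χ (g v) = false))).filter
              (fun p => no.eval p.1 p.2 = true)) := by
          intro p hp
          rw [mem_filter, hE0, mem_filter, hE, mem_filter, mem_product] at hp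
          obtain ⟨⟨⟨⟨hp1, hp2⟩, hp3⟩, hp4⟩, hp5, hp6⟩ := hp
          rw [mem_filter, mem_product, mem_filter, mem_filter]
          refine ⟨⟨⟨hp1, hp5⟩, ⟨hp2, hp6⟩⟩, ?_⟩
          simpa [EqProt.eval, hp4] using hp3
        refine (card_le_card e4).trans ?_
        apply ihn
        intro A hA B hB hA' hB'
        obtain ⟨u, hu, v, hv, huv⟩ := h A (hA.trans (filter_subset _ _)) B
          (hB.trans (filter_subset _ _)) hA' hB'
        refine ⟨u, hu, v, hv, ?_⟩
        have h4 := (mem_filter.1 (hA hu)).2
        have h5 := (mem_filter.1 (hB hv)).2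
        have h6 : ¬ f u = g v := by
          intro h7
          rw [h7, h5] at h4
          exact absurd h4 (by decide)
        simpa [EqProt.eval, h6] using huv
      have e5 : ∑ χ : Fin N → Bool, 2 * ((X.filter (fun u => χ (f u) = true)).card +
            (Y.filter (fun v => χ (g v) = false)).card) = S * M := by
        simp only [card_filter, mul_add]
        rw [sum_add_distrib, ← mul_sum, ← mul_sum, sum_comm, mul_sum]
        have e6 : ∀ u ∈ X, 2 * ∑ χ : Fin N → Bool, (if χ (f u) = true then 1 else 0) = M := by
          intro u _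
          rw [← card_filter]
          exact half_true (f u)
        rw [sum_congr rfl e6, sum_comm, mul_sum]
        have e7 : ∀ v ∈ Y, 2 * ∑ χ : Fin N → Bool, (if χ (g v) = false then 1 else 0) = M := by
          intro v _
          rw [← card_filter]
          exact half_false (g v)
        rw [sum_congr rfl e7, sum_const, sum_const, smul_eq_mul, smul_eq_mul, hS]
        ring
      have e8 : E0.card * M ≤ (2 * (3 ^ no.cost * ((t - 1) * S))) * M := by
        rw [← e1]
        calc ∑ χ : Fin N → Bool, 4 * (E0.filter (fun p => χ (f p.1) = true ∧ χ (g p.2) = false)).card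
            ≤ ∑ χ : Fin N → Bool, 4 * (3 ^ no.cost * ((t - 1) * ((X.filter (fun u => χ (f u) = true)).card +
              (Y.filter (fun v => χ (g v) = false)).card))) :=
              sum_le_sum (fun χ _ => Nat.mul_le_mul_left _ (e3 χ))
          _ = (2 * (3 ^ no.cost * (t - 1))) * ∑ χ : Fin N → Bool, 2 * ((X.filter (fun u => χ (f u) = true)).card +
              (Y.filter (fun v => χ (g v) = false)).card) := by
              rw [mul_sum]
              apply sum_congr rfl
              intro χ _
              ring
          _ = _ := by rw [e5]; ring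
      exact Nat.le_of_mul_le_mul_right e8 hM0
    have h6 : (3 : ℕ) ^ yes.cost ≤ 3 ^ (max yes.cost no.cost) :=
      Nat.pow_le_pow_right (by norm_num) (le_max_left _ _)
    have h7 : (3 : ℕ) ^ no.cost ≤ 3 ^ (max yes.cost no.cost) :=
      Nat.pow_le_pow_right (by norm_num) (le_max_right _ _)
    calc E.card = (E.filter (fun p => f p.1 = g p.2)).card + (E.filter (fun p => ¬ f p.1 = g p.2)).card :=
          hsplit.symm
      _ ≤ 3 ^ yes.cost * ((t - 1) * S) + 2 * (3 ^ no.cost * ((t - 1) * S)) := Nat.add_le_add h1 h0
      _ ≤ 3 ^ (max yes.cost no.cost) * ((t - 1) * S) + 2 * (3 ^ (max yes.cost no.cost) * ((t - 1) * S)) := by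
          gcongr
      _ = 3 ^ (EqProt.query N f g yes no).cost * ((t - 1) * S) := by
          simp only [EqProt.cost, pow_succ]
          ring

/-- the ordered adjacent pairs -/
lemma card_pairs [Fintype V] (G : SimpleGraph V) [DecidableRel G.Adj] :
    ((univ : Finset (V × V)).filter (fun p => G.Adj p.1 p.2)).card = 2 * Nat.card G.edgeSet := by
  classical
  have h1 := G.sum_degrees_eq_twice_card_edges
  have h2 : Nat.card G.edgeSet = G.edgeFinset.card := by
    rw [Nat.card_eq_fintype_card, ← SimpleGraph.edgeFinset_card]
  rw [h2, ← h1, card_filter, ← univ_product_univ, sum_product]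
  apply sum_congr rfl
  intro u _
  rw [← card_filter, ← SimpleGraph.card_neighborFinset_eq_degree]
  congr 1
  ext v
  simp

/-- a graph without `K_{t,t}` decided by a protocol -/
theorem edges_le_of_prot [Fintype V] (t : ℕ) (ht : 1 ≤ t) (G : SimpleGraph V)
    (hG : (completeBipartiteGraph (Fin t) (Fin t)).Free G) (T : EqProt V)
    (hT : ∀ u v, u ≠ v → (T.eval u v = true ↔ G.Adj u v)) :
    Nat.card G.edgeSet ≤ 2 * (t - 1) * 3 ^ T.cost * Fintype.card V := by
  classical
  set E := (univ : Finset (V × V)).filter (fun p => G.Adj p.1 p.2) with hE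
  set M := Fintype.card (V → Bool) with hM
  have hM0 : 0 < M := Fintype.card_pos
  have e1 : ∑ χ : V → Bool, 4 * (E.filter (fun p => χ p.1 = true ∧ χ p.2 = false)).card
      = E.card * M := by
    simp only [card_filter]
    rw [← mul_sum, sum_comm, mul_sum]
    have e2 : ∀ p ∈ E, 4 * ∑ χ : V → Bool,
        (if χ p.1 = true ∧ χ p.2 = false then 1 else 0) = M := by
      intro p hp
      rw [← card_filter]
      exact quarter p.1 p.2 (mem_filter.1 hp).2.ne
    rw [sum_congr rfl e2, sum_const, smul_eq_mul, card_filter]
  have e3 : ∀ χ : V → Bool, (E.filter (fun p => χ p.1 = true ∧ χ p.2 = false)).card ≤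
      3 ^ T.cost * ((t - 1) * Fintype.card V) := by
    intro χ
    have e4 : E.filter (fun p => χ p.1 = true ∧ χ p.2 = false) ⊆
        (((univ.filter (fun u => χ u = true)) ×ˢ (univ.filter (fun v => χ v = false))).filter
          (fun p => T.eval p.1 p.2 = true)) := by
      intro p hp
      rw [mem_filter, hE, mem_filter] at hp
      obtain ⟨⟨-, hp3⟩, hp5, hp6⟩ := hp
      rw [mem_filter, mem_product, mem_filter, mem_filter]
      exact ⟨⟨⟨mem_univ _, hp5⟩, ⟨mem_univ _, hp6⟩⟩, (hT _ _ hp3.ne).2 hp3⟩
    refine (card_le_card e4).trans ?_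
    refine (prot_bound t ht T _ _ ?_).trans ?_
    · intro A hA B hB hA' hB'
      by_contra hc
      push Not at hc
      apply hG
      rw [SimpleGraph.completeBipartiteGraph_isContained_iff]
      refine ⟨A, B, by simpa using hA', by simpa using hB', ?_⟩
      intro u hu v hv
      rw [mem_coe] at hu hv
      have h4 := (mem_filter.1 (hA hu)).2
      have h5 := (mem_filter.1 (hB hv)).2
      have huv : u ≠ v := by
        rintro rfl
        rw [h5] at h4
        exact absurd h4 (by decide)
      have h6 := hc u hu v hv
      rw [← hT u v huv]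
      simpa using h6
    · apply Nat.mul_le_mul_left
      apply Nat.mul_le_mul_left
      rw [← card_union_of_disjoint]
      · exact card_le_univ _
      · rw [disjoint_left]
        intro x hx hx'
        rw [mem_filter] at hx hx'
        rw [hx.2] at hx'
        exact absurd hx'.2 (by decide)
  have e8 : E.card * M ≤ (4 * (3 ^ T.cost * ((t - 1) * Fintype.card V))) * M := by
    rw [← e1]
    calc ∑ χ : V → Bool, 4 * (E.filter (fun p => χ p.1 = true ∧ χ p.2 = false)).card
        ≤ ∑ χ : V → Bool, 4 * (3 ^ T.cost * ((t - 1) * Fintype.card V)) :=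
          sum_le_sum (fun χ _ => Nat.mul_le_mul_left _ (e3 χ))
      _ = _ := by
          rw [sum_const, smul_eq_mul, card_univ]
          ring
  have e9 := Nat.le_of_mul_le_mul_right e8 hM0
  have e10 := card_pairs G
  rw [← hE] at e10
  rw [e10] at e9
  have e11 : 4 * (3 ^ T.cost * ((t - 1) * Fintype.card V)) =
      2 * (2 * (t - 1) * 3 ^ T.cost * Fintype.card V) := by ring
  rw [e11] at e9
  exact Nat.le_of_mul_le_mul_left e9 (by norm_num)

end main

end Run7.h203.SC
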